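import Mathlib

namespace Pool.Agent.P.MP_e3a7ef_co

/-- The Fennessey-Larcombe-French sequence (the recurrence is written at index `n + 2`). -/
noncomputable def flf : ℕ → ℝ
  | 0 => 1
  | 1 => 8
  | n + 2 => 8 * (3 * ((n : ℝ) + 2) ^ 2 - ((n : ℝ) + 2) - 1) / ((n : ℝ) + 2) ^ 2 * flf (n + 1)
      - 128 * (n : ℝ) / ((n : ℝ) + 1) * flf n

/-- The operator `L`, on sequences re-indexed to start at `0`. -/
def opL (x : ℕ → ℝ) : ℕ → ℝ := fun i => x i * x (i + 2) - x (i + 1) ^ 2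

end Pool.Agent.P.MP_e3a7ef_co
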