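import Mathlib

namespace Pool.Agent.P.MP_e3a7ef_co

/-- Leading coefficients of the levels. -/
noncomputable def al (j : ℕ) : ℝ := 3 * 2 ^ j - 2

/-- Table of relative radii. -/
def thT : List ℕ := [80, 112, 153, 204, 265, 331, 399, 466, 528, 584, 633, 675, 710, 740, 764, 784,
  801, 815, 827, 837, 846, 855, 864, 873, 882, 891]

/-- Table of error constants. -/
def bT : List ℕ := [30, 464, 3431, 14339, 38804, 78908, 130576, 186892, 243830, 297007, 344849,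
  386586, 423023, 452192, 478041, 499061, 515571, 529700, 541523, 552907, 563387, 572082, 579911,
  587359, 594678, 602000]

/-- Relative radii. -/
noncomputable def th (j : ℕ) : ℝ :=
  if j < 26 then (thT.getD j 0 : ℝ) / 1000 else 19 / 20 - 1 / 20 * (4 / 5) ^ (j - 26)

/-- Error constants. -/
noncomputable def bb (j : ℕ) : ℝ := if j < 26 then (bT.getD j 0 : ℝ) else al j / 100

theorem al_succ (j : ℕ) : al (j + 1) = 2 * al j + 2 := by
  simp only [al]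
  ring

theorem al_pos (j : ℕ) : 1 ≤ al j := by
  have : (1 : ℝ) ≤ 2 ^ j := one_le_pow₀ (by norm_num)
  simp only [al]
  linarith

theorem al_ge {j : ℕ} (hj : 1 ≤ j) : 2 * 2 ^ j ≤ al j := by
  have : (2 : ℝ) ^ 1 ≤ 2 ^ j := pow_le_pow_right₀ (by norm_num) hj
  simp only [al]
  linarith

theorem al_mono {j k : ℕ} (h : j ≤ k) : al j ≤ al k := by
  have : (2 : ℝ) ^ j ≤ 2 ^ k := pow_le_pow_right₀ (by norm_num) h
  simp only [al]
  linarith

theorem th_tail (d : ℕ) : th (26 + d) = 19 / 20 - 1 / 20 * (4 / 5) ^ d := by simp [th]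

theorem bb_tail (d : ℕ) : bb (26 + d) = al (26 + d) / 100 := by simp [bb]

theorem tail_pow (d : ℕ) : 0 < ((4 : ℝ) / 5) ^ d ∧ ((4 : ℝ) / 5) ^ d ≤ 1 ∧
    2 ^ 27 ≤ al (26 + d) * (((4 : ℝ) / 5) ^ d) ^ 2 := by
  refine ⟨by positivity, pow_le_one₀ (by norm_num) (by norm_num), ?_⟩
  have h1 := al_ge (j := 26 + d) (by omega)
  have h2 : (1 : ℝ) ≤ 2 ^ d * ((4 / 5) ^ d) ^ 2 := by
    rw [← pow_mul, mul_comm d 2, pow_mul, ← mul_pow]
    exact one_le_pow₀ (by norm_num)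
  calc (2 : ℝ) ^ 27 ≤ 2 ^ 27 * (2 ^ d * ((4 / 5) ^ d) ^ 2) := le_mul_of_one_le_right (by positivity) h2
    _ = 2 * 2 ^ (26 + d) * ((4 / 5) ^ d) ^ 2 := by ring
    _ ≤ _ := by gcongr

theorem th_facts (j : ℕ) : 0 < th j ∧ th j ≤ th (j + 1) ∧ th j ≤ 19 / 20 ∧ 0 ≤ bb j := by
  rcases lt_or_ge j 26 with h | h
  · interval_cases j <;> norm_num [th, bb, thT, bT]
  · obtain ⟨d, rfl⟩ := Nat.exists_eq_add_of_le h
    obtain ⟨h1, h2, -⟩ := tail_pow d
    have := al_pos (26 + d)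
    rw [add_assoc, th_tail, th_tail, bb_tail, pow_succ]
    refine ⟨by linarith, by linarith, by linarith, by linarith⟩

theorem sched_zero : th 0 = 2 / 25 ∧
    ∃ D : ℝ, 101 / 100 * th 1 ^ 4 ≤ D * ((th 1 - th 0) ^ 2 * th 0 ^ 2) ∧
      8 + (4 + 2 * D * 38) ≤ al 1 * bb 1 := by
  refine ⟨by norm_num [th, thT], 101 / 100 * th 1 ^ 4 / ((th 1 - th 0) ^ 2 * th 0 ^ 2), ?_, ?_⟩ <;>
    norm_num [th, bb, thT, bT, al]

theorem sched_step {j : ℕ} (hj : 1 ≤ j) :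
    ∃ D : ℝ, 101 / 100 * th (j + 1) ^ 4 ≤ D * ((th (j + 1) - th j) ^ 2 * th j ^ 2) ∧
      2 * (al j * bb j) + (2 + 2 * D * (71 / 100 * al j + 5 / 4 * bb j)) ≤
        al (j + 1) * bb (j + 1) := by
  rcases lt_or_ge j 26 with h | h
  · refine ⟨101 / 100 * th (j + 1) ^ 4 / ((th (j + 1) - th j) ^ 2 * th j ^ 2), ?_⟩
    interval_cases j <;> norm_num [th, bb, thT, bT, al]
  · obtain ⟨d, rfl⟩ := Nat.exists_eq_add_of_le h
    obtain ⟨h1, h2, h3⟩ := tail_pow d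
    have h4 := al_ge (j := 26 + d) (by omega)
    have h5 : (2 : ℝ) ^ 26 ≤ 2 ^ (26 + d) := pow_le_pow_right₀ (by norm_num) (by omega)
    refine ⟨al (26 + d) / 100, ?_, ?_⟩
    · have h6 := (th_facts (26 + d + 1)).2.2.1
      have h7 := (th_facts (26 + d + 1)).1
      have h8 : th (26 + d + 1) - th (26 + d) = 1 / 100 * (4 / 5) ^ d := by
        rw [add_assoc, th_tail, th_tail, pow_succ]
        ring
      have h9 : 9 / 10 ≤ th (26 + d) := by
        rw [th_tail]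
        linarith
      rw [h8]
      calc 101 / 100 * th (26 + d + 1) ^ 4 ≤ 101 / 100 * (19 / 20) ^ 4 := by gcongr
        _ ≤ 2 ^ 27 / 1000000 * (9 / 10) ^ 2 := by norm_num
        _ ≤ al (26 + d) * ((4 / 5) ^ d) ^ 2 / 1000000 * th (26 + d) ^ 2 := by gcongr
        _ = _ := by ring
    · rw [add_assoc, bb_tail, bb_tail, ← add_assoc 26 d 1, al_succ]
      nlinarith

theorem sched_b (j : ℕ) {x : ℝ} (hx : 8192 ≤ x) (h : al j ≤ 26 / 10 * x ^ 2) :
    bb j ≤ (th j * x) ^ 2 / 10 := by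
  have hx2 : 8192 ^ 2 ≤ x ^ 2 := by gcongr
  rcases lt_or_ge j 26 with hj | hj
  · have : bb j ≤ th j ^ 2 * 8192 ^ 2 / 10 := by
      interval_cases j <;> norm_num [th, bb, thT, bT]
    rw [mul_pow]
    refine this.trans ?_
    gcongr
  · obtain ⟨d, rfl⟩ := Nat.exists_eq_add_of_le hj
    obtain ⟨h1, h2, -⟩ := tail_pow d
    have h9 : 9 / 10 ≤ th (26 + d) := by
      rw [th_tail]
      linarith
    rw [bb_tail, mul_pow]
    calc al (26 + d) / 100 ≤ (9 / 10) ^ 2 * x ^ 2 / 10 := by nlinarith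
      _ ≤ _ := by gcongr

theorem sched_a (j : ℕ) {x : ℝ} (hx : 8192 ≤ x) (h : al j ≤ 126 / 100 * x ^ 2) :
    al j ≤ 17 / 10 * (th j * x) ^ 2 ∧ 101 ≤ (th (j + 1) * x - th j * x) ^ 2 := by
  have hx2 : 8192 ^ 2 ≤ x ^ 2 := by gcongr
  rw [← sub_mul, mul_pow, mul_pow]
  rcases lt_or_ge j 26 with hj | hj
  · have h1 : (al j ≤ 17 / 10 * (th j ^ 2 * 8192 ^ 2) ∨ 126 / 100 ≤ 17 / 10 * th j ^ 2) ∧
        101 ≤ (th (j + 1) - th j) ^ 2 * 8192 ^ 2 := by
      interval_cases j <;> norm_num [th, al, thT]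
    refine ⟨?_, h1.2.trans (by gcongr)⟩
    rcases h1.1 with h2 | h2
    · exact h2.trans (by gcongr)
    · nlinarith
  · obtain ⟨d, rfl⟩ := Nat.exists_eq_add_of_le hj
    obtain ⟨h1, h2, h3⟩ := tail_pow d
    have h9 : 9 / 10 ≤ th (26 + d) := by
      rw [th_tail]
      linarith
    have h8 : th (26 + d + 1) - th (26 + d) = 1 / 100 * (4 / 5) ^ d := by
      rw [add_assoc, th_tail, th_tail, pow_succ]
      ring
    have h10 : (9 / 10) ^ 2 ≤ th (26 + d) ^ 2 := by gcongr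
    refine ⟨by nlinarith, ?_⟩
    rw [h8]
    have h11 : al (26 + d) * ((4 / 5) ^ d) ^ 2 ≤ 126 / 100 * x ^ 2 * ((4 / 5) ^ d) ^ 2 := by gcongr
    nlinarith

/-- Exponents of the admissible relative errors. -/
def FF : ℕ → ℕ
  | 0 => 10
  | s + 1 => FF s + s + 5

theorem FF_ge (s : ℕ) : s + 10 ≤ FF s := by
  induction s with
  | zero => simp [FF]
  | succ s ih => simp only [FF]; omega

theorem FF_bound (d : ℕ) : 8 * (27 + d) ≤ FF (26 + d) + 2 * (27 + d) + 2 + 101 ∧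
    625 * (FF (26 + d) + 2 * (27 + d) + 2 + 101) ^ 2 ≤ 4 * 2 ^ (26 + d) := by
  induction d with
  | zero => decide
  | succ d ih =>
    obtain ⟨h1, h2⟩ := ih
    have e : FF (26 + (d + 1)) = FF (26 + d) + (26 + d) + 5 := rfl
    refine ⟨by omega, ?_⟩
    rw [e, ← add_assoc 26 d 1, pow_succ 2]
    generalize FF (26 + d) = a at *
    generalize 2 ^ (26 + d) = P at *
    have h3 : 5 * (a + (26 + d) + 5 + 2 * (27 + (d + 1)) + 2 + 101) ≤
        7 * (a + 2 * (27 + d) + 2 + 101) := by omega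
    have h4 := Nat.pow_le_pow_left h3 2
    rw [mul_pow, mul_pow] at h4
    omega

end Pool.Agent.P.MP_e3a7ef_co
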