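import Pool.Agent.P.MP_e3a7ef_co.Seq
import Pool.Agent.P.MP_e3a7ef_co.Sched

namespace Pool.Agent.P.MP_e3a7ef_co

open Complex

theorem transfer {E0 E1 E2 E' : ℂ} {q0 q1 q2 B e : ℝ} (hB : 1 ≤ B) (he : 0 ≤ e)
    (hBe : B * e ≤ 1 / 100) (hid : E' = E1 ^ 2 * (E0 - 1) * (E2 - 1) / (E1 - 1) ^ 2)
    (n0 : E0 ≠ 0) (n1 : E1 ≠ 0) (n2 : E2 ≠ 0)
    (b0 : ‖E0‖ ≤ B * ‖E0 - 1‖) (b1 : ‖E1‖ ≤ B * ‖E1 - 1‖) (b2 : ‖E2‖ ≤ B * ‖E2 - 1‖)
    (h0 : ‖q0 - E0‖ ≤ e * ‖E0‖) (h1 : ‖q1 - E1‖ ≤ e * ‖E1‖) (h2 : ‖q2 - E2‖ ≤ e * ‖E2‖) :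
    ‖((q1 ^ 2 * (q0 - 1) * (q2 - 1) / (q1 - 1) ^ 2 : ℝ) : ℂ) - E'‖ ≤ 7 * B * e * ‖E'‖ := by
  have ne : ∀ {E : ℂ}, E ≠ 0 → ‖E‖ ≤ B * ‖E - 1‖ → E - 1 ≠ 0 := by
    intro E n b h
    rw [h, norm_zero, mul_zero] at b
    exact n (norm_le_zero_iff.1 b)
  rw [hid]
  push_cast
  exact perturb hB he hBe (ne n0 b0) (ne n1 b1) (ne n2 b2) b0 b1 b2 h0 h1 h2 n1

theorem lower {g : ℂ} {α z q e : ℝ} (hg : ‖g - α / (z : ℂ) ^ 2‖ ≤ α / ‖(z : ℂ)‖ ^ 2 / 10)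
    (hq : 0 < q) (he : e ≤ 1) (h : ‖q - exp g‖ ≤ e * ‖exp g‖) :
    (1 - e) * Real.exp (9 / 10 * (α / z ^ 2)) ≤ q := by
  have h1 : 9 / 10 * (α / z ^ 2) ≤ g.re := by
    have a1 := (abs_le.1 ((abs_re_le_norm _).trans hg)).1
    have a2 : (α / (z : ℂ) ^ 2 : ℂ) = ((α / z ^ 2 : ℝ) : ℂ) := by
      push_cast
      rfl
    rw [a2, sub_re, ofReal_re, norm_real, Real.norm_eq_abs, sq_abs] at a1
    linarith
  have h2 := norm_sub_norm_le (exp g) q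
  rw [norm_sub_rev, norm_real, Real.norm_of_nonneg hq.le] at h2
  have h3 : Real.exp (9 / 10 * (α / z ^ 2)) ≤ ‖exp g‖ := by
    rw [norm_exp]
    exact Real.exp_le_exp.2 h1
  calc _ ≤ (1 - e) * ‖exp g‖ := by gcongr
    _ ≤ q := by linarith

theorem half_pow_FF (s : ℕ) : ((1 : ℝ) / 2) ^ FF s ≤ 1 / 1000 := by
  calc ((1 : ℝ) / 2) ^ FF s ≤ (1 / 2) ^ 10 :=
        pow_le_pow_of_le_one (by norm_num) (by norm_num) (by have := FF_ge s; omega)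
    _ ≤ _ := by norm_num

theorem gt_one {α z q : ℝ} {j s : ℕ} (hz : 0 < z) (hα : 2 * 2 ^ j ≤ α) (hz2 : z ^ 2 ≤ 2 * 2 ^ (j + s))
    (h : (1 - (1 / 2) ^ FF s) * Real.exp (9 / 10 * (α / z ^ 2)) ≤ q) : 1 < q := by
  have h1 := half_pow_FF s
  have h2 : ((1 : ℝ) / 2) ^ FF s ≤ (1 / 2) ^ (s + 10) :=
    pow_le_pow_of_le_one (by norm_num) (by norm_num) (FF_ge s)
  have h3 : ((1 : ℝ) / 2) ^ s ≤ α / z ^ 2 := by
    rw [le_div_iff₀ (by positivity)]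
    calc _ ≤ (1 / 2 : ℝ) ^ s * (2 * 2 ^ (j + s)) := by gcongr
      _ = 2 * 2 ^ j * (1 / 2 * 2 : ℝ) ^ s := by rw [mul_pow]; ring
      _ ≤ α := by simpa using hα
  have h4 := Real.add_one_le_exp (9 / 10 * (α / z ^ 2))
  have h5 : (0 : ℝ) < (1 / 2) ^ FF s := by positivity
  rw [pow_add] at h2
  set e : ℝ := (1 / 2) ^ FF s
  set y := α / z ^ 2
  have h6 : 1000 * e ≤ y := by nlinarith
  calc 1 < (1 - e) * (9 / 10 * y + 1) := by nlinarith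
    _ ≤ (1 - e) * Real.exp (9 / 10 * y) := by
      gcongr
      linarith
    _ ≤ q := h

theorem ge_three {y q e : ℝ} (he : e ≤ 1 / 1000) (hy : 5 / 4 ≤ y)
    (h : (1 - e) * Real.exp (9 / 10 * y) ≤ q) : 3 ≤ q := by
  have h1 := Real.sum_le_exp_of_nonneg (x := 9 / 8) (by norm_num) 5
  simp only [Finset.sum_range_succ, Finset.sum_range_zero, Nat.factorial] at h1
  norm_num at h1
  have h2 : Real.exp (9 / 8) ≤ Real.exp (9 / 10 * y) := Real.exp_le_exp.2 (by linarith)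
  nlinarith

section main

variable {k i d : ℕ} {x : ℝ} (hx : x = i + k + 3 / 2) (h1 : 2 ^ (26 + d) ≤ x ^ 2)
  (h2 : x ^ 2 < 2 ^ (27 + d)) (hk : k ≤ 27 + d)

include hx h1 in
theorem x_facts : 8192 ≤ x ∧ 101 + ((FF (26 + d) + 2 * (27 + d) + 2 : ℕ) : ℝ) ≤ th 0 * x ∧
    ((27 + d : ℕ) : ℝ) ≤ x / 100 := by
  have hx0 : 0 ≤ x := by rw [hx]; positivity
  obtain ⟨a1, a2⟩ := FF_bound d
  have a3 : (625 : ℝ) * ((FF (26 + d) + 2 * (27 + d) + 2 + 101 : ℕ) : ℝ) ^ 2 ≤ 4 * 2 ^ (26 + d) := by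
    exact_mod_cast a2
  have a4 : 25 * ((FF (26 + d) + 2 * (27 + d) + 2 + 101 : ℕ) : ℝ) ≤ 2 * x := by
    refine (abs_le_of_sq_le_sq' ?_ (by positivity)).2
    nlinarith
  have a5 : (8 : ℝ) * ((27 + d : ℕ) : ℝ) ≤ ((FF (26 + d) + 2 * (27 + d) + 2 + 101 : ℕ) : ℝ) := by
    exact_mod_cast a1
  refine ⟨?_, ?_, by linarith⟩
  · have : (2 : ℝ) ^ 26 ≤ 2 ^ (26 + d) := pow_le_pow_right₀ (by norm_num) (by omega)
    refine (abs_le_of_sq_le_sq' ?_ hx0).2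
    linarith
  · rw [sched_zero.1]
    rw [Nat.cast_add _ 101] at a4
    push_cast at a4 ⊢
    linarith

include hx h1 hk in
theorem window {j i' : ℕ} (hj : j ≤ k) (a : i ≤ i') (b : i' ≤ i + 2 * (k - j)) :
    99 / 100 * x ≤ (i' : ℝ) + j + 3 / 2 ∧ (i' : ℝ) + j + 3 / 2 ≤ 101 / 100 * x := by
  obtain ⟨-, -, a3⟩ := x_facts hx h1
  have c1 : ((i + k : ℕ) : ℝ) ≤ ((i' + j + (27 + d) : ℕ) : ℝ) := by exact_mod_cast (by omega)
  have c2 : ((i' + j : ℕ) : ℝ) ≤ ((i + k + (27 + d) : ℕ) : ℝ) := by exact_mod_cast (by omega)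
  rw [Nat.cast_add _ (27 + d)] at c1 c2
  rw [Nat.cast_add i k, Nat.cast_add i' j] at c1 c2
  constructor <;> linarith

include hx h1 hk in
theorem window_mem {j i' : ℕ} (hj : j ≤ k) (a : i ≤ i') (b : i' ≤ i + 2 * (k - j)) (l : ℕ) :
    (((i' : ℝ) + j + 3 / 2 : ℝ) : ℂ) ∈ U (th l * x) := by
  obtain ⟨a1, -⟩ := window hx h1 hk hj a b
  have a2 := (x_facts hx h1).1
  have a3 := (th_facts l).2.2.1
  change th l * x < ‖_‖
  rw [norm_real, Real.norm_of_nonneg (by positivity)]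
  nlinarith

/-- The inductive invariant. -/
def Inv (k i d : ℕ) (x : ℝ) (j : ℕ) : Prop :=
  ∃ G : ℂ → ℂ, DifferentiableOn ℂ G (U (th j * x)) ∧
    (∀ z ∈ U (th j * x), ‖G z - al j / z ^ 2‖ ≤ al j * bb j / ‖z‖ ^ 4) ∧
    ∀ i', i ≤ i' → i' ≤ i + 2 * (k - j) → 0 < QQ j i' ∧
      ‖QQ j i' - exp (G ((i' : ℝ) + j + 3 / 2 : ℝ))‖ ≤
        (1 / 2) ^ FF (27 + d - j) * ‖exp (G ((i' : ℝ) + j + 3 / 2 : ℝ))‖

include hx h1 h2 hk in
theorem level0 : (∀ i', i ≤ i' → i' ≤ i + 2 * k → QQ 0 i' < 1) ∧ (1 ≤ k → Inv k i d x 1) := by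
  obtain ⟨a1, a2, a3⟩ := x_facts hx h1
  set m := FF (26 + d) + 2 * (27 + d) + 2 with hm
  obtain ⟨G, L, dG, dL, hE, hid, hL, hG, hB, hlt⟩ := level_zero m a2
  have hx4 : (101 / 100 * x) ^ 4 ≤ 11 / 10 * 2 ^ (2 * (27 + d)) := by
    have : x ^ 4 ≤ 2 ^ (2 * (27 + d)) := by
      rw [mul_comm 2, pow_mul, show x ^ 4 = (x ^ 2) ^ 2 by ring]
      gcongr
    rw [mul_pow]
    have h3 : (0 : ℝ) ≤ x ^ 4 := by positivity
    nlinarith
  have hem : (2 : ℝ) ^ (2 * (27 + d)) * (1 / 2) ^ m = (1 / 2) ^ FF (26 + d) / 4 := by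
    rw [hm, pow_add, pow_add (1 / 2 : ℝ) (FF (26 + d))]
    have : (2 : ℝ) ^ (2 * (27 + d)) * (1 / 2) ^ (2 * (27 + d)) = 1 := by
      rw [← mul_pow]
      norm_num
    linear_combination (1 / 2) ^ FF (26 + d) / 4 * this
  have hF := half_pow_FF (26 + d)
  have hem0 : (0 : ℝ) < (1 / 2) ^ m := by positivity
  have key : ∀ i', i ≤ i' → i' ≤ i + 2 * k → QQ 0 i' < 1 ∧
      ‖QQ 0 i' - exp (G ((i' : ℝ) + 3 / 2 : ℝ))‖ ≤ (1 / 2) ^ m * ‖exp (G ((i' : ℝ) + 3 / 2 : ℝ))‖ ∧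
      ‖exp (G ((i' : ℝ) + 3 / 2 : ℝ))‖ ≤ 4 / 7 * 2 ^ (2 * (27 + d)) *
        ‖exp (G ((i' : ℝ) + 3 / 2 : ℝ)) - 1‖ := by
    intro i' b1 b2
    have w := window hx h1 hk (Nat.zero_le k) b1 b2
    have wm := window_mem hx h1 hk (Nat.zero_le k) b1 b2 0
    simp only [Nat.cast_zero, add_zero] at w wm
    have hn : ‖(((i' : ℝ) + 3 / 2 : ℝ) : ℂ)‖ = i' + 3 / 2 := by
      rw [norm_real, Real.norm_of_nonneg (by positivity)]
    have hz4 : ((i' : ℝ) + 3 / 2) ^ 4 ≤ 11 / 10 * 2 ^ (2 * (27 + d)) :=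
      le_trans (by gcongr; exact w.2) hx4
    have c1 : 100 + m < i' + 1 := by
      have : th 0 * x < ‖_‖ := wm
      rw [hn] at this
      have c2 : ((100 + m : ℕ) : ℝ) < ((i' + 1 : ℕ) : ℝ) := by
        push_cast
        linarith
      exact_mod_cast c2
    have c2 := QQ_zero_app m i' c1
    have c3 : (i' : ℂ) + 3 / 2 = (((i' : ℝ) + 3 / 2 : ℝ) : ℂ) := by
      push_cast
      rfl
    rw [c3, ← hE _ wm] at c2
    refine ⟨?_, c2, (hB _ wm).trans ?_⟩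
    · have c4 := (hlt _ wm).resolve_right (by simp)
      have c5 := norm_sub_norm_le (QQ 0 i' : ℂ) (exp (G ((i' : ℝ) + 3 / 2 : ℝ)))
      rw [hn] at c4
      rw [norm_real, Real.norm_eq_abs] at c5
      have c6 := le_abs_self (QQ 0 i')
      have c7 : (1 / 2 : ℝ) ^ m ≤ 1 / (i' + 3 / 2) ^ 4 := by
        rw [le_div_iff₀ (by positivity)]
        nlinarith
      have c8 : 0 < 1 / ((i' : ℝ) + 3 / 2) ^ 4 := by positivity
      have c9 : 2 / ((i' : ℝ) + 3 / 2) ^ 4 = 2 * (1 / ((i' : ℝ) + 3 / 2) ^ 4) := by ring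
      have c10 := norm_nonneg (exp (G ((i' : ℝ) + 3 / 2 : ℝ)))
      nlinarith
    · rw [hn]
      refine mul_le_mul_of_nonneg_right ?_ (norm_nonneg _)
      have : (0 : ℝ) ≤ 2 ^ (2 * (27 + d)) := by positivity
      linarith
  refine ⟨fun i' b1 b2 => (key i' b1 b2).1, fun hk1 => ?_⟩
  obtain ⟨D, hD1, hD2⟩ := sched_zero.2
  have t0 := th_facts 0
  have hal : al 1 = 4 := by norm_num [al]
  obtain ⟨d1, d2, d3⟩ := assemble (κ := 4) (c := -3) (R' := th 1 * x) (μ := 38) (D := D)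
    (by have := t0.1; positivity) (by norm_num) dG dL hid (by norm_num) hL
    (by have := t0.2.1; gcongr) (sched_a 0 a1 (by norm_num [al]; nlinarith)).2 (by
      calc 101 / 100 * (th 1 * x) ^ 4 = 101 / 100 * th 1 ^ 4 * x ^ 4 := by ring
        _ ≤ D * ((th 1 - th 0) ^ 2 * th 0 ^ 2) * x ^ 4 := by gcongr
        _ = _ := by ring)
  refine ⟨nextG 4 G L, d1, fun z hz => ?_, fun i' b1 b2 => ?_⟩
  · have e : nextG 4 G L z - al 1 / z ^ 2 = (nextG 4 G L z - 2 * G z - (4 : ℕ) / z ^ 2) + 2 * G z := by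
      rw [hal]
      push_cast
      ring
    have f1 := hG z (U_mono (by have := t0.2.1; gcongr) hz)
    rw [e]
    refine (norm_add_le _ _).trans ?_
    rw [norm_mul, Complex.norm_two]
    calc _ ≤ ((4 : ℕ) + 2 * D * 38) / ‖z‖ ^ 4 + 2 * (4 / ‖z‖ ^ 4) := by
          gcongr
          exact d3 z hz
      _ = (8 + (4 + 2 * D * 38)) / ‖z‖ ^ 4 := by
          push_cast
          ring
      _ ≤ _ := by gcongr
  · obtain ⟨p0, q0, r0⟩ := key i' b1 (by omega)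
    obtain ⟨p1, q1, r1⟩ := key (i' + 1) (by omega) (by omega)
    obtain ⟨p2, q2, r2⟩ := key (i' + 2) (by omega) (by omega)
    have wm := window_mem hx h1 hk hk1 b1 b2 1
    have hid' := d2 _ wm
    have z0 : (((i' : ℝ) + (1 : ℕ) + 3 / 2 : ℝ) : ℂ) - 1 = (((i' : ℝ) + 3 / 2 : ℝ) : ℂ) := by
      push_cast
      ring
    have z1 : (((i' : ℝ) + (1 : ℕ) + 3 / 2 : ℝ) : ℂ) = ((((i' + 1 : ℕ) : ℝ) + 3 / 2 : ℝ) : ℂ) := by
      push_cast
      ring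
    have z2 : (((i' : ℝ) + (1 : ℕ) + 3 / 2 : ℝ) : ℂ) + 1 = ((((i' + 2 : ℕ) : ℝ) + 3 / 2 : ℝ) : ℂ) := by
      push_cast
      ring
    rw [z0, z2] at hid'
    nth_rewrite 2 3 [z1] at hid'
    have hP : (1 : ℝ) ≤ 2 ^ (2 * (27 + d) - 1) := one_le_pow₀ (by norm_num)
    have hP2 : (2 : ℝ) ^ (2 * (27 + d)) = 2 * 2 ^ (2 * (27 + d) - 1) := by
      rw [← pow_succ']
      congr 1
      omega
    refine ⟨?_, ?_⟩
    · have : 0 < QQ 0 (i' + 1) := div_pos (rr_pos _) (rr_pos _)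
      rw [QQ, mul_assoc]
      exact div_pos (mul_pos (pow_pos this 2) (mul_pos_of_neg_of_neg (by linarith) (by linarith)))
        (pow_two_pos_of_ne_zero (by linarith))
    · have := transfer (B := 4 / 7 * 2 ^ (2 * (27 + d))) (by linarith) hem0.le
        (by rw [mul_assoc, hem]; linarith) hid' (exp_ne_zero _) (exp_ne_zero _) (exp_ne_zero _)
        r0 r1 r2 q0 q1 q2
      rw [QQ]
      refine this.trans (le_of_eq ?_)
      rw [show 27 + d - 1 = 26 + d by omega]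
      congr 1
      linear_combination 4 * hem

include hx h1 h2 hk in
theorem inv_lower {j : ℕ} (hj : j ≤ k) (hal : al j ≤ 26 / 10 * x ^ 2) {G : ℂ → ℂ}
    (hG : ∀ z ∈ U (th j * x), ‖G z - al j / z ^ 2‖ ≤ al j * bb j / ‖z‖ ^ 4) {i' : ℕ}
    (a : i ≤ i') (b : i' ≤ i + 2 * (k - j)) (hq : 0 < QQ j i')
    (h : ‖QQ j i' - exp (G ((i' : ℝ) + j + 3 / 2 : ℝ))‖ ≤
        (1 / 2) ^ FF (27 + d - j) * ‖exp (G ((i' : ℝ) + j + 3 / 2 : ℝ))‖) (hj1 : 1 ≤ j) :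
    1 < QQ j i' ∧ (5 / 4 * ((i' : ℝ) + j + 3 / 2) ^ 2 ≤ al j → 3 ≤ QQ j i') := by
  have a1 := (x_facts hx h1).1
  have wm := window_mem hx h1 hk hj a b j
  have w := window hx h1 hk hj a b
  have c1 := norm_G_le (by linarith [al_pos j]) (by have := (th_facts j).1; positivity) wm
    (sched_b j a1 hal) (hG _ wm)
  have c2 := lower c1 hq ((half_pow_FF _).trans (by norm_num)) h
  refine ⟨gt_one (by positivity) (al_ge hj1) ?_ c2, fun h3 => ge_three (half_pow_FF _) ?_ c2⟩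
  · rw [show j + (27 + d - j) = 27 + d by omega]
    have : ((i' : ℝ) + j + 3 / 2) ^ 2 ≤ (101 / 100 * x) ^ 2 := by
      gcongr
      exact w.2
    nlinarith
  · rw [le_div_iff₀ (by positivity)]
    exact h3

include hx h1 h2 hk in
theorem inv_step {j : ℕ} (hj1 : 1 ≤ j) (hj : j + 1 ≤ k) (hal : al j ≤ 126 / 100 * x ^ 2)
    (h : Inv k i d x j) : Inv k i d x (j + 1) := by
  obtain ⟨G, dG, hG, hw⟩ := h
  have a1 := (x_facts hx h1).1
  have hal' : al j ≤ 26 / 10 * x ^ 2 := by nlinarith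
  have t0 := th_facts j
  have hR : 0 < th j * x := by have := t0.1; positivity
  have hα : 0 < al j := by linarith [al_pos j]
  obtain ⟨dL, hid, hL, hB⟩ := sinh_step hα hR (sched_b j a1 hal') (sched_a j a1 hal).1 dG hG
  obtain ⟨D, hD1, hD2⟩ := sched_step hj1
  obtain ⟨d1, d2, d3⟩ := assemble (κ := 2) (c := al j) (R' := th (j + 1) * x) (D := D)
    hR (ofReal_ne_zero.2 hα.ne') dG dL hid (by have := t0.2.2.2; positivity) hL
    (by have := t0.2.1; gcongr) (sched_a j a1 hal).2 (by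
      calc 101 / 100 * (th (j + 1) * x) ^ 4 = 101 / 100 * th (j + 1) ^ 4 * x ^ 4 := by ring
        _ ≤ D * ((th (j + 1) - th j) ^ 2 * th j ^ 2) * x ^ 4 := by gcongr
        _ = _ := by ring)
  obtain ⟨s, hs⟩ : ∃ s, 27 + d = j + 1 + s := Nat.exists_eq_add_of_le (hj.trans hk)
  have hem : 7 * (32 / 7 * (2 : ℝ) ^ s) * (1 / 2) ^ FF (27 + d - j) = (1 / 2) ^ FF (27 + d - (j + 1)) := by
    rw [show 27 + d - j = s + 1 by omega, show 27 + d - (j + 1) = s by omega, FF, pow_add, pow_add]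
    have : (2 : ℝ) ^ s * (1 / 2) ^ s = 1 := by
      rw [← mul_pow]
      norm_num
    linear_combination (1 / 2) ^ FF s * this
  have key : ∀ i', i ≤ i' → i' ≤ i + 2 * (k - j) → 1 < QQ j i' ∧
      ‖QQ j i' - exp (G ((i' : ℝ) + j + 3 / 2 : ℝ))‖ ≤
        (1 / 2) ^ FF (27 + d - j) * ‖exp (G ((i' : ℝ) + j + 3 / 2 : ℝ))‖ ∧
      ‖exp (G ((i' : ℝ) + j + 3 / 2 : ℝ))‖ ≤ 32 / 7 * 2 ^ s *
        ‖exp (G ((i' : ℝ) + j + 3 / 2 : ℝ)) - 1‖ := by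
    intro i' b1 b2
    obtain ⟨c1, c2⟩ := hw i' b1 b2
    have wm := window_mem hx h1 hk (by omega : j ≤ k) b1 b2 j
    have w := window hx h1 hk (by omega : j ≤ k) b1 b2
    refine ⟨(inv_lower hx h1 h2 hk (by omega) hal' hG b1 b2 c1 c2 hj1).1, c2, (hB _ wm).trans ?_⟩
    gcongr
    rw [norm_real, Real.norm_of_nonneg (by positivity), div_le_iff₀ hα]
    have c3 : ((i' : ℝ) + j + 3 / 2) ^ 2 ≤ (101 / 100 * x) ^ 2 := by
      gcongr
      exact w.2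
    have c4 := al_ge hj1
    have c5 : (2 : ℝ) ^ (27 + d) = 2 ^ s * (2 * 2 ^ j) := by
      rw [hs]
      ring
    have c6 : (2 : ℝ) ^ s * (2 * 2 ^ j) ≤ 2 ^ s * al j := by gcongr
    nlinarith
  refine ⟨nextG 2 G (logS (al j) G), d1, fun z hz => ?_, fun i' b1 b2 => ?_⟩
  · have e : nextG 2 G (logS (al j) G) z - al (j + 1) / z ^ 2 =
        (nextG 2 G (logS (al j) G) z - 2 * G z - (2 : ℕ) / z ^ 2) + 2 * (G z - al j / z ^ 2) := by
      rw [al_succ]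
      push_cast
      ring
    have f1 := hG z (U_mono (by have := t0.2.1; gcongr) hz)
    rw [e]
    refine (norm_add_le _ _).trans ?_
    rw [norm_mul, Complex.norm_two]
    calc _ ≤ ((2 : ℕ) + 2 * D * (71 / 100 * al j + 5 / 4 * bb j)) / ‖z‖ ^ 4 +
          2 * (al j * bb j / ‖z‖ ^ 4) := by
          gcongr
          exact d3 z hz
      _ = (2 * (al j * bb j) + (2 + 2 * D * (71 / 100 * al j + 5 / 4 * bb j))) / ‖z‖ ^ 4 := by
          push_cast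
          ring
      _ ≤ _ := by gcongr
  · obtain ⟨p0, q0, r0⟩ := key i' b1 (by omega)
    obtain ⟨p1, q1, r1⟩ := key (i' + 1) (by omega) (by omega)
    obtain ⟨p2, q2, r2⟩ := key (i' + 2) (by omega) (by omega)
    have wm := window_mem hx h1 hk hj b1 b2 (j + 1)
    have hid' := d2 _ wm
    have z0 : (((i' : ℝ) + (j + 1 : ℕ) + 3 / 2 : ℝ) : ℂ) - 1 = (((i' : ℝ) + j + 3 / 2 : ℝ) : ℂ) := by
      push_cast
      ring
    have z1 : (((i' : ℝ) + (j + 1 : ℕ) + 3 / 2 : ℝ) : ℂ) =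
        ((((i' + 1 : ℕ) : ℝ) + j + 3 / 2 : ℝ) : ℂ) := by
      push_cast
      ring
    have z2 : (((i' : ℝ) + (j + 1 : ℕ) + 3 / 2 : ℝ) : ℂ) + 1 =
        ((((i' + 2 : ℕ) : ℝ) + j + 3 / 2 : ℝ) : ℂ) := by
      push_cast
      ring
    rw [z0, z2] at hid'
    nth_rewrite 2 3 [z1] at hid'
    have hP : (1 : ℝ) ≤ 2 ^ s := one_le_pow₀ (by norm_num)
    have hF := half_pow_FF (27 + d - (j + 1))
    refine ⟨?_, ?_⟩
    · rw [QQ, mul_assoc]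
      exact div_pos (mul_pos (pow_pos (by linarith) 2) (mul_pos (by linarith) (by linarith)))
        (pow_pos (by linarith) 2)
    · have := transfer (B := 32 / 7 * 2 ^ s) (by linarith) (by positivity)
        (by linarith) hid' (exp_ne_zero _) (exp_ne_zero _) (exp_ne_zero _)
        r0 r1 r2 q0 q1 q2
      rw [QQ]
      exact this.trans (le_of_eq (by rw [hem]))

end main

theorem exists_d {x : ℝ} (hx : 8192 ≤ x) : ∃ d : ℕ, 2 ^ (26 + d) ≤ x ^ 2 ∧ x ^ 2 < 2 ^ (27 + d) := by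
  have h : (2 : ℝ) ^ 26 ≤ x ^ 2 := by nlinarith
  obtain ⟨n, h1, h2⟩ := exists_nat_pow_near (x := x ^ 2) (y := 2) (by linarith) (by norm_num)
  have : 26 < n + 1 := (pow_lt_pow_iff_right₀ (a := (2 : ℝ)) (by norm_num)).1 (h.trans_lt h2)
  obtain ⟨d, rfl⟩ : ∃ d, n = 26 + d := Nat.exists_eq_add_of_le (by omega)
  exact ⟨d, h1, by rwa [show 27 + d = 26 + d + 1 by omega]⟩

theorem analytic_zero {i : ℕ} (hi : 8191 ≤ i) : QQ 0 i < 1 := by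
  have : (8191 : ℝ) ≤ i := by
    have := (Nat.cast_le (α := ℝ)).2 hi
    simpa using this
  obtain ⟨d, h1, h2⟩ := exists_d (x := i + (0 : ℕ) + 3 / 2) (by push_cast; linarith)
  exact (level0 rfl h1 h2 (Nat.zero_le _)).1 i le_rfl le_rfl

theorem analytic_succ {k i : ℕ} (hi : 8191 ≤ i + (k + 1))
    (hal : al k < 5 / 4 * ((i : ℝ) + (k + 1 : ℕ) + 3 / 2 + 1) ^ 2) :
    1 < QQ (k + 1) i ∧ (5 / 4 * ((i : ℝ) + (k + 1 : ℕ) + 3 / 2) ^ 2 ≤ al (k + 1) → 3 ≤ QQ (k + 1) i) := by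
  have hi' : (8191 : ℝ) ≤ i + (k + 1 : ℕ) := by exact_mod_cast hi
  clear hi
  obtain ⟨x, hx⟩ : ∃ x : ℝ, x = i + (k + 1 : ℕ) + 3 / 2 := ⟨_, rfl⟩
  have hx1 : 8192 ≤ x := by linarith
  rw [← hx] at hal
  obtain ⟨d, h1, h2⟩ := exists_d hx1
  have hal2 : al k ≤ 126 / 100 * x ^ 2 := by nlinarith
  have hk : k + 1 ≤ 27 + d := by
    rcases Nat.eq_zero_or_pos k with rfl | hk0
    · omega
    · have c1 := al_ge hk0
      have c2 : (2 : ℝ) ^ k < 2 ^ (27 + d) := by nlinarith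
      exact (pow_lt_pow_iff_right₀ (a := (2 : ℝ)) (by norm_num)).1 c2
  have inv : ∀ j, j ≤ k → Inv (k + 1) i d x (j + 1) := by
    intro j
    induction j with
    | zero => exact fun _ => (level0 hx h1 h2 hk).2 (by omega)
    | succ j ih =>
      exact fun hj => inv_step hx h1 h2 hk (by omega) (by omega) ((al_mono hj).trans hal2)
        (ih (by omega))
  obtain ⟨G, -, hG, hw⟩ := inv k le_rfl
  obtain ⟨c1, c2⟩ := hw i le_rfl (by omega)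
  exact inv_lower hx h1 h2 hk le_rfl (by rw [al_succ]; nlinarith) hG le_rfl (by omega) c1 c2
    (by omega)

end Pool.Agent.P.MP_e3a7ef_co
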