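import Pool.Agent.P.MP_e3a7ef_co.Step

namespace Pool.Agent.P.MP_e3a7ef_co

open Complex Metric Set

theorem horner_bound (l : List ℝ) (u : ℂ) (t : ℝ) (h : ‖u‖ ≤ t) :
    ‖l.foldr (fun (c : ℝ) (acc : ℂ) => (c : ℂ) + u * acc) 0‖ ≤
      l.foldr (fun c acc => |c| + t * acc) 0 := by
  induction l with
  | nil => simp
  | cons c l ih =>
    simp only [List.foldr_cons]
    refine (norm_add_le _ _).trans (add_le_add (by simp) ?_)
    rw [norm_mul]
    exact mul_le_mul h ih (norm_nonneg _) ((norm_nonneg _).trans h)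

/-- The Riccati map of the ratio recurrence. -/
noncomputable def ric (y r : ℂ) : ℂ :=
  (3 * y ^ 2 + 5 * y + 1) / (2 * (y + 1) ^ 2) - (y - 1) / (2 * y) / r

/-- Truncated asymptotic expansion of the ratio. -/
noncomputable def rho (y : ℂ) : ℂ := 1 + 1 / y ^ 3 + 6 / y ^ 5

/-- Analytic approximants of the ratio. -/
noncomputable def app : ℕ → ℂ → ℂ
  | 0, y => rho y
  | m + 1, y => ric y (app m (y - 1))

theorem norm_one_add_ge {w : ℂ} {s : ℝ} (h : ‖w‖ ≤ s) : 1 - s ≤ ‖1 + w‖ := by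
  have := norm_sub_norm_le (1 : ℂ) (-w)
  simp only [norm_one, norm_neg, sub_neg_eq_add] at this
  linarith

theorem ne_zero_of_norm {w : ℂ} {s : ℝ} (hs : 0 < s) (h : s ≤ ‖w‖) : w ≠ 0 :=
  norm_pos_iff.1 (lt_of_lt_of_le hs h)

theorem defect_bound {y : ℂ} (hy : 100 < ‖y‖) :
    ‖ric y (rho (y - 1)) - rho y‖ ≤ 12 / ‖y‖ ^ 6 := by
  have hy0 : y ≠ 0 := ne_zero_of_norm (by norm_num) hy.le
  obtain ⟨u, rfl⟩ : ∃ u : ℂ, y = u⁻¹ := ⟨y⁻¹, (inv_inv y).symm⟩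
  have hu0 : u ≠ 0 := fun h => hy0 (by simp [h])
  have hup : 0 < ‖u‖ := norm_pos_iff.2 hu0
  have hu : ‖u‖ ≤ 1 / 100 := by
    rw [norm_inv, lt_inv_comm₀ (by norm_num) hup] at hy
    linarith
  have n1 : 1 + u ≠ 0 := ne_zero_of_norm (by norm_num) (norm_one_add_ge hu)
  have n2 : 1 - u ≠ 0 := by
    rw [sub_eq_add_neg]
    exact ne_zero_of_norm (by norm_num) (norm_one_add_ge (s := 1 / 100) (by simpa using hu))
  have hN := horner_bound [23, -4, -79, 30, -48, -180, -72] u _ hu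
  have hP := horner_bound [-3, 1, 6, -5, 3, 15, 6] u _ hu
  simp only [List.foldr_cons, List.foldr_nil] at hN hP
  norm_num at hN hP
  set N : ℂ := 23 + u * (-4 + u * (-79 + u * (30 + u * (-48 + u * (-180 + -(u * 72)))))) with hNd
  set P : ℂ := -3 + u * (1 + u * (6 + u * (-5 + u * (3 + u * (15 + u * 6))))) with hPd
  have hD : 97 / 100 - 2 / 10000 ≤ ‖1 + u * P‖ := by
    refine le_trans ?_ (norm_one_add_ge (s := 1 / 100 * (302 / 100)) ?_)
    · norm_num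
    · rw [norm_mul]
      gcongr
      linarith
  have n3 : 1 + u * P ≠ 0 := ne_zero_of_norm (by norm_num) hD
  have eD : 1 + u * P = (1 + u) ^ 2 * ((1 - u) ^ 5 + u ^ 3 * (1 - u) ^ 2 + 6 * u ^ 5) := by
    rw [hPd]
    ring
  have n4 : (1 - u) ^ 5 + u ^ 3 * (1 - u) ^ 2 + 6 * u ^ 5 ≠ 0 := fun h => n3 (by rw [eD, h, mul_zero])
  have e1 : rho (u⁻¹ - 1) = ((1 - u) ^ 5 + u ^ 3 * (1 - u) ^ 2 + 6 * u ^ 5) / (1 - u) ^ 5 := by
    have : u⁻¹ - 1 = (1 - u) / u := by field_simp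
    rw [rho, this]
    field_simp
  have e2 : ric u⁻¹ (rho (u⁻¹ - 1)) - rho u⁻¹ = u ^ 6 * N / (2 * (1 + u * P)) := by
    rw [e1, eD, hNd, ric, rho]
    have : u⁻¹ + 1 = (1 + u) / u := by field_simp
    rw [this]
    generalize hDn : (1 - u) ^ 5 + u ^ 3 * (1 - u) ^ 2 + 6 * u ^ 5 = Dn at n4 ⊢
    field_simp
    rw [← hDn]
    ring
  rw [e2, norm_div, norm_mul, norm_mul, norm_pow, norm_inv, inv_pow, div_inv_eq_mul,
    Complex.norm_two, div_le_iff₀ (by linarith)]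
  have : 0 ≤ ‖u‖ ^ 6 := by positivity
  nlinarith

theorem rho_bound {y : ℂ} (hy : 100 < ‖y‖) : ‖rho y - 1‖ ≤ 101 / 100 / ‖y‖ ^ 3 := by
  have e : rho y - 1 = 1 / y ^ 3 + 6 / y ^ 5 := by
    rw [rho]
    ring
  rw [e]
  refine (norm_add_le _ _).trans ?_
  rw [norm_div, norm_div, norm_pow, norm_pow, norm_one, Complex.norm_ofNat]
  have hp : 0 < ‖y‖ := by linarith
  have h2 : 10000 ≤ ‖y‖ ^ 2 := by nlinarith
  have : 6 / ‖y‖ ^ 5 ≤ 1 / 100 / ‖y‖ ^ 3 := by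
    rw [div_le_div_iff₀ (by positivity) (by positivity)]
    have : ‖y‖ ^ 5 = ‖y‖ ^ 2 * ‖y‖ ^ 3 := by ring
    have h3 : 0 < ‖y‖ ^ 3 := by positivity
    nlinarith
  have e2 : 101 / 100 / ‖y‖ ^ 3 = 1 / ‖y‖ ^ 3 + 1 / 100 / ‖y‖ ^ 3 := by ring
  linarith

theorem near_one {y r : ℂ} (hy : 100 < ‖y‖) (h : ‖r - rho y‖ ≤ 27 / ‖y‖ ^ 6) :
    ‖r - 1‖ ≤ 2 / ‖y‖ ^ 3 := by
  have h1 := rho_bound hy
  have hp : 0 < ‖y‖ := by linarith
  have h3 : 1000000 ≤ ‖y‖ ^ 3 := by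
    calc (1000000 : ℝ) = 100 ^ 3 := by norm_num
      _ ≤ _ := by gcongr
  have h2 : 27 / ‖y‖ ^ 6 ≤ 1 / 100 / ‖y‖ ^ 3 := by
    rw [div_le_div_iff₀ (by positivity) (by positivity)]
    have : ‖y‖ ^ 6 = ‖y‖ ^ 3 * ‖y‖ ^ 3 := by ring
    nlinarith
  have e : r - 1 = (r - rho y) + (rho y - 1) := by ring
  have e2 : 2 / ‖y‖ ^ 3 = 101 / 100 / ‖y‖ ^ 3 + 1 / 100 / ‖y‖ ^ 3 + 98 / 100 / ‖y‖ ^ 3 := by ring
  have : 0 ≤ 98 / 100 / ‖y‖ ^ 3 := by positivity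
  rw [e]
  linarith [norm_add_le (r - rho y) (rho y - 1)]

theorem small_cube {y : ℂ} (hy : 100 < ‖y‖) : 2 / ‖y‖ ^ 3 ≤ 1 / 1000 := by
  have h3 : 1000000 ≤ ‖y‖ ^ 3 := by
    calc (1000000 : ℝ) = 100 ^ 3 := by norm_num
      _ ≤ _ := by gcongr
  rw [div_le_iff₀ (by linarith)]
  linarith

theorem norm_ge_of_near {r : ℂ} {s : ℝ} (h : ‖r - 1‖ ≤ s) : 1 - s ≤ ‖r‖ := by
  simpa using norm_one_add_ge h

theorem app_bound (m : ℕ) : ∀ y : ℂ, 100 + m < ‖y‖ → ‖app m y - rho y‖ ≤ 27 / ‖y‖ ^ 6 := by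
  induction m with
  | zero =>
    intro y _
    simp only [app, sub_self, norm_zero]
    positivity
  | succ m ih =>
    intro y hy
    push_cast at hy
    have hm : (0 : ℝ) ≤ m := Nat.cast_nonneg m
    have h0 : ‖y‖ - 1 ≤ ‖y - 1‖ := by simpa using norm_sub_norm_le y 1
    have h1 := ih (y - 1) (by linarith)
    have hy1 : 100 < ‖y - 1‖ := by linarith
    have hy0 : 100 < ‖y‖ := by linarith
    have h2 := norm_ge_of_near ((near_one hy1 h1).trans (small_cube hy1))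
    have h3 := norm_ge_of_near ((near_one (r := rho (y - 1)) hy1
      (by simp only [sub_self, norm_zero]; positivity)).trans (small_cube hy1))
    have n1 := ne_zero_of_norm (by norm_num) h2
    have n2 := ne_zero_of_norm (by norm_num) h3
    have n0 : y ≠ 0 := ne_zero_of_norm (by norm_num) hy0.le
    have e : app (m + 1) y - rho y = (y - 1) / (2 * y) * (app m (y - 1) - rho (y - 1)) /
        (app m (y - 1) * rho (y - 1)) + (ric y (rho (y - 1)) - rho y) := by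
      simp only [app, ric]
      field_simp
      ring
    rw [e]
    refine (norm_add_le _ _).trans ?_
    have h4 := defect_bound hy0
    have h5 : ‖(y - 1) / (2 * y)‖ ≤ 505 / 1000 := by
      rw [norm_div, norm_mul, Complex.norm_two, div_le_iff₀ (by linarith)]
      have : ‖y - 1‖ ≤ ‖y‖ + 1 := by simpa using norm_sub_le y 1
      linarith
    have h6 : 27 / ‖y - 1‖ ^ 6 ≤ 2867 / 100 / ‖y‖ ^ 6 := by
      have : 100 / 101 * ‖y‖ ≤ ‖y - 1‖ := by linarith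
      calc 27 / ‖y - 1‖ ^ 6 ≤ 27 / (100 / 101 * ‖y‖) ^ 6 := by gcongr
        _ = 27 * (101 / 100) ^ 6 / ‖y‖ ^ 6 := by field_simp
        _ ≤ _ := by
          gcongr
          norm_num
    have h7 : ‖(y - 1) / (2 * y) * (app m (y - 1) - rho (y - 1)) /
        (app m (y - 1) * rho (y - 1))‖ ≤ 15 / ‖y‖ ^ 6 := by
      rw [norm_div, norm_mul, norm_mul]
      calc _ ≤ 505 / 1000 * (2867 / 100 / ‖y‖ ^ 6) / ((1 - 1 / 1000) * (1 - 1 / 1000)) := by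
            gcongr
            exact h1.trans h6
        _ = 505 / 1000 * (2867 / 100) / ((1 - 1 / 1000) * (1 - 1 / 1000)) / ‖y‖ ^ 6 := by ring
        _ ≤ _ := by
          gcongr
          norm_num
    have e2 : 27 / ‖y‖ ^ 6 = 15 / ‖y‖ ^ 6 + 12 / ‖y‖ ^ 6 := by ring
    linarith

theorem app_near (m : ℕ) {y : ℂ} (hy : 100 + m < ‖y‖) : ‖app m y - 1‖ ≤ 2 / ‖y‖ ^ 3 := by
  have hm : (0 : ℝ) ≤ m := Nat.cast_nonneg m
  exact near_one (by linarith) (app_bound m y hy)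

theorem app_ge (m : ℕ) {y : ℂ} (hy : 100 + m < ‖y‖) : 999 / 1000 ≤ ‖app m y‖ := by
  have hm : (0 : ℝ) ≤ m := Nat.cast_nonneg m
  have := norm_ge_of_near ((app_near m hy).trans (small_cube (by linarith)))
  linarith

theorem app_diff (m : ℕ) : DifferentiableOn ℂ (app m) (U (100 + m)) := by
  have hne : ∀ (R : ℝ), 0 ≤ R → ∀ z ∈ U R, z ≠ 0 := fun R hR z hz =>
    norm_pos_iff.1 (lt_of_le_of_lt hR hz)
  induction m with
  | zero =>
    have : app 0 = fun y => 1 + 1 / y ^ 3 + 6 / y ^ 5 := by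
      funext y
      simp [app, rho]
    rw [this]
    have h := hne (100 + (0 : ℕ)) (by norm_num)
    exact ((differentiableOn_const _).add ((differentiableOn_const _).div
      (differentiableOn_id.pow 3) fun z hz => pow_ne_zero _ (h z hz))).add
      ((differentiableOn_const _).div (differentiableOn_id.pow 5) fun z hz => pow_ne_zero _ (h z hz))
  | succ m ih =>
    have hm : (0 : ℝ) ≤ m := Nat.cast_nonneg m
    have : app (m + 1) = fun y => (3 * y ^ 2 + 5 * y + 1) / (2 * (y + 1) ^ 2) -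
        (y - 1) / (2 * y) / app m (y - 1) := by
      funext y
      simp [app, ric]
    rw [this]
    have hmem : ∀ z ∈ U (100 + (m + 1 : ℕ)), z - 1 ∈ U (100 + m) := fun z hz => by
      rw [sub_eq_add_neg]
      exact mem_U_add hz (by simp; linarith)
    have h1 : ∀ z ∈ U (100 + (m + 1 : ℕ)), z + 1 ≠ 0 := fun z hz =>
      hne 0 le_rfl _ (mem_U_add hz (by simp; linarith))
    have h0 := hne (100 + (m + 1 : ℕ)) (by positivity)
    have d : DifferentiableOn ℂ (fun y => app m (y - 1)) (U (100 + (m + 1 : ℕ))) :=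
      ih.comp (differentiableOn_id.sub_const 1) hmem
    refine DifferentiableOn.sub (DifferentiableOn.div (by fun_prop) (by fun_prop) fun z hz => ?_)
      (DifferentiableOn.div (DifferentiableOn.div (by fun_prop) (by fun_prop) fun z hz => ?_) d
        fun z hz => ?_)
    · exact mul_ne_zero two_ne_zero (pow_ne_zero _ (h1 z hz))
    · exact mul_ne_zero two_ne_zero (h0 z hz)
    · exact ne_zero_of_norm (by norm_num) (app_ge m (hmem z hz))

theorem rho_diff_bound {z : ℂ} (hz : 100 < ‖z‖) :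
    ‖rho (z + 1 / 2) - rho (z - 1 / 2) + 3 / z ^ 4‖ ≤ 33 / ‖z‖ ^ 6 := by
  have hz0 : z ≠ 0 := ne_zero_of_norm (by norm_num) hz.le
  obtain ⟨u, rfl⟩ : ∃ u : ℂ, z = u⁻¹ := ⟨z⁻¹, (inv_inv z).symm⟩
  have hu0 : u ≠ 0 := fun h => hz0 (by simp [h])
  have hup : 0 < ‖u‖ := norm_pos_iff.2 hu0
  have hu : ‖u‖ ≤ 1 / 100 := by
    rw [norm_inv, lt_inv_comm₀ (by norm_num) hup] at hz
    linarith
  have hD : 1 - 1 / 10000 ≤ ‖1 + -(u ^ 2 / 4)‖ := by
    refine norm_one_add_ge ?_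
    rw [norm_neg, norm_div, norm_pow, Complex.norm_ofNat]
    nlinarith
  have n3 : 1 + -(u ^ 2 / 4) ≠ 0 := ne_zero_of_norm (by norm_num) hD
  have eD : 1 + -(u ^ 2 / 4) = (2 + u) * (2 - u) / 4 := by ring
  have n1 : 2 + u ≠ 0 := fun h => n3 (by rw [eD, h]; simp)
  have n2 : 2 - u ≠ 0 := fun h => n3 (by rw [eD, h]; simp)
  have hM := horner_bound [-33280, 0, -13504, 0, -880, 0, 60, 0, -3] u _ hu
  simp only [List.foldr_cons, List.foldr_nil] at hM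
  push_cast at hM
  set M : ℂ := -33280 + u * (0 + u * (-13504 + u * (0 + u * (-880 + u * (0 + u * (60 +
    u * (0 + u * (-3 + u * 0)))))))) with hMd
  have hM' : ‖M‖ ≤ 33300 := hM.trans (by norm_num)
  have e2 : rho (u⁻¹ + 1 / 2) - rho (u⁻¹ - 1 / 2) + 3 / u⁻¹ ^ 4 =
      u ^ 6 * M / (1024 * (1 + -(u ^ 2 / 4)) ^ 5) := by
    have a1 : u⁻¹ + 1 / 2 = (2 + u) / (2 * u) := by field_simp
    have a2 : u⁻¹ - 1 / 2 = (2 - u) / (2 * u) := by field_simp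
    rw [eD, hMd, rho, rho, a1, a2]
    field_simp
    ring
  have h5 : 99 / 100 ≤ ‖1 + -(u ^ 2 / 4)‖ ^ 5 := by
    calc (99 / 100 : ℝ) ≤ (1 - 1 / 10000) ^ 5 := by norm_num
      _ ≤ _ := by gcongr
  rw [e2, norm_div, norm_mul, norm_mul, norm_pow, norm_pow, norm_inv, inv_pow, div_inv_eq_mul,
    Complex.norm_ofNat, div_le_iff₀ (by linarith)]
  have : 0 ≤ ‖u‖ ^ 6 := by positivity
  nlinarith

/-- The analytic approximant of the level zero ratio. -/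
noncomputable def P0 (m : ℕ) (z : ℂ) : ℂ := app m (z + 1 / 2) / app m (z - 1 / 2)

theorem xi_bound (m : ℕ) {z : ℂ} (hz : 101 + m < ‖z‖) :
    ‖-(z ^ 4 * (P0 m z - 1) / 3) - 1‖ ≤ 30 / ‖z‖ ^ 2 := by
  have hm : (0 : ℝ) ≤ m := Nat.cast_nonneg m
  have hp : ‖z‖ - 1 / 2 ≤ ‖z + 1 / 2‖ := by
    simpa using norm_sub_norm_le z (-(1 / 2))
  have hn : ‖z‖ - 1 / 2 ≤ ‖z - 1 / 2‖ := by
    simpa using norm_sub_norm_le z (1 / 2)
  have hzp : 0 < ‖z‖ := by linarith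
  have h6 : ∀ w : ℂ, ‖z‖ - 1 / 2 ≤ ‖w‖ → 27 / ‖w‖ ^ 6 ≤ 28 / ‖z‖ ^ 6 := by
    intro w hw
    have : 199 / 200 * ‖z‖ ≤ ‖w‖ := by linarith
    calc 27 / ‖w‖ ^ 6 ≤ 27 / (199 / 200 * ‖z‖) ^ 6 := by gcongr
      _ = 27 * (200 / 199) ^ 6 / ‖z‖ ^ 6 := by field_simp
      _ ≤ _ := by
        gcongr
        norm_num
  have a1 := (app_bound m (z + 1 / 2) (by linarith)).trans (h6 _ hp)
  have a2 := (app_bound m (z - 1 / 2) (by linarith)).trans (h6 _ hn)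
  have a3 := rho_diff_bound (z := z) (by linarith)
  have a4 := app_ge m (y := z - 1 / 2) (by linarith)
  have a5 : ‖app m (z - 1 / 2) - 1‖ ≤ 3 / 100 / ‖z‖ ^ 2 := by
    refine (app_near m (y := z - 1 / 2) (by linarith)).trans ?_
    have : 199 / 200 * ‖z‖ ≤ ‖z - 1 / 2‖ := by linarith
    calc 2 / ‖z - 1 / 2‖ ^ 3 ≤ 2 / (199 / 200 * ‖z‖) ^ 3 := by gcongr
      _ = 2 * (200 / 199) ^ 3 / ‖z‖ / ‖z‖ ^ 2 := by field_simp
      _ ≤ _ := by
        refine div_le_div_of_nonneg_right ?_ (by positivity)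
        rw [div_le_iff₀ hzp]
        linarith
  have n1 := ne_zero_of_norm (by norm_num) a4
  have n0 : z ≠ 0 := norm_pos_iff.1 hzp
  have e : -(z ^ 4 * (P0 m z - 1) / 3) - 1 = -((app m (z - 1 / 2) - 1) + z ^ 4 / 3 *
      ((rho (z + 1 / 2) - rho (z - 1 / 2) + 3 / z ^ 4) + ((app m (z + 1 / 2) - rho (z + 1 / 2)) -
        (app m (z - 1 / 2) - rho (z - 1 / 2))))) / app m (z - 1 / 2) := by
    rw [P0]
    generalize app m (z - 1 / 2) = r1 at n1 ⊢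
    generalize app m (z + 1 / 2) = r2
    generalize rho (z - 1 / 2) = r3
    generalize rho (z + 1 / 2) = r4
    field_simp
    ring
  have b1 : ‖(rho (z + 1 / 2) - rho (z - 1 / 2) + 3 / z ^ 4) + ((app m (z + 1 / 2) -
      rho (z + 1 / 2)) - (app m (z - 1 / 2) - rho (z - 1 / 2)))‖ ≤ 89 / ‖z‖ ^ 6 := by
    have e2 : 89 / ‖z‖ ^ 6 = 33 / ‖z‖ ^ 6 + (28 / ‖z‖ ^ 6 + 28 / ‖z‖ ^ 6) := by ring
    rw [e2]
    exact (norm_add_le _ _).trans (add_le_add a3 ((norm_sub_le _ _).trans (add_le_add a1 a2)))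
  rw [e, norm_div, norm_neg, div_le_iff₀ (by linarith)]
  refine (norm_add_le _ _).trans ?_
  rw [norm_mul, norm_div, norm_pow, Complex.norm_ofNat]
  calc _ ≤ 3 / 100 / ‖z‖ ^ 2 + ‖z‖ ^ 4 / 3 * (89 / ‖z‖ ^ 6) := by gcongr
    _ = (3 / 100 + 89 / 3) / ‖z‖ ^ 2 := by field_simp
    _ ≤ 30 * (999 / 1000) / ‖z‖ ^ 2 := by
      gcongr
      norm_num
    _ = 30 / ‖z‖ ^ 2 * (999 / 1000) := by ring
    _ ≤ _ := by gcongr

theorem level_zero (m : ℕ) {R : ℝ} (hR : 101 + m ≤ R) :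
    ∃ G L : ℂ → ℂ, DifferentiableOn ℂ G (U R) ∧ DifferentiableOn ℂ L (U R) ∧
      (∀ z ∈ U R, exp (G z) = P0 m z) ∧
      (∀ z ∈ U R, exp (G z) - 1 = -3 * exp (L z) / z ^ 4) ∧
      (∀ z ∈ U R, ‖L z‖ ≤ 38 / ‖z‖ ^ 2) ∧ (∀ z ∈ U R, ‖G z‖ ≤ 4 / ‖z‖ ^ 4) ∧
      (∀ z ∈ U R, ‖exp (G z)‖ ≤ 2 / 5 * ‖z‖ ^ 4 * ‖exp (G z) - 1‖) ∧
      ∀ z ∈ U R, ‖exp (G z)‖ ≤ 1 - 2 / ‖z‖ ^ 4 ∨ z.im ≠ 0 := by
  have hm : (0 : ℝ) ≤ m := Nat.cast_nonneg m
  have key : ∀ z ∈ U R, 101 < ‖z‖ ∧ ‖-(z ^ 4 * (P0 m z - 1) / 3) - 1‖ ≤ 30 / ‖z‖ ^ 2 ∧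
      30 / ‖z‖ ^ 2 ≤ 1 / 100 ∧ ‖P0 m z - 1‖ ≤ 303 / 100 / ‖z‖ ^ 4 ∧
      303 / 100 / ‖z‖ ^ 4 ≤ 1 / 100 ∧ 297 / 100 / ‖z‖ ^ 4 ≤ ‖P0 m z - 1‖ := by
    intro z hz
    have hz' : R < ‖z‖ := hz
    have h1 := xi_bound m (z := z) (by linarith)
    have hzp : 0 < ‖z‖ := by linarith
    have n0 : z ≠ 0 := norm_pos_iff.1 hzp
    have h2 : 10000 ≤ ‖z‖ ^ 2 := by nlinarith
    have h3 : 30 / ‖z‖ ^ 2 ≤ 1 / 100 := by
      rw [div_le_iff₀ (by positivity)]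
      linarith
    have e : P0 m z - 1 = -3 / z ^ 4 * (1 + (-(z ^ 4 * (P0 m z - 1) / 3) - 1)) := by
      field_simp
      ring
    have e2 : ‖P0 m z - 1‖ = 3 / ‖z‖ ^ 4 * ‖1 + (-(z ^ 4 * (P0 m z - 1) / 3) - 1)‖ := by
      conv_lhs => rw [e]
      rw [norm_mul, norm_div, norm_neg, norm_pow, Complex.norm_ofNat]
    have h4 := norm_one_add_ge (h1.trans h3)
    have h5 := norm_add_le 1 (-(z ^ 4 * (P0 m z - 1) / 3) - 1)
    rw [norm_one] at h5
    have h6 : 0 < 3 / ‖z‖ ^ 4 := by positivity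
    refine ⟨by linarith, h1, h3, ?_, ?_, ?_⟩
    · calc _ = _ := e2
        _ ≤ 3 / ‖z‖ ^ 4 * (101 / 100) := by
          gcongr
          linarith
        _ = _ := by ring
    · rw [div_le_iff₀ (by positivity)]
      nlinarith
    · calc _ = 3 / ‖z‖ ^ 4 * (1 - 1 / 100) := by ring
        _ ≤ _ := by
          rw [e2]
          gcongr
  have dP : DifferentiableOn ℂ (P0 m) (U R) := by
    have m1 : ∀ z ∈ U R, z + 1 / 2 ∈ U (100 + m) := fun z hz => mem_U_add hz (by simp; linarith)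
    have m2 : ∀ z ∈ U R, z - 1 / 2 ∈ U (100 + m) := fun z hz => by
      rw [sub_eq_add_neg]
      exact mem_U_add hz (by simp; linarith)
    exact ((app_diff m).comp (differentiableOn_id.add_const _) m1).div
      ((app_diff m).comp (differentiableOn_id.sub_const _) m2)
      fun z hz => ne_zero_of_norm (by norm_num) (app_ge m (m2 z hz))
  have s1 : ∀ z ∈ U R, 1 + (P0 m z - 1) ∈ slitPlane := fun z hz => by
    obtain ⟨-, -, -, h1, h2, -⟩ := key z hz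
    exact one_add_mem_slitPlane (by linarith)
  have s2 : ∀ z ∈ U R, 1 + (-(z ^ 4 * (P0 m z - 1) / 3) - 1) ∈ slitPlane := fun z hz => by
    obtain ⟨-, h1, h2, -⟩ := key z hz
    exact one_add_mem_slitPlane (by linarith)
  have hE : ∀ z ∈ U R, exp (log (1 + (P0 m z - 1))) = P0 m z := fun z hz => by
    rw [exp_log (slitPlane_ne_zero (s1 z hz)), add_sub_cancel]
  refine ⟨fun z => log (1 + (P0 m z - 1)), fun z => log (1 + (-(z ^ 4 * (P0 m z - 1) / 3) - 1)),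
    DifferentiableOn.clog ((dP.sub_const 1).const_add 1) s1,
    DifferentiableOn.clog (DifferentiableOn.const_add _ (DifferentiableOn.sub_const
      (DifferentiableOn.neg (((differentiableOn_id.pow 4).mul (dP.sub_const 1)).div_const 3)) _))
      s2, hE, fun z hz => ?_, fun z hz => ?_, fun z hz => ?_, fun z hz => ?_, fun z hz => ?_⟩
  · have n0 : z ≠ 0 := ne_zero_of_norm (by norm_num) (key z hz).1.le
    rw [hE z hz, exp_log (slitPlane_ne_zero (s2 z hz))]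
    field_simp
    ring
  · obtain ⟨-, h1, h2, -⟩ := key z hz
    refine (norm_log_one_add_le_54 (by linarith)).trans ?_
    have : 0 ≤ 1 / ‖z‖ ^ 2 := by positivity
    have e1 : 30 / ‖z‖ ^ 2 = 30 * (1 / ‖z‖ ^ 2) := by ring
    have e2 : 38 / ‖z‖ ^ 2 = 38 * (1 / ‖z‖ ^ 2) := by ring
    linarith
  · obtain ⟨-, -, -, h1, h2, -⟩ := key z hz
    refine (norm_log_one_add_le_54 (by linarith)).trans ?_
    have : 0 ≤ 1 / ‖z‖ ^ 4 := by positivity
    have e1 : 303 / 100 / ‖z‖ ^ 4 = 303 / 100 * (1 / ‖z‖ ^ 4) := by ring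
    have e2 : 4 / ‖z‖ ^ 4 = 4 * (1 / ‖z‖ ^ 4) := by ring
    linarith
  · obtain ⟨h0, -, -, h1, h2, h3⟩ := key z hz
    rw [hE z hz]
    have h4 := norm_add_le 1 (P0 m z - 1)
    rw [norm_one, add_sub_cancel] at h4
    calc ‖P0 m z‖ ≤ 2 / 5 * ‖z‖ ^ 4 * (297 / 100 / ‖z‖ ^ 4) := by
          have : 2 / 5 * ‖z‖ ^ 4 * (297 / 100 / ‖z‖ ^ 4) = 2 / 5 * (297 / 100) := by
            field_simp
          linarith
      _ ≤ _ := by gcongr
  · obtain ⟨h0, h1, h2, -⟩ := key z hz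
    by_cases him : z.im = 0
    · left
      have n0 : z ≠ 0 := ne_zero_of_norm (by norm_num) h0.le
      have hz4 : z ^ 4 = ((‖z‖ ^ 4 : ℝ) : ℂ) := by
        have : z = (z.re : ℂ) := by
          apply Complex.ext <;> simp [him]
        rw [this, norm_real, Real.norm_eq_abs, Even.pow_abs (by decide)]
        push_cast
        rfl
      have e : P0 m z = ((1 - 3 / ‖z‖ ^ 4 : ℝ) : ℂ) -
          3 / z ^ 4 * (-(z ^ 4 * (P0 m z - 1) / 3) - 1) := by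
        have : ((1 - 3 / ‖z‖ ^ 4 : ℝ) : ℂ) = 1 - 3 / z ^ 4 := by
          rw [hz4]
          push_cast
          rfl
        rw [this]
        field_simp
        ring
      have h4 : 3 / ‖z‖ ^ 4 ≤ 1 := by
        rw [div_le_iff₀ (by positivity)]
        have : (1 : ℝ) * 3 ≤ ‖z‖ ^ 4 := by
          calc (1 : ℝ) * 3 ≤ 101 ^ 4 := by norm_num
            _ ≤ _ := by gcongr
        linarith
      rw [hE z hz, e]
      refine (norm_sub_le _ _).trans ?_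
      rw [norm_real, Real.norm_of_nonneg (by linarith), norm_mul, norm_div, norm_pow,
        Complex.norm_ofNat]
      have h5 : 0 ≤ 1 / ‖z‖ ^ 4 := by positivity
      have e1 : 3 / ‖z‖ ^ 4 = 3 * (1 / ‖z‖ ^ 4) := by ring
      have e2 : 2 / ‖z‖ ^ 4 = 2 * (1 / ‖z‖ ^ 4) := by ring
      have h6 := h1.trans h2
      rw [e1, e2]
      nlinarith
    · exact Or.inr him

end Pool.Agent.P.MP_e3a7ef_co
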