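import Mathlib

namespace Pool.Agent.P.MP_e3a7ef_co

open Complex Metric Set
open scoped Real

/-- Cauchy estimate for the second difference. -/
theorem second_diff_le {f : ℂ → ℂ} {c : ℂ} {ρ M : ℝ} (hρ : 1 < ρ)
    (hf : DifferentiableOn ℂ f (closedBall c ρ)) (hM : ∀ w ∈ sphere c ρ, ‖f w‖ ≤ M) :
    ‖f (c + 1) + f (c - 1) - 2 * f c‖ ≤ 2 * M / (ρ ^ 2 - 1) := by
  have hρ0 : 0 < ρ := by linarith
  have hd : DiffContOnCl ℂ f (ball c ρ) := by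
    refine DifferentiableOn.diffContOnCl ?_
    rwa [closure_ball c hρ0.ne']
  have hc : ContinuousOn f (sphere c ρ) := hf.continuousOn.mono sphere_subset_closedBall
  have h1 := hd.two_pi_i_inv_smul_circleIntegral_sub_inv_smul (w := c + 1) (by simpa using hρ)
  have h2 := hd.two_pi_i_inv_smul_circleIntegral_sub_inv_smul (w := c - 1) (by simpa using hρ)
  have h3 := hd.two_pi_i_inv_smul_circleIntegral_sub_inv_smul (w := c) (by simpa using hρ0)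
  have hne : ∀ a : ℂ, ‖a‖ ≤ 1 → ∀ w ∈ sphere c ρ, w - (c + a) ≠ 0 := by
    intro a ha w hw h
    have : w - c = a := by linear_combination h
    rw [mem_sphere_iff_norm, this] at hw
    linarith
  have hi : ∀ a : ℂ, ‖a‖ ≤ 1 → CircleIntegrable (fun w => (w - (c + a))⁻¹ • f w) c ρ := by
    intro a ha
    have : ContinuousOn (fun w : ℂ => (w - (c + a))⁻¹) (sphere c ρ) :=
      (continuousOn_id.sub continuousOn_const).inv₀ (hne a ha)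
    exact ContinuousOn.circleIntegrable hρ0.le (this.fun_smul hc)
  have i1 := hi 1 (by simp)
  have i2 := hi (-1) (by simp)
  have i3 := hi 0 (by simp)
  rw [← sub_eq_add_neg] at i2
  rw [add_zero] at i3
  have key : f (c + 1) + f (c - 1) - 2 * f c = (2 * π * I : ℂ)⁻¹ • ∮ w in C(c, ρ),
      (((w - (c + 1))⁻¹ • f w + (w - (c - 1))⁻¹ • f w) -
        ((w - c)⁻¹ • f w + (w - c)⁻¹ • f w)) := by
    have j1 : CircleIntegrable (fun w => (w - (c + 1))⁻¹ • f w + (w - (c - 1))⁻¹ • f w) c ρ :=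
      i1.add i2
    have j2 : CircleIntegrable (fun w => (w - c)⁻¹ • f w + (w - c)⁻¹ • f w) c ρ := i3.add i3
    rw [circleIntegral.integral_sub j1 j2, circleIntegral.integral_add i1 i2,
      circleIntegral.integral_add i3 i3, smul_sub, smul_add, smul_add, h1, h2, h3]
    ring
  rw [key]
  have hpos : 0 < ρ ^ 2 - 1 := by nlinarith
  refine (circleIntegral.norm_two_pi_i_inv_smul_integral_le_of_norm_le_const
    (C := 2 * M / (ρ * (ρ ^ 2 - 1))) hρ0.le fun w hw => ?_).trans (le_of_eq (by field_simp))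
  have e1 := hne 1 (by simp) w hw
  have e2 := hne (-1) (by simp) w hw
  have e3 := hne 0 (by simp) w hw
  rw [← sub_eq_add_neg] at e2
  rw [add_zero] at e3
  have e4 : (w - c) ^ 2 - 1 = (w - (c + 1)) * (w - (c - 1)) := by ring
  have e5 : ((w - (c + 1))⁻¹ • f w + (w - (c - 1))⁻¹ • f w) -
      ((w - c)⁻¹ • f w + (w - c)⁻¹ • f w) = 2 * f w / ((w - c) * ((w - c) ^ 2 - 1)) := by
    rw [e4]
    simp only [smul_eq_mul]
    field_simp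
    ring
  have hn : ‖w - c‖ = ρ := mem_sphere_iff_norm.1 hw
  have e6 : ρ ^ 2 - 1 ≤ ‖(w - c) ^ 2 - 1‖ := by
    have := norm_sub_norm_le ((w - c) ^ 2) 1
    rwa [norm_pow, hn, norm_one] at this
  rw [e5, norm_div, norm_mul, norm_mul, hn, Complex.norm_two]
  have hM0 : 0 ≤ M := (norm_nonneg _).trans (hM w hw)
  gcongr
  exact hM w hw

theorem norm_log_one_add_le_54 {z : ℂ} (hz : ‖z‖ ≤ 1 / 3) : ‖log (1 + z)‖ ≤ 5 / 4 * ‖z‖ := by
  have h1 : ‖z‖ < 1 := by linarith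
  refine (norm_log_one_add_le h1).trans ?_
  have h2 : (1 - ‖z‖)⁻¹ ≤ 3 / 2 := by
    rw [inv_le_comm₀ (by linarith) (by norm_num)]
    linarith
  have h3 : 0 ≤ ‖z‖ := norm_nonneg _
  have h4 : ‖z‖ * (1 - ‖z‖)⁻¹ ≤ 1 / 2 := by
    calc ‖z‖ * (1 - ‖z‖)⁻¹ ≤ 1 / 3 * (3 / 2) := by
          gcongr
      _ = 1 / 2 := by norm_num
  nlinarith

theorem one_add_mem_slitPlane {z : ℂ} (hz : ‖z‖ < 1) : 1 + z ∈ slitPlane :=
  mem_slitPlane_of_norm_lt_one hz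

theorem sinh_bound {w : ℂ} (hw : ‖w‖ ≤ 1) :
    ‖exp w - exp (-w) - 2 * w‖ ≤ 7 / 16 * ‖w‖ ^ 3 := by
  have h1 := Complex.exp_bound hw (n := 4) (by norm_num)
  have h2 := Complex.exp_bound (x := -w) (by simpa using hw) (n := 4) (by norm_num)
  simp only [Finset.sum_range_succ, Finset.sum_range_zero, Nat.factorial, norm_neg] at h1 h2
  norm_num at h1 h2
  have e : exp w - exp (-w) - 2 * w = (exp w - (1 + w + w ^ 2 / 2 + w ^ 3 / 6)) -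
      (exp (-w) - (1 + -w + w ^ 2 / 2 + (-w) ^ 3 / 6)) + w ^ 3 / 3 := by ring
  have h3 : ‖w ^ 3 / 3‖ = ‖w‖ ^ 3 / 3 := by simp
  have h4 : ‖w‖ ^ 4 ≤ ‖w‖ ^ 3 := pow_le_pow_of_le_one (norm_nonneg _) hw (by norm_num)
  rw [e]
  refine (norm_add_le _ _).trans ?_
  have h5 := norm_sub_le (exp w - (1 + w + w ^ 2 / 2 + w ^ 3 / 6))
    (exp (-w) - (1 + -w + w ^ 2 / 2 + (-w) ^ 3 / 6))
  linarith

/-- Propagation of relative errors through one step of the recursion. -/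
theorem perturb {E0 E1 E2 q0 q1 q2 : ℂ} {B e : ℝ} (hB : 1 ≤ B) (he : 0 ≤ e) (hBe : B * e ≤ 1 / 100)
    (n0 : E0 - 1 ≠ 0) (n1 : E1 - 1 ≠ 0) (n2 : E2 - 1 ≠ 0)
    (b0 : ‖E0‖ ≤ B * ‖E0 - 1‖) (b1 : ‖E1‖ ≤ B * ‖E1 - 1‖) (b2 : ‖E2‖ ≤ B * ‖E2 - 1‖)
    (h0 : ‖q0 - E0‖ ≤ e * ‖E0‖) (h1 : ‖q1 - E1‖ ≤ e * ‖E1‖) (h2 : ‖q2 - E2‖ ≤ e * ‖E2‖)
    (hE : E1 ≠ 0) :
    ‖q1 ^ 2 * (q0 - 1) * (q2 - 1) / (q1 - 1) ^ 2 - E1 ^ 2 * (E0 - 1) * (E2 - 1) / (E1 - 1) ^ 2‖ ≤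
      7 * B * e * ‖E1 ^ 2 * (E0 - 1) * (E2 - 1) / (E1 - 1) ^ 2‖ := by
  have rel : ∀ {E q : ℂ}, E - 1 ≠ 0 → ‖E‖ ≤ B * ‖E - 1‖ → ‖q - E‖ ≤ e * ‖E‖ →
      ∃ u : ℂ, ‖u‖ ≤ B * e ∧ q - 1 = (E - 1) * (1 + u) := by
    intro E q n b h
    refine ⟨(q - E) / (E - 1), ?_, by field_simp; ring⟩
    rw [norm_div, div_le_iff₀ (norm_pos_iff.2 n)]
    calc ‖q - E‖ ≤ e * ‖E‖ := h
      _ ≤ e * (B * ‖E - 1‖) := by gcongr
      _ = _ := by ring
  obtain ⟨u0, a0, c0⟩ := rel n0 b0 h0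
  obtain ⟨u1, a1, c1⟩ := rel n1 b1 h1
  obtain ⟨u2, a2, c2⟩ := rel n2 b2 h2
  obtain ⟨u, a, c⟩ : ∃ u : ℂ, ‖u‖ ≤ B * e ∧ q1 = E1 * (1 + u) := by
    refine ⟨(q1 - E1) / E1, ?_, by field_simp; ring⟩
    rw [norm_div, div_le_iff₀ (norm_pos_iff.2 hE)]
    refine h1.trans ?_
    have := norm_nonneg E1
    have : e ≤ B * e := by nlinarith
    gcongr
  set t := B * e with ht
  have t0 : 0 ≤ t := by positivity
  have l1 : 99 / 100 ≤ ‖1 + u1‖ := by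
    have := norm_sub_norm_le (1 : ℂ) (-u1)
    simp only [norm_one, norm_neg, sub_neg_eq_add] at this
    linarith
  have n3 : 1 + u1 ≠ 0 := by
    intro h
    rw [h, norm_zero] at l1
    norm_num at l1
  have e1 : q1 ^ 2 * (q0 - 1) * (q2 - 1) / (q1 - 1) ^ 2 -
      E1 ^ 2 * (E0 - 1) * (E2 - 1) / (E1 - 1) ^ 2 =
      (((1 + u) ^ 2 * (1 + u0) * (1 + u2) - 1) - ((1 + u1) ^ 2 - 1)) / (1 + u1) ^ 2 *
        (E1 ^ 2 * (E0 - 1) * (E2 - 1) / (E1 - 1) ^ 2) := by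
    rw [c0, c1, c2]
    nth_rewrite 1 [c]
    field_simp
    ring
  have mulb : ∀ {x y : ℂ} {s r : ℝ}, ‖x - 1‖ ≤ s → ‖y - 1‖ ≤ r → ‖x * y - 1‖ ≤ s + r + s * r := by
    intro x y s r hx hy
    have : x * y - 1 = (x - 1) + (y - 1) + (x - 1) * (y - 1) := by ring
    rw [this]
    refine (norm_add_le _ _).trans (add_le_add ((norm_add_le _ _).trans (add_le_add hx hy)) ?_)
    rw [norm_mul]
    exact mul_le_mul hx hy (norm_nonneg _) ((norm_nonneg _).trans hx)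
  have p : ‖1 + u - 1‖ ≤ t := by simpa using a
  have p0 : ‖1 + u0 - 1‖ ≤ t := by simpa using a0
  have p1 : ‖1 + u1 - 1‖ ≤ t := by simpa using a1
  have p2 : ‖1 + u2 - 1‖ ≤ t := by simpa using a2
  have tt : t * t ≤ t / 100 := by nlinarith
  have q1' : ‖(1 + u) * (1 + u) - 1‖ ≤ 201 / 100 * t := (mulb p p).trans (by linarith)
  have q2' : ‖(1 + u) * (1 + u) * (1 + u0) - 1‖ ≤ 304 / 100 * t :=
    (mulb q1' p0).trans (by nlinarith)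
  have q3' : ‖(1 + u) * (1 + u) * (1 + u0) * (1 + u2) - 1‖ ≤ 408 / 100 * t :=
    (mulb q2' p2).trans (by nlinarith)
  have q4' : ‖(1 + u1) * (1 + u1) - 1‖ ≤ 201 / 100 * t := (mulb p1 p1).trans (by linarith)
  rw [e1, norm_mul]
  gcongr
  rw [norm_div, norm_pow, div_le_iff₀ (by positivity)]
  have := norm_sub_le ((1 + u) ^ 2 * (1 + u0) * (1 + u2) - 1) ((1 + u1) ^ 2 - 1)
  rw [pow_two, pow_two] at this
  have l2 : 98 / 100 ≤ ‖1 + u1‖ ^ 2 := by nlinarith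
  rw [pow_two (1 + u), pow_two (1 + u1), mul_assoc 7]
  nlinarith

end Pool.Agent.P.MP_e3a7ef_co
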