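import Pool.Agent.P.MP_e3a7ef_co.Seq

namespace Pool.Agent.P.MP_e3a7ef_co

/-- Lists of interval enclosures. -/
inductive NL where
  | nil : NL
  | cons : ℕ → ℕ → NL → NL

/-- Evaluate `n` before passing it on. -/
noncomputable def force {α : Type} (n : ℕ) (k : ℕ → α) : α :=
  Nat.rec (k Nat.zero) (fun m _ => k (Nat.succ m)) n

theorem force_eq {α : Type} (n : ℕ) (k : ℕ → α) : force n k = k n := by
  cases n <;> rfl

/-- One entry of the next level, in continuation style. -/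
noncomputable def ent (S S2 P3 : ℕ) (op : ℕ → ℕ → ℕ) (la ha lb hb lc hc : ℕ) (k : ℕ → ℕ → NL) : NL :=
  @Bool.rec (fun _ => NL)
    (@Bool.rec (fun _ => NL)
      (force (op (Nat.div S2 hb) S) fun R => force (op (Nat.succ (Nat.div S2 lb)) S) fun R2 =>
        force (Nat.sub (Nat.shiftRight (Nat.mul (Nat.mul R R) (Nat.mul la lc)) P3) S) fun lo =>
        force (Nat.sub (Nat.succ (Nat.shiftRight (Nat.mul (Nat.mul R2 R2) (Nat.mul ha hc)) P3)) S)
          fun hi => k lo hi)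
      (force (Nat.mul 3 S) fun lo => k lo Nat.zero)
      (@Bool.rec (fun _ => Bool) false (Nat.ble (Nat.add S S) lc) (Nat.ble (Nat.add S S) la)))
    (k Nat.zero Nat.zero) (Nat.beq lb Nat.zero)

/-- Sliding window of width three. -/
noncomputable def stepAux (S S2 P3 : ℕ) (op : ℕ → ℕ → ℕ) (l : NL) : ℕ → ℕ → ℕ → ℕ → NL :=
  @NL.rec (fun _ => ℕ → ℕ → ℕ → ℕ → NL) (fun _ _ _ _ => NL.nil)
    (fun lc hc _ ih la ha lb hb =>
      ent S S2 P3 op la ha lb hb lc hc fun lo hi => NL.cons lo hi (ih lb hb lc hc)) l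

/-- The next level. -/
noncomputable def stepL (S S2 P3 : ℕ) (op : ℕ → ℕ → ℕ) (l : NL) : NL :=
  @NL.rec (fun _ => NL) NL.nil (fun la ha t _ =>
    @NL.rec (fun _ => NL) NL.nil (fun lb hb t' _ => stepAux S S2 P3 op t' la ha lb hb) t) l

/-- Iterated levels. -/
noncomputable def iterL (S S2 P3 : ℕ) (l : NL) (n : ℕ) : NL :=
  Nat.rec l (fun _ ih => stepL S S2 P3 Nat.add ih) n

/-- One step of the enclosure of the ratio. -/
noncomputable def rstep {α : Type} (S S2 y lo hi : ℕ) (k : ℕ → ℕ → ℕ → α) : α :=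
  force (Nat.succ y) fun t =>
  force (Nat.div (Nat.mul (Nat.succ (Nat.add (Nat.mul 3 (Nat.mul t t)) (Nat.mul 5 t))) S)
    (Nat.mul 2 (Nat.mul (Nat.succ t) (Nat.succ t)))) fun A =>
  force (Nat.add S (Nat.sub (Nat.sub A (Nat.succ (Nat.div (Nat.mul y S2) (Nat.mul (Nat.mul 2 t) lo))))
    S)) fun lo' =>
  force (Nat.sub (Nat.succ A) (Nat.div (Nat.mul y S2) (Nat.mul (Nat.mul 2 t) hi))) fun hi' =>
    k t lo' hi'

/-- Iterated steps of the enclosure of the ratio. -/
noncomputable def iterR (S S2 : ℕ) (k : ℕ → ℕ → ℕ → Bool) (n : ℕ) : ℕ → ℕ → ℕ → Bool :=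
  Nat.rec k (fun _ ih y lo hi => rstep S S2 y lo hi ih) n

/-- The list of level zero enclosures. -/
noncomputable def genW (S S2 : ℕ) (n : ℕ) : ℕ → ℕ → ℕ → NL :=
  Nat.rec (fun _ _ _ => NL.nil) (fun _ ih y lo hi => rstep S S2 y lo hi fun t lo' hi' =>
    force (Nat.sub S (Nat.succ (Nat.div (Nat.mul hi' S) lo))) fun a =>
    force (Nat.sub S (Nat.div (Nat.mul lo' S) hi)) fun b => NL.cons a b (ih t lo' hi')) n

/-- The first `n` lower bounds exist and are at least `T`. -/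
noncomputable def chk (T : ℕ) (n : ℕ) : NL → Bool :=
  Nat.rec (fun _ => true) (fun _ ih l => @NL.rec (fun _ => Bool) false
    (fun lo _ t _ => @Bool.rec (fun _ => Bool) false (ih t) (Nat.ble T lo)) l) n

/-- The whole check of a block. -/
noncomputable def check (P y0 c0 skip len : ℕ) : Bool :=
  force (Nat.pow 2 P) fun S => force (Nat.mul S S) fun S2 => force (Nat.mul 3 P) fun P3 =>
  force (Nat.div (Nat.mul c0 S) 8) fun lo => force (Nat.div (Nat.mul 9 S) 8) fun hi =>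
  force (Nat.add S S) fun T =>
    iterR S S2 (fun y lo hi => chk T len
      (iterL S S2 P3 (stepL S S2 P3 Nat.sub (genW S S2 (Nat.add len 50) y lo hi)) 24)) skip y0 lo hi

end Pool.Agent.P.MP_e3a7ef_co
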