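import Pool.Agent.P.MP_e3a7ef_co.Check

namespace Pool.Agent.P.MP_e3a7ef_co

/-- All ratios in the dependency cone are on the correct side of `1`. -/
def Good : ℕ → ℕ → Prop
  | 0, i => QQ 0 i < 1
  | k + 1, i => Good k i ∧ Good k (i + 1) ∧ Good k (i + 2) ∧ 1 < QQ (k + 1) i

/-- Distance of the ratio from `1`. -/
noncomputable def yv : ℕ → ℕ → ℝ
  | 0, i => 1 - QQ 0 i
  | k + 1, i => QQ (k + 1) i - 1

theorem Good.pos {k i : ℕ} (h : Good k i) : 0 < yv k i := by
  cases k with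
  | zero => exact sub_pos.2 h
  | succ k => exact sub_pos.2 h.2.2.2

theorem Good.cone {r k i : ℕ} (h : Good (k + r) i) : ∀ j ≤ 2 * r, Good k (i + j) := by
  induction r generalizing i with
  | zero =>
    intro j hj
    obtain rfl : j = 0 := by omega
    exact h
  | succ r ih =>
    intro j hj
    have ⟨h0, _, h2, _⟩ : Good (k + r + 1) i := h
    rcases le_or_gt j (2 * r) with h3 | h3
    · exact ih h0 j h3
    · rcases Nat.eq_zero_or_pos r with rfl | hr
      · obtain ⟨-, h1, h2, -⟩ : Good (k + 1) i := h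
        interval_cases j
        · exact h1
        · exact h2
      · have := ih h2 (j - 2) (by omega)
        rwa [show i + 2 + (j - 2) = i + j by omega] at this

/-- Meaning of an enclosure. -/
def Enc (S k i lo hi : ℕ) : Prop :=
  0 < lo → Good k i ∧ (lo : ℝ) ≤ yv k i * S ∧ (hi = 0 ∨ yv k i * S ≤ hi)

/-- Meaning of a list of enclosures. -/
def EncL (S k : ℕ) : NL → ℕ → Prop
  | NL.nil, _ => True
  | NL.cons lo hi t, i => Enc S k i lo hi ∧ EncL S k t (i + 1)

theorem natdiv_lt (a b : ℕ) (hb : 0 < b) : (a : ℝ) / b ≤ ((a / b + 1 : ℕ) : ℝ) := by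
  rw [div_le_iff₀ (by exact_mod_cast hb)]
  have := Nat.lt_div_mul_add (a := a) hb
  have h : a ≤ (a / b + 1) * b := by
    rw [add_mul, one_mul]
    omega
  exact_mod_cast h

theorem cast_sub_ge (a b : ℕ) : (a : ℝ) - b ≤ ((a - b : ℕ) : ℝ) := by
  rcases le_total a b with h | h
  · have : (a : ℝ) ≤ b := by exact_mod_cast h
    have : (0 : ℝ) ≤ ((a - b : ℕ) : ℝ) := Nat.cast_nonneg _
    linarith
  · rw [Nat.cast_sub h]

theorem cast_sub_le (a b : ℕ) {x : ℝ} (h0 : 0 ≤ x) (h : (a : ℝ) - b ≤ x) : ((a - b : ℕ) : ℝ) ≤ x := by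
  rcases le_total a b with h' | h'
  · rwa [Nat.sub_eq_zero_of_le h', Nat.cast_zero]
  · rwa [Nat.cast_sub h']

theorem core {S P3 R R2 la ha lc hc k i : ℕ} {f : ℝ} (hS : 0 < S) (hP : 2 ^ P3 = S ^ 3)
    (hf : 0 ≤ f) (g1 : Good k (i + 1)) (e0 : Enc S k i la ha) (e2 : Enc S k (i + 2) lc hc)
    (hQ : QQ (k + 1) i = f ^ 2 * yv k i * yv k (i + 2)) (hR : (R : ℝ) ≤ f * S)
    (hR2 : f * S ≤ R2) :
    Enc S (k + 1) i ((R * R * (la * lc)) >>> P3 - S) ((R2 * R2 * (ha * hc)) >>> P3 + 1 - S) := by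
  intro hlo
  rw [Nat.shiftRight_eq_div_pow, hP] at hlo ⊢
  rw [Nat.shiftRight_eq_div_pow, hP]
  have hla : 0 < la := by
    rcases Nat.eq_zero_or_pos la with rfl | h
    · simp at hlo
    · exact h
  have hlc : 0 < lc := by
    rcases Nat.eq_zero_or_pos lc with rfl | h
    · simp at hlo
    · exact h
  obtain ⟨g0, a0, b0⟩ := e0 hla
  obtain ⟨g2, a2, b2⟩ := e2 hlc
  have p0 := g0.pos
  have p2 := g2.pos
  have hs : (0 : ℝ) < S := by exact_mod_cast hS
  have l1 : ((R * R * (la * lc) / S ^ 3 : ℕ) : ℝ) ≤ QQ (k + 1) i * S := by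
    refine Nat.cast_div_le.trans ?_
    push_cast
    rw [div_le_iff₀ (by positivity), hQ]
    calc (R : ℝ) * R * (la * lc) ≤ (f * S) * (f * S) * ((yv k i * S) * (yv k (i + 2) * S)) := by
          gcongr
      _ = _ := by ring
  have l2 : ((R * R * (la * lc) / S ^ 3 - S : ℕ) : ℝ) ≤ (QQ (k + 1) i - 1) * S := by
    rw [Nat.cast_sub (by omega)]
    linarith
  have l3 : (0 : ℝ) < ((R * R * (la * lc) / S ^ 3 - S : ℕ) : ℝ) := by exact_mod_cast hlo
  have l4 : 0 < QQ (k + 1) i - 1 := pos_of_mul_pos_of_pos_right' (l3.trans_le l2) hs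
  refine ⟨⟨g0, g1, g2, by linarith⟩, l2, ?_⟩
  rcases b0 with rfl | b0
  · left
    simp
    omega
  rcases b2 with rfl | b2
  · left
    simp
    omega
  right
  refine le_trans ?_ (cast_sub_ge _ _)
  have u1 := natdiv_lt (R2 * R2 * (ha * hc)) (S ^ 3) (by positivity)
  have u2 : QQ (k + 1) i * S ≤ ((R2 * R2 * (ha * hc) : ℕ) : ℝ) / ((S ^ 3 : ℕ) : ℝ) := by
    push_cast
    rw [le_div_iff₀ (by positivity), hQ]
    calc _ = (f * S) * (f * S) * ((yv k i * S) * (yv k (i + 2) * S)) := by ring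
      _ ≤ _ := by gcongr
  change (QQ (k + 1) i - 1) * S ≤ _
  linarith
where
  pos_of_mul_pos_of_pos_right' {a b : ℝ} (h : 0 < a * b) (hb : 0 < b) : 0 < a :=
    (pos_iff_pos_of_mul_pos h).2 hb

theorem ent_sound {S P3 : ℕ} {op : ℕ → ℕ → ℕ} {la ha lb hb lc hc k i : ℕ} (hS : 0 < S)
    (hP : 2 ^ P3 = S ^ 3) (hop : (k = 0 ∧ op = Nat.sub) ∨ (0 < k ∧ op = Nat.add))
    (e0 : Enc S k i la ha) (e1 : Enc S k (i + 1) lb hb) (e2 : Enc S k (i + 2) lc hc)
    (c : ℕ → ℕ → NL) :
    ∃ lo hi, ent S (S * S) P3 op la ha lb hb lc hc c = c lo hi ∧ Enc S (k + 1) i lo hi := by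
  have hs : (0 : ℝ) < S := by exact_mod_cast hS
  unfold ent
  cases h1 : Nat.beq lb Nat.zero with
  | true => exact ⟨0, 0, rfl, fun h => absurd h (lt_irrefl 0)⟩
  | false =>
    have hlb : 0 < lb := Nat.pos_of_ne_zero (Nat.ne_of_beq_eq_false h1)
    obtain ⟨g1, a1, b1⟩ := e1 hlb
    have p1 := g1.pos
    have hlb' : (0 : ℝ) < lb := by exact_mod_cast hlb
    have d1 : ((S * S / hb : ℕ) : ℝ) ≤ if hb = 0 then 0 else 1 / yv k (i + 1) * S := by
      split_ifs with h
      · simp [h]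
      · refine Nat.cast_div_le.trans ?_
        push_cast
        calc (S : ℝ) * S / hb ≤ S * S / (yv k (i + 1) * S) := by
              gcongr
              exact b1.resolve_left h
          _ = _ := by field_simp
    have d1' : ((S * S / hb : ℕ) : ℝ) ≤ 1 / yv k (i + 1) * S := by
      refine d1.trans ?_
      split_ifs
      · positivity
      · rfl
    have d2 : 1 / yv k (i + 1) * S ≤ ((S * S / lb + 1 : ℕ) : ℝ) := by
      refine le_trans ?_ (natdiv_lt _ _ hlb)
      push_cast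
      calc 1 / yv k (i + 1) * S = S * S / (yv k (i + 1) * S) := by field_simp
        _ ≤ _ := by gcongr
    have gen : Enc S (k + 1) i
        ((op (S * S / hb) S * op (S * S / hb) S * (la * lc)) >>> P3 - S)
        ((op (S * S / lb + 1) S * op (S * S / lb + 1) S * (ha * hc)) >>> P3 + 1 - S) := by
      rcases hop with ⟨rfl, rfl⟩ | ⟨hk, rfl⟩
      · have q1 : 0 < QQ 0 (i + 1) := div_pos (rr_pos _) (rr_pos _)
        have hf : 0 ≤ 1 / yv 0 (i + 1) - 1 := by
          rw [sub_nonneg, le_div_iff₀ p1, yv]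
          linarith
        refine core hS hP hf g1 e0 e2 ?_ ?_ ?_
        · have : QQ 0 (i + 1) - 1 ≠ 0 := (sub_neg.2 g1).ne
          have : 1 - QQ 0 (i + 1) ≠ 0 := (sub_pos.2 g1).ne'
          rw [QQ]
          simp only [yv]
          field_simp
          ring
        · exact cast_sub_le _ _ (by positivity) (by linarith)
        · exact le_trans (by linarith) (cast_sub_ge _ _)
      · obtain ⟨k, rfl⟩ : ∃ k', k = k' + 1 := ⟨k - 1, by omega⟩
        refine core (f := 1 / yv (k + 1) (i + 1) + 1) hS hP (by positivity) g1 e0 e2 ?_ ?_ ?_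
        · have := p1.ne'
          rw [QQ]
          simp only [yv] at this ⊢
          field_simp
          ring
        · rw [Nat.add_eq, Nat.cast_add]
          linarith
        · rw [Nat.add_eq, Nat.cast_add]
          linarith
    cases h2 : Nat.ble (Nat.add S S) la with
    | false => exact ⟨_, _, by simp only [force_eq]; rfl, gen⟩
    | true =>
      cases h3 : Nat.ble (Nat.add S S) lc with
      | false => exact ⟨_, _, by simp only [force_eq]; rfl, gen⟩
      | true =>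
        have c1 : S + S ≤ la := Nat.le_of_ble_eq_true h2
        have c2 : S + S ≤ lc := Nat.le_of_ble_eq_true h3
        obtain ⟨g0, a0, -⟩ := e0 (by omega)
        obtain ⟨g2, a2, -⟩ := e2 (by omega)
        have c3 : (S : ℝ) + S ≤ la := by exact_mod_cast c1
        have c4 : (S : ℝ) + S ≤ lc := by exact_mod_cast c2
        have c5 : 2 ≤ yv k i := le_of_mul_le_mul_right (by linarith) hs
        have c6 : 2 ≤ yv k (i + 2) := le_of_mul_le_mul_right (by linarith) hs
        refine ⟨3 * S, 0, by simp only [force_eq]; rfl, fun _ => ?_⟩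
        cases k with
        | zero =>
          have q1 : 0 < QQ 0 i := div_pos (rr_pos _) (rr_pos _)
          rw [yv] at c5
          linarith
        | succ k =>
          rw [yv] at c5 c6 p1
          have c7 : 4 ≤ QQ (k + 1 + 1) i := by
            rw [QQ, le_div_iff₀ (pow_pos p1 2)]
            have a1 : 2 * 2 ≤ (QQ (k + 1) i - 1) * (QQ (k + 1) (i + 2) - 1) :=
              mul_le_mul c5 c6 (by norm_num) (by linarith)
            have a2 : (QQ (k + 1) (i + 1) - 1) ^ 2 ≤ QQ (k + 1) (i + 1) ^ 2 := by nlinarith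
            rw [mul_assoc]
            nlinarith [sq_nonneg (QQ (k + 1) (i + 1))]
          refine ⟨⟨g0, g1, g2, by linarith⟩, ?_, Or.inl rfl⟩
          rw [yv]
          push_cast
          nlinarith

theorem stepAux_sound {S P3 : ℕ} {op : ℕ → ℕ → ℕ} {k : ℕ} (hS : 0 < S)
    (hP : 2 ^ P3 = S ^ 3) (hop : (k = 0 ∧ op = Nat.sub) ∨ (0 < k ∧ op = Nat.add)) (l : NL) :
    ∀ i la ha lb hb, Enc S k i la ha → Enc S k (i + 1) lb hb → EncL S k l (i + 2) →
      EncL S (k + 1) (stepAux S (S * S) P3 op l la ha lb hb) i := by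
  induction l with
  | nil => exact fun _ _ _ _ _ _ _ _ => trivial
  | cons lc hc t ih =>
    intro i la ha lb hb e0 e1 e2
    obtain ⟨lo, hi, h1, h2⟩ := ent_sound hS hP hop e0 e1 e2.1
      fun lo hi => NL.cons lo hi (stepAux S (S * S) P3 op t lb hb lc hc)
    have : stepAux S (S * S) P3 op (NL.cons lc hc t) la ha lb hb =
        NL.cons lo hi (stepAux S (S * S) P3 op t lb hb lc hc) := h1
    rw [this]
    exact ⟨h2, ih _ _ _ _ _ e1 e2.1 e2.2⟩

theorem stepL_sound {S P3 : ℕ} {op : ℕ → ℕ → ℕ} {k : ℕ} (hS : 0 < S)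
    (hP : 2 ^ P3 = S ^ 3) (hop : (k = 0 ∧ op = Nat.sub) ∨ (0 < k ∧ op = Nat.add)) {l : NL} {i : ℕ}
    (h : EncL S k l i) : EncL S (k + 1) (stepL S (S * S) P3 op l) i := by
  rcases l with _ | ⟨la, ha, _ | ⟨lb, hb, t⟩⟩
  · trivial
  · trivial
  · exact stepAux_sound hS hP hop t i la ha lb hb h.1 h.2.1 h.2.2

theorem iterL_sound {S P3 : ℕ} (hS : 0 < S) (hP : 2 ^ P3 = S ^ 3) {l : NL} {i : ℕ}
    (h : EncL S 1 l i) (n : ℕ) : EncL S (n + 1) (iterL S (S * S) P3 l n) i := by
  induction n with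
  | zero => exact h
  | succ n ih => exact stepL_sound hS hP (Or.inr ⟨by omega, rfl⟩) ih

/-- Meaning of an enclosure of the ratio. -/
def EncR (S y lo hi : ℕ) : Prop := S ≤ lo ∧ (lo : ℝ) ≤ rr y * S ∧ rr y * S ≤ hi

theorem rstep_sound {α : Type} {S y lo hi : ℕ} (hS : 0 < S) (h : EncR S y lo hi)
    (c : ℕ → ℕ → ℕ → α) :
    ∃ lo' hi', rstep S (S * S) y lo hi c = c (y + 1) lo' hi' ∧ EncR S (y + 1) lo' hi' := by
  obtain ⟨h1, h2, h3⟩ := h
  have hs : (0 : ℝ) < S := by exact_mod_cast hS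
  have hr := rr_pos y
  have hlo : (0 : ℝ) < lo := by exact_mod_cast hS.trans_le h1
  have hhi : (0 : ℝ) < hi := lt_of_lt_of_le (by positivity) h3
  set A := (3 * ((y + 1) * (y + 1)) + 5 * (y + 1) + 1) * S / (2 * ((y + 1 + 1) * (y + 1 + 1)))
    with hA
  refine ⟨S + (A - (y * (S * S) / (2 * (y + 1) * lo) + 1) - S),
    A + 1 - y * (S * S) / (2 * (y + 1) * hi), by simp only [rstep, force_eq]; rfl, by omega, ?_, ?_⟩
  · have e := (rr_bounds y).1
    rw [Nat.cast_add, ← le_sub_iff_add_le']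
    refine cast_sub_le _ _ (by nlinarith) (sub_le_sub_right ?_ _)
    refine cast_sub_le _ _ (by nlinarith) ?_
    have a1 : (A : ℝ) ≤ (3 * ((y : ℝ) + 1) ^ 2 + 5 * (y + 1) + 1) / (2 * (y + 1 + 1) ^ 2) * S := by
      refine Nat.cast_div_le.trans (le_of_eq ?_)
      push_cast
      ring
    have a2 := natdiv_lt (y * (S * S)) (2 * (y + 1) * lo) (by have := hS.trans_le h1; positivity)
    have a3 : ((y : ℝ) + 1 - 1) / (2 * (y + 1)) / rr y * S ≤
        ((y * (S * S) : ℕ) : ℝ) / ((2 * (y + 1) * lo : ℕ) : ℝ) := by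
      push_cast
      calc _ = (y : ℝ) * (S * S) / (2 * (y + 1) * (rr y * S)) := by
            field_simp
            ring
        _ ≤ _ := by gcongr
    rw [rr, sub_mul]
    linarith
  · refine le_trans ?_ (cast_sub_ge _ _)
    have a1 := natdiv_lt ((3 * ((y + 1) * (y + 1)) + 5 * (y + 1) + 1) * S)
      (2 * ((y + 1 + 1) * (y + 1 + 1))) (by positivity)
    have a1' : (((3 * ((y + 1) * (y + 1)) + 5 * (y + 1) + 1) * S : ℕ) : ℝ) /
        ((2 * ((y + 1 + 1) * (y + 1 + 1)) : ℕ) : ℝ) =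
        (3 * ((y : ℝ) + 1) ^ 2 + 5 * (y + 1) + 1) / (2 * (y + 1 + 1) ^ 2) * S := by
      push_cast
      ring
    have a3 : ((y * (S * S) / (2 * (y + 1) * hi) : ℕ) : ℝ) ≤
        ((y : ℝ) + 1 - 1) / (2 * (y + 1)) / rr y * S := by
      refine Nat.cast_div_le.trans ?_
      push_cast
      calc _ ≤ (y : ℝ) * (S * S) / (2 * (y + 1) * (rr y * S)) := by gcongr
        _ = _ := by
            field_simp
            ring
    rw [rr, sub_mul]
    linarith

theorem iterR_sound {S : ℕ} (hS : 0 < S) (c : ℕ → ℕ → ℕ → Bool) (n : ℕ) :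
    ∀ y lo hi, EncR S y lo hi → ∃ lo' hi', iterR S (S * S) c n y lo hi = c (y + n) lo' hi' ∧
      EncR S (y + n) lo' hi' := by
  induction n with
  | zero => exact fun y lo hi h => ⟨lo, hi, rfl, h⟩
  | succ n ih =>
    intro y lo hi h
    obtain ⟨lo1, hi1, h1, h2⟩ := rstep_sound hS h (iterR S (S * S) c n)
    obtain ⟨lo2, hi2, h3, h4⟩ := ih _ _ _ h2
    rw [show y + (n + 1) = y + 1 + n by omega]
    exact ⟨lo2, hi2, h1.trans h3, h4⟩

theorem genW_sound {S : ℕ} (hS : 0 < S) (n : ℕ) :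
    ∀ i lo hi, EncR S (i + 1) lo hi → EncL S 0 (genW S (S * S) n (i + 1) lo hi) i := by
  induction n with
  | zero => exact fun _ _ _ _ => trivial
  | succ n ih =>
    intro i lo hi h
    obtain ⟨lo', hi', h1, h2⟩ := rstep_sound hS h fun t lo' hi' =>
      force (Nat.sub S (Nat.succ (Nat.div (Nat.mul hi' S) lo))) fun a =>
      force (Nat.sub S (Nat.div (Nat.mul lo' S) hi)) fun b =>
        NL.cons a b (genW S (S * S) n t lo' hi')
    have e : genW S (S * S) (n + 1) (i + 1) lo hi = NL.cons (S - (hi' * S / lo + 1))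
        (S - lo' * S / hi) (genW S (S * S) n (i + 1 + 1) lo' hi') := by
      refine Eq.trans h1 ?_
      simp only [force_eq]
      rfl
    rw [e]
    refine ⟨fun hpos => ?_, ih _ _ _ h2⟩
    obtain ⟨a1, a2, a3⟩ := h
    obtain ⟨b1, b2, b3⟩ := h2
    have hs : (0 : ℝ) < S := by exact_mod_cast hS
    have hr := rr_pos (i + 1)
    have hr' := rr_pos (i + 1 + 1)
    have hlo : (0 : ℝ) < lo := by exact_mod_cast hS.trans_le a1
    have c1 := natdiv_lt (hi' * S) lo (hS.trans_le a1)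
    have c2 : QQ 0 i * S ≤ ((hi' * S : ℕ) : ℝ) / lo := by
      push_cast
      rw [QQ]
      calc _ = rr (i + 1 + 1) * S * S / (rr (i + 1) * S) := by field_simp
        _ ≤ _ := by
          gcongr
    have c3 : ((S - (hi' * S / lo + 1) : ℕ) : ℝ) ≤ yv 0 i * S := by
      rw [Nat.cast_sub (by omega), yv]
      linarith
    have c4 : (0 : ℝ) < ((S - (hi' * S / lo + 1) : ℕ) : ℝ) := by exact_mod_cast hpos
    have c5 : 0 < yv 0 i := (pos_iff_pos_of_mul_pos (c4.trans_le c3)).2 hs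
    refine ⟨sub_pos.1 c5, c3, Or.inr (le_trans ?_ (cast_sub_ge _ _))⟩
    have c6 : ((lo' * S / hi : ℕ) : ℝ) ≤ QQ 0 i * S := by
      refine Nat.cast_div_le.trans ?_
      push_cast
      rw [QQ]
      calc _ ≤ rr (i + 1 + 1) * S * S / (rr (i + 1) * S) := by gcongr
        _ = _ := by field_simp
    rw [yv]
    linarith

theorem chk_sound {S k : ℕ} (hS : 0 < S) (n : ℕ) : ∀ (l : NL) (i : ℕ), EncL S k l i →
    chk (S + S) n l = true → ∀ j < n, Good k (i + j) ∧ 2 ≤ yv k (i + j) := by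
  induction n with
  | zero => exact fun _ _ _ _ j hj => absurd hj (Nat.not_lt_zero j)
  | succ n ih =>
    intro l i h1 h2 j hj
    rcases l with _ | ⟨lo, hi, t⟩
    · exact absurd h2 Bool.false_ne_true
    have h3 : @Bool.rec (fun _ => Bool) false (chk (S + S) n t) (Nat.ble (S + S) lo) = true := h2
    cases h4 : Nat.ble (S + S) lo with
    | false =>
      rw [h4] at h3
      exact absurd h3 Bool.false_ne_true
    | true =>
      rw [h4] at h3
      have h5 : S + S ≤ lo := Nat.le_of_ble_eq_true h4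
      rcases j with _ | j
      · obtain ⟨g, a, -⟩ := h1.1 (by omega)
        have hs : (0 : ℝ) < S := by exact_mod_cast hS
        have c3 : (S : ℝ) + S ≤ lo := by exact_mod_cast h5
        exact ⟨g, le_of_mul_le_mul_right (by rw [add_zero]; linarith) hs⟩
      · rw [show i + (j + 1) = i + 1 + j by omega]
        exact ih t (i + 1) h1.2 h3 j (by omega)

theorem check_sound {y0 c0 skip len : ℕ} (hc : c0 = 8 ∨ (c0 = 9 ∧ y0 = 0))
    (h : check 448 (y0 + 1) c0 skip len = true) :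
    ∀ j < len, Good 25 (y0 + skip + j) ∧ 2 ≤ yv 25 (y0 + skip + j) := by
  obtain ⟨S, hS⟩ : ∃ S : ℕ, S = 8 * 2 ^ 445 := ⟨_, rfl⟩
  have hS' : Nat.pow 2 448 = S := by
    rw [hS, Nat.pow_eq, show 448 = 3 + 445 from rfl, pow_add]
    rfl
  have hpos : 0 < S := by
    rw [hS]
    positivity
  have hP : 2 ^ (3 * 448) = S ^ 3 := by rw [← hS', Nat.pow_eq, ← pow_mul, mul_comm]
  simp only [check, force_eq, hS'] at h
  have e9 : ((9 * S / 8 : ℕ) : ℝ) = 9 / 8 * S := by
    rw [Nat.cast_div ⟨9 * 2 ^ 445, by rw [hS]; ring⟩ (by norm_num)]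
    push_cast
    ring
  have hs : (0 : ℝ) < S := by exact_mod_cast hpos
  have h0 : EncR S (y0 + 1) (c0 * S / 8) (9 * S / 8) := by
    obtain ⟨b1, b2⟩ := rr_bounds y0
    rcases hc with rfl | ⟨rfl, rfl⟩
    · refine ⟨by omega, ?_, ?_⟩
      · rw [Nat.mul_div_cancel_left _ (by norm_num)]
        nlinarith
      · rw [e9]
        gcongr
    · refine ⟨by omega, ?_, ?_⟩ <;> rw [e9, zero_add, rr_one]
  obtain ⟨lo, hi, h1, h2⟩ := iterR_sound hpos (fun y lo hi => chk (S + S) len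
    (iterL S (S * S) (3 * 448) (stepL S (S * S) (3 * 448) Nat.sub
      (genW S (S * S) (len + 50) y lo hi)) 24)) skip _ _ _ h0
  have h3 := h1.symm.trans h
  rw [show y0 + 1 + skip = y0 + skip + 1 by omega] at h2 h3
  exact chk_sound hpos len _ _ (iterL_sound hpos hP
    (stepL_sound hpos hP (Or.inl ⟨rfl, rfl⟩) (genW_sound hpos _ _ _ _ h2)) 24) h3

end Pool.Agent.P.MP_e3a7ef_co
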