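import Pool.Agent.P.MP_e3a7ef_co.Analytic
import Pool.Agent.P.MP_e3a7ef_co.Sound
import Pool.Agent.P.MP_e3a7ef_co.Blocks

namespace Pool.Agent.P.MP_e3a7ef_co

theorem finite_top (i : ℕ) (hi : i ≤ 8165) : Good 25 i ∧ 2 ≤ yv 25 i := by
  have key : ∀ {y0 c0 skip len : ℕ}, (c0 = 8 ∨ (c0 = 9 ∧ y0 = 0)) →
      check 448 (y0 + 1) c0 skip len = true → y0 + skip ≤ i → i < y0 + skip + len →
      Good 25 i ∧ 2 ≤ yv 25 i := by
    intro y0 c0 skip len hc h h1 h2
    have := check_sound hc h (i - (y0 + skip)) (by omega)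
    rwa [show y0 + skip + (i - (y0 + skip)) = i by omega] at this
  have hq : i / 500 ≤ 16 := by omega
  generalize hd : i / 500 = q at hq
  interval_cases q
  · exact key (Or.inr ⟨rfl, rfl⟩) blk0 (by omega) (by omega)
  · exact key (Or.inl rfl) blk1 (by omega) (by omega)
  · exact key (Or.inl rfl) blk2 (by omega) (by omega)
  · exact key (Or.inl rfl) blk3 (by omega) (by omega)
  · exact key (Or.inl rfl) blk4 (by omega) (by omega)
  · exact key (Or.inl rfl) blk5 (by omega) (by omega)
  · exact key (Or.inl rfl) blk6 (by omega) (by omega)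
  · exact key (Or.inl rfl) blk7 (by omega) (by omega)
  · exact key (Or.inl rfl) blk8 (by omega) (by omega)
  · exact key (Or.inl rfl) blk9 (by omega) (by omega)
  · exact key (Or.inl rfl) blk10 (by omega) (by omega)
  · exact key (Or.inl rfl) blk11 (by omega) (by omega)
  · exact key (Or.inl rfl) blk12 (by omega) (by omega)
  · exact key (Or.inl rfl) blk13 (by omega) (by omega)
  · exact key (Or.inl rfl) blk14 (by omega) (by omega)
  · exact key (Or.inl rfl) blk15 (by omega) (by omega)
  · exact key (Or.inl rfl) blk16 (by omega) (by omega)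

theorem finite_good {k i : ℕ} (hk : k ≤ 25) (hi : i + k ≤ 8190) : Good k i := by
  obtain ⟨r, hr⟩ := Nat.exists_eq_add_of_le hk
  have h := (finite_top (min i 8165) (min_le_right _ _)).1
  rw [hr] at h
  have := h.cone (i - min i 8165) (by omega)
  rwa [show min i 8165 + (i - min i 8165) = i by omega] at this

theorem QQ_zero_lt (i : ℕ) : QQ 0 i < 1 := by
  rcases le_or_gt i 8190 with h | h
  · exact finite_good (k := 0) (by omega) h
  · exact analytic_zero h

theorem al_lt {k : ℕ} (hk : k ≤ 24) : al k < 5 / 4 * (16385 / 2) ^ 2 :=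
  (al_mono hk).trans_lt (by norm_num [al])

theorem al_le {k : ℕ} (hk : 25 ≤ k) : 5 / 4 * (16385 / 2) ^ 2 ≤ al k :=
  le_trans (by norm_num [al]) (al_mono hk)

theorem sq_mono {a b : ℝ} (ha : 0 ≤ a) (h : a ≤ b) : 5 / 4 * a ^ 2 ≤ 5 / 4 * b ^ 2 := by gcongr

theorem QQ_succ (k : ℕ) : ∀ i : ℕ, 1 < QQ (k + 1) i ∧
    (5 / 4 * ((i : ℝ) + (k + 1 : ℕ) + 3 / 2) ^ 2 ≤ al (k + 1) → 25 ≤ k + 1 → 3 ≤ QQ (k + 1) i) := by
  induction k with
  | zero =>
    intro i
    refine ⟨?_, fun _ h => absurd h (by omega)⟩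
    rcases le_or_gt (i + 1) 8190 with h | h
    · exact (finite_good (k := 1) (by omega) h).2.2.2
    · refine (analytic_succ (k := 0) h ?_).1
      have : (0 : ℝ) ≤ i := Nat.cast_nonneg i
      refine lt_of_lt_of_le ?_ (sq_mono (a := 1) zero_le_one (by push_cast; linarith))
      norm_num [al]
  | succ k ih =>
    intro i
    have hi0 : (0 : ℝ) ≤ i := Nat.cast_nonneg i
    have hk0 : (0 : ℝ) ≤ k := Nat.cast_nonneg k
    have crude : 5 / 4 * ((i : ℝ) + (k + 1 + 1 : ℕ) + 3 / 2 + 1) ^ 2 ≤ al (k + 1) → 25 ≤ k + 1 →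
        3 ≤ QQ (k + 1 + 1) i := by
      intro h1 h2
      refine QQ_ge ((ih i).2 (le_trans ?_ h1) h2) (ih (i + 1)).1 ((ih (i + 2)).2 (le_trans ?_ h1) h2)
      · exact sq_mono (by positivity) (by push_cast; linarith)
      · exact sq_mono (by positivity) (by push_cast; linarith)
    rcases le_or_gt (i + (k + 1 + 1)) 8190 with h | h
    · rcases le_or_gt (k + 1 + 1) 25 with h' | h'
      · refine ⟨(finite_good h' h).2.2.2, fun _ h2 => ?_⟩
        obtain rfl : k = 23 := by omega
        have := (finite_top i (by omega)).2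
        rw [yv] at this
        linarith
      · have h3 : ((i + (k + 1 + 1) : ℕ) : ℝ) ≤ (8190 : ℕ) := Nat.cast_le.2 h
        clear h
        have := crude (le_trans ?_ (al_le (by omega))) (by omega)
        · exact ⟨by linarith, fun _ _ => this⟩
        · rw [Nat.cast_add, Nat.cast_ofNat] at h3
          exact sq_mono (by positivity) (by linarith)
    · rcases lt_or_ge (al (k + 1)) (5 / 4 * ((i : ℝ) + (k + 1 + 1 : ℕ) + 3 / 2 + 1) ^ 2) with h' | h'
      · exact ⟨(analytic_succ h h').1, fun h2 _ => (analytic_succ h h').2 h2⟩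
      · have h3 : ((8191 : ℕ) : ℝ) ≤ ((i + (k + 1 + 1) : ℕ) : ℝ) := Nat.cast_le.2 h
        clear h
        have h4 : 25 ≤ k + 1 := by
          by_contra hc
          have h5 := al_lt (k := k + 1) (by omega)
          rw [Nat.cast_add, Nat.cast_ofNat] at h3
          have h6 := sq_mono (a := 16385 / 2) (b := (i : ℝ) + (k + 1 + 1 : ℕ) + 3 / 2 + 1)
            (by norm_num) (by linarith)
          linarith
        have := crude h' h4
        exact ⟨by linarith, fun _ _ => this⟩

theorem main (k i : ℕ) :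
    0 < opL^[k] (fun n => flf (n + 2) ^ 2 - flf (n + 1) * flf (n + 3)) i :=
  reduction QQ_zero_lt (fun k i => (QQ_succ k i).1) k i

end Pool.Agent.P.MP_e3a7ef_co
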