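import Mathlib

/-! The series part: the numbers `mu n` and the recurrence. -/

open Filter Topology Finset

namespace Pool.Agent.P.MP_e3a7ef_co.Mo

/-- Coefficients of the density. -/
noncomputable def co : ℕ → ℝ
  | 0 => 1 / 2
  | j + 1 => co j * ((2 * (j : ℝ) + 3) ^ 2 / (((j : ℝ) + 3) * ((j : ℝ) + 1)))

lemma co_succ (j : ℕ) :
    co (j + 1) = co j * ((2 * (j : ℝ) + 3) ^ 2 / (((j : ℝ) + 3) * ((j : ℝ) + 1))) := rfl

lemma co_zero : co 0 = 1 / 2 := rfl

lemma co_one : co 1 = 3 / 2 := by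
  rw [co_succ, co_zero]; norm_num

lemma co_two : co 2 = 75 / 16 := by
  rw [co_succ, co_one]; norm_num

lemma co_pos (j : ℕ) : 0 < co j := by
  induction j with
  | zero => rw [co_zero]; norm_num
  | succ j ih => rw [co_succ]; positivity

lemma co_le (j : ℕ) : co j ≤ 4 ^ j / 2 := by
  induction j with
  | zero => rw [co_zero]; norm_num
  | succ j ih =>
    have hj : (0 : ℝ) ≤ j := Nat.cast_nonneg j
    have h : (2 * (j : ℝ) + 3) ^ 2 / (((j : ℝ) + 3) * ((j : ℝ) + 1)) ≤ 4 := by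
      rw [div_le_iff₀ (by positivity)]; nlinarith
    rw [co_succ, pow_succ]
    calc _ ≤ 4 ^ j / 2 * 4 := mul_le_mul ih h (by positivity) (by positivity)
      _ = _ := by ring

/-- The beta integral. -/
noncomputable def be (p q : ℕ) : ℝ := (p.factorial : ℝ) * q.factorial / (p + q + 1).factorial

lemma be_pos (p q : ℕ) : 0 < be p q := by unfold be; positivity

lemma be_left (p q : ℕ) : be (p + 1) q = be p q * (((p : ℝ) + 1) / ((p : ℝ) + q + 2)) := by
  unfold be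
  rw [show p + 1 + q + 1 = (p + q + 1) + 1 by ring, Nat.factorial_succ (p + q + 1),
    Nat.factorial_succ p]
  push_cast
  field_simp
  ring

lemma be_right (p q : ℕ) : be p (q + 1) = be p q * (((q : ℝ) + 1) / ((p : ℝ) + q + 2)) := by
  unfold be
  rw [show p + (q + 1) + 1 = (p + q + 1) + 1 by ring, Nat.factorial_succ (p + q + 1),
    Nat.factorial_succ q]
  push_cast
  field_simp
  ring

lemma integral_be (q p : ℕ) : ∫ t in (0 : ℝ)..1, t ^ p * (1 - t) ^ q = be p q := by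
  induction q generalizing p with
  | zero =>
    simp only [pow_zero, mul_one, integral_pow, be, Nat.factorial_zero, add_zero,
      Nat.factorial_succ p]
    push_cast
    field_simp
    simp
  | succ q ih =>
    have h : ∀ t : ℝ, t ^ p * (1 - t) ^ (q + 1) = t ^ p * (1 - t) ^ q - t ^ (p + 1) * (1 - t) ^ q :=
      fun t => by ring
    simp only [h]
    rw [intervalIntegral.integral_sub (Continuous.intervalIntegrable (by fun_prop) _ _)
      (Continuous.intervalIntegrable (by fun_prop) _ _), ih, ih, be_left, be_right]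
    field_simp
    ring

/-- The terms. -/
noncomputable def tau (n j : ℕ) : ℝ := co j * be (n + j + 1) (j + 1)

lemma tau_pos (n j : ℕ) : 0 < tau n j := mul_pos (co_pos j) (be_pos _ _)

lemma tau_n (n j : ℕ) :
    tau (n + 1) j = tau n j * (((n : ℝ) + j + 2) / ((n : ℝ) + 2 * j + 4)) := by
  unfold tau
  rw [show n + 1 + j + 1 = (n + j + 1) + 1 by ring, be_left]
  push_cast
  field_simp
  ring

lemma tau_j (n j : ℕ) :
    tau n (j + 1) = tau n j * ((2 * (j : ℝ) + 3) ^ 2 * ((n : ℝ) + j + 2) * ((j : ℝ) + 2) /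
      (((j : ℝ) + 3) * ((j : ℝ) + 1) * ((n : ℝ) + 2 * j + 4) * ((n : ℝ) + 2 * j + 5))) := by
  unfold tau
  rw [show n + (j + 1) + 1 = (n + j + 1) + 1 by ring, be_right, be_left, co_succ]
  push_cast
  field_simp
  ring

lemma tau_00 : tau 0 0 = 1 / 12 := by
  simp only [tau, be, co_zero]
  norm_num [Nat.factorial]

lemma tau_n0 (n : ℕ) : tau n 0 = 1 / (2 * ((n : ℝ) + 2) * ((n : ℝ) + 3)) := by
  induction n with
  | zero => rw [tau_00]; norm_num
  | succ n ih =>
    rw [tau_n, ih]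
    push_cast
    field_simp
    ring

lemma tau_le (n j : ℕ) : tau n j ≤ tau 0 j := by
  induction n with
  | zero => exact le_rfl
  | succ n ih =>
    have hj : (0 : ℝ) ≤ j := Nat.cast_nonneg j
    have h : ((n : ℝ) + j + 2) / ((n : ℝ) + 2 * j + 4) ≤ 1 := by
      rw [div_le_one (by positivity)]; linarith
    rw [tau_n]
    exact (mul_le_of_le_one_right (tau_pos n j).le h).trans ih

lemma sum_tau (N : ℕ) : ∑ j ∈ range N, tau 0 j + (2 * (N : ℝ) + 6) * tau 0 N ≤ 1 / 2 := by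
  induction N with
  | zero => rw [tau_00]; norm_num
  | succ N ih =>
    have hj : (0 : ℝ) ≤ N := Nat.cast_nonneg N
    have h : (2 * ((N : ℝ) + 1) + 6) * ((2 * (N : ℝ) + 3) ^ 2 * (((0 : ℕ) : ℝ) + N + 2) * ((N : ℝ) + 2) /
        (((N : ℝ) + 3) * ((N : ℝ) + 1) * (((0 : ℕ) : ℝ) + 2 * N + 4) * (((0 : ℕ) : ℝ) + 2 * N + 5))) ≤
        2 * N + 5 := by
      rw [← mul_div_assoc, div_le_iff₀ (by positivity), Nat.cast_zero, ← sub_nonneg]
      ring_nf
      positivity
    rw [sum_range_succ, tau_j]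
    push_cast at h ⊢
    nlinarith [mul_le_mul_of_nonneg_left h (tau_pos 0 N).le]

lemma sum_tau_le (n N : ℕ) : ∑ j ∈ range N, tau n j ≤ 1 / 2 := by
  have h1 := sum_tau N
  have h2 : 0 ≤ (2 * (N : ℝ) + 6) * tau 0 N := mul_nonneg (by positivity) (tau_pos 0 N).le
  have h3 : ∑ j ∈ range N, tau n j ≤ ∑ j ∈ range N, tau 0 j := sum_le_sum fun j _ => tau_le n j
  linarith

lemma summable_tau (n : ℕ) : Summable (tau n) :=
  summable_of_sum_range_le (fun j => (tau_pos n j).le) (sum_tau_le n)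

/-- The moments of the density. -/
noncomputable def mu (n : ℕ) : ℝ := ∑' j, tau n j

lemma mu_le (n : ℕ) : mu n ≤ 1 / 2 :=
  Real.tsum_le_of_sum_range_le (fun j => (tau_pos n j).le) (sum_tau_le n)

lemma tau_sq (j : ℕ) : tau 0 j ^ 2 * ((j : ℝ) + 3) ^ 3 ≤ 1 := by
  induction j with
  | zero => rw [tau_00]; norm_num
  | succ N ih =>
    have hj : (0 : ℝ) ≤ N := Nat.cast_nonneg N
    have h : ((2 * (N : ℝ) + 3) ^ 2 * (((0 : ℕ) : ℝ) + N + 2) * ((N : ℝ) + 2) /
        (((N : ℝ) + 3) * ((N : ℝ) + 1) * (((0 : ℕ) : ℝ) + 2 * N + 4) * (((0 : ℕ) : ℝ) + 2 * N + 5))) ^ 2 *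
        ((N : ℝ) + 1 + 3) ^ 3 ≤ ((N : ℝ) + 3) ^ 3 := by
      rw [div_pow, div_mul_eq_mul_div, div_le_iff₀ (by positivity), Nat.cast_zero, ← sub_nonneg]
      ring_nf
      positivity
    rw [tau_j, mul_pow, mul_assoc]
    push_cast at h ⊢
    exact (mul_le_mul_of_nonneg_left h (sq_nonneg _)).trans ih

lemma tau_lim : Tendsto (fun j : ℕ => ((j : ℝ) + 3) * tau 0 j) atTop (𝓝 0) := by
  have h1 : Tendsto (fun j : ℕ => (((j : ℝ) + 3) * tau 0 j) ^ 2) atTop (𝓝 0) := by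
    refine squeeze_zero (fun j => sq_nonneg _) (fun j => ?_) tendsto_one_div_add_atTop_nhds_zero_nat
    have hj : (0 : ℝ) ≤ j := Nat.cast_nonneg j
    rw [le_div_iff₀ (by positivity)]
    nlinarith [tau_sq j, sq_nonneg (((j : ℝ) + 3) * tau 0 j)]
  have h2 := h1.sqrt
  rw [Real.sqrt_zero] at h2
  refine h2.congr fun j => Real.sqrt_sq (mul_nonneg (by positivity) (tau_pos 0 j).le)

/-- The certificate. -/
noncomputable def cert (m j : ℕ) : ℝ :=
  ((j : ℝ) + 2) * (((((m : ℝ) + 2) ^ 2 + 1) * j + ((m : ℝ) + 2) * ((m : ℝ) + 3))) / ((j : ℝ) + 1) *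
    tau m j

lemma cert_step (m j : ℕ) :
    2 * ((m : ℝ) + 2) ^ 2 * ((m : ℝ) + 1) * tau (m + 2) j -
      (3 * ((m : ℝ) + 2) ^ 2 - ((m : ℝ) + 2) - 1) * ((m : ℝ) + 1) * tau (m + 1) j +
      ((m : ℝ) + 2) ^ 2 * m * tau m j = cert m (j + 1) - cert m j := by
  unfold cert
  rw [tau_n (m + 1), tau_n m, tau_j]
  push_cast
  field_simp
  ring

lemma cert_zero (m : ℕ) : cert m 0 = 1 := by
  unfold cert
  rw [tau_n0]
  push_cast
  field_simp
  ring

lemma cert_lim (m : ℕ) : Tendsto (cert m) atTop (𝓝 0) := by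
  have h := tau_lim.const_mul (2 * (((m : ℝ) + 3) ^ 2))
  rw [mul_zero] at h
  refine squeeze_zero (fun j => ?_) (fun j => ?_) h
  · exact mul_nonneg (by positivity) (tau_pos m j).le
  · have hj : (0 : ℝ) ≤ j := Nat.cast_nonneg j
    have hm : (0 : ℝ) ≤ m := Nat.cast_nonneg m
    rw [← mul_assoc]
    refine mul_le_mul ?_ (tau_le m j) (tau_pos m j).le (by positivity)
    rw [div_le_iff₀ (by positivity), ← sub_nonneg]
    ring_nf
    positivity

lemma mu_rec (m : ℕ) :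
    2 * ((m : ℝ) + 2) ^ 2 * ((m : ℝ) + 1) * mu (m + 2) -
      (3 * ((m : ℝ) + 2) ^ 2 - ((m : ℝ) + 2) - 1) * ((m : ℝ) + 1) * mu (m + 1) +
      ((m : ℝ) + 2) ^ 2 * m * mu m = -1 := by
  have h1 := ((((summable_tau (m + 2)).hasSum.mul_left (2 * ((m : ℝ) + 2) ^ 2 * ((m : ℝ) + 1))).sub
    ((summable_tau (m + 1)).hasSum.mul_left
      ((3 * ((m : ℝ) + 2) ^ 2 - ((m : ℝ) + 2) - 1) * ((m : ℝ) + 1)))).add
    ((summable_tau m).hasSum.mul_left (((m : ℝ) + 2) ^ 2 * m))).tendsto_sum_nat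
  simp only [cert_step, sum_range_sub, cert_zero] at h1
  have h2 := (cert_lim m).sub_const 1
  rw [zero_sub] at h2
  exact tendsto_nhds_unique h1 h2

lemma rep (V : ℕ → ℝ) (h1 : V 1 = 8)
    (hV : ∀ m : ℕ, V (m + 2) =
      8 * (3 * ((m : ℝ) + 2) ^ 2 - ((m : ℝ) + 2) - 1) / ((m : ℝ) + 2) ^ 2 * V (m + 1) -
        128 * (m : ℝ) / ((m : ℝ) + 1) * V m) :
    ∃ la : ℝ, 0 < la ∧ ∀ n : ℕ, V (n + 1) = la * 16 ^ (n + 1) * (1 - mu (n + 1)) := by
  have hm : 0 < 1 - mu 1 := by linarith [mu_le 1]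
  refine ⟨1 / (2 * (1 - mu 1)), by positivity, ?_⟩
  have key : ∀ m : ℕ, 1 - mu (m + 2) =
      (3 * ((m : ℝ) + 2) ^ 2 - ((m : ℝ) + 2) - 1) / (2 * ((m : ℝ) + 2) ^ 2) * (1 - mu (m + 1)) -
        (m : ℝ) / (2 * ((m : ℝ) + 1)) * (1 - mu m) := by
    intro m
    have := mu_rec m
    field_simp
    linear_combination (-1 : ℝ) * this
  have e1 : V 1 = 1 / (2 * (1 - mu 1)) * 16 ^ 1 * (1 - mu 1) := by
    rw [h1]; field_simp; norm_num
  intro n
  induction n using Nat.strong_induction_on with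
  | _ n ih =>
    match n with
    | 0 => exact e1
    | 1 =>
      have a := hV 0
      have b := key 0
      simp only [Nat.cast_zero, zero_add] at a b
      rw [a, b, e1]
      ring
    | k + 2 =>
      have a := hV (k + 1)
      have b := key (k + 1)
      rw [a, b, ih (k + 1) (by omega), ih k (by omega)]
      push_cast
      field_simp
      ring

end Pool.Agent.P.MP_e3a7ef_co.Mo
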