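import Mathlib

/-! Moment sequences of absolutely continuous measures on a compact interval, and the
operator `x i * x (i + 2) - x (i + 1) ^ 2`. -/

open MeasureTheory Set

namespace Pool.Agent.P.MP_e3a7ef_co.Mo

lemma integrable_of_cont {X : Type*} [TopologicalSpace X] [T2Space X] [MeasurableSpace X]
    [OpensMeasurableSpace X] {σ : Measure X} [IsFiniteMeasure σ] {K : Set X} (hK : IsCompact K)
    (h : ∀ᵐ x ∂σ, x ∈ K) {f : X → ℝ} (hf : Continuous f) : Integrable f σ := by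
  have := hf.continuousOn.integrableOn_compact (μ := σ) hK
  rwa [IntegrableOn, Measure.restrict_eq_self_of_ae_mem h] at this

lemma ae_prod_mem {σ : Measure ℝ} [IsFiniteMeasure σ] {K : Set ℝ}
    (h : ∀ᵐ x ∂σ, x ∈ K) : ∀ᵐ p ∂σ.prod σ, p ∈ K ×ˢ K := by
  have h1 : ∀ᵐ p ∂σ.prod σ, p.1 ∈ K := Measure.quasiMeasurePreserving_fst.ae h
  have h2 : ∀ᵐ p ∂σ.prod σ, p.2 ∈ K := Measure.quasiMeasurePreserving_snd.ae h
  filter_upwards [h1, h2] with p a b using ⟨a, b⟩

/-- The measure that represents the image sequence. -/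
noncomputable def lm (σ : Measure ℝ) : Measure ℝ :=
  Measure.map (fun p : ℝ × ℝ => p.1 * p.2)
    ((σ.prod σ).withDensity fun p => ENNReal.ofReal ((p.1 - p.2) ^ 2 / 2))

variable {σ : Measure ℝ} [IsFiniteMeasure σ] {R : ℝ}

lemma lm_finite (h : ∀ᵐ x ∂σ, x ∈ Icc 0 R) : IsFiniteMeasure (lm σ) := by
  have := isFiniteMeasure_withDensity_ofReal (μ := σ.prod σ) (f := fun p => (p.1 - p.2) ^ 2 / 2)
    (integrable_of_cont (isCompact_Icc.prod isCompact_Icc) (ae_prod_mem h)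
      (by fun_prop)).2
  unfold lm
  infer_instance

lemma lm_mem (h : ∀ᵐ x ∂σ, x ∈ Icc 0 R) : ∀ᵐ x ∂lm σ, x ∈ Icc 0 (R ^ 2) := by
  unfold lm
  refine (ae_map_iff (p := fun x => x ∈ Icc 0 (R ^ 2)) (by fun_prop) measurableSet_Icc).mpr ?_
  refine (withDensity_absolutelyContinuous _ _).ae_le ?_
  filter_upwards [ae_prod_mem h] with p hp
  obtain ⟨⟨a, b⟩, c, d⟩ := hp
  exact ⟨mul_nonneg a c, by rw [sq]; exact mul_le_mul b d c (a.trans b)⟩

lemma lm_integral (h : ∀ᵐ x ∂σ, x ∈ Icc 0 R) (k : ℕ) :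
    ∫ x, x ^ k ∂lm σ =
      (∫ x, x ^ k ∂σ) * (∫ x, x ^ (k + 2) ∂σ) - (∫ x, x ^ (k + 1) ∂σ) ^ 2 := by
  have hI : ∀ a b : ℕ, Integrable (fun p : ℝ × ℝ => p.1 ^ a * p.2 ^ b) (σ.prod σ) := fun a b =>
    integrable_of_cont (isCompact_Icc.prod isCompact_Icc) (ae_prod_mem h)
      (by fun_prop)
  unfold lm
  rw [integral_map (by fun_prop) (by fun_prop),
    integral_withDensity_eq_integral_toReal_smul (by fun_prop) (by simp)]
  have e : ∀ p : ℝ × ℝ, (ENNReal.ofReal ((p.1 - p.2) ^ 2 / 2)).toReal • (p.1 * p.2) ^ k =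
      (1 / 2 * (p.1 ^ (k + 2) * p.2 ^ k) + 1 / 2 * (p.1 ^ k * p.2 ^ (k + 2))) -
        p.1 ^ (k + 1) * p.2 ^ (k + 1) := fun p => by
    rw [ENNReal.toReal_ofReal (by positivity), smul_eq_mul]; ring
  simp only [e]
  have hs : Integrable (fun p : ℝ × ℝ =>
      1 / 2 * (p.1 ^ (k + 2) * p.2 ^ k) + 1 / 2 * (p.1 ^ k * p.2 ^ (k + 2))) (σ.prod σ) :=
    ((hI _ _).const_mul _).add ((hI _ _).const_mul _)
  rw [integral_sub hs (hI _ _),
    integral_add ((hI _ _).const_mul _) ((hI _ _).const_mul _), integral_const_mul,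
    integral_const_mul, integral_prod_mul (fun x : ℝ => x ^ (k + 2)) (fun x : ℝ => x ^ k),
    integral_prod_mul (fun x : ℝ => x ^ k) (fun x : ℝ => x ^ (k + 2)),
    integral_prod_mul (fun x : ℝ => x ^ (k + 1)) (fun x : ℝ => x ^ (k + 1))]
  ring

lemma ae_ne_of_ac {τ : Measure ℝ} (h : τ ≪ volume) (c : ℝ) : ∀ᵐ x ∂τ, x ≠ c :=
  h.ae_le (show ∀ᵐ x ∂(volume : Measure ℝ), x ≠ c by simp [ae_iff])

lemma lm_ac (h : σ ≪ volume) : lm σ ≪ volume := by
  refine Measure.AbsolutelyContinuous.mk fun N hN h0 => ?_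
  unfold lm
  have hm : Measurable fun p : ℝ × ℝ => p.1 * p.2 := by fun_prop
  rw [Measure.map_apply hm hN]
  refine withDensity_absolutelyContinuous _ _ ?_
  rw [Measure.measure_prod_null (hm hN)]
  filter_upwards [ae_ne_of_ac h 0] with s hs
  refine h ?_
  have := Real.volume_preimage_mul_left hs N
  rw [h0, mul_zero] at this
  exact this

lemma lm_ne (h : σ ≪ volume) (h0 : σ ≠ 0) : lm σ ≠ 0 := by
  intro hz
  unfold lm at hz
  rw [Measure.map_eq_zero_iff (by fun_prop), withDensity_eq_zero_iff (by fun_prop)] at hz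
  have h1 : ∀ᵐ p ∂σ.prod σ, p.2 ≠ p.1 := by
    refine (Measure.ae_prod_iff_ae_ae (p := fun p : ℝ × ℝ => p.2 ≠ p.1)
      (measurableSet_eq_fun measurable_snd measurable_fst).compl).mpr ?_
    exact Filter.Eventually.of_forall fun s => ae_ne_of_ac h s
  have h2 : ∀ᵐ p ∂σ.prod σ, False := by
    filter_upwards [h1, hz] with p a b
    have : 0 < (p.1 - p.2) ^ 2 / 2 := by
      have := sub_ne_zero.mpr a.symm
      positivity
    rw [Pi.zero_apply, ENNReal.ofReal_eq_zero] at b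
    linarith
  rw [Filter.eventually_false_iff_eq_bot, ae_eq_bot] at h2
  have h3 := congrArg (fun m : Measure (ℝ × ℝ) => m (univ ×ˢ univ)) h2
  simp only [Measure.prod_prod, Measure.coe_zero, Pi.zero_apply, mul_self_eq_zero,
    Measure.measure_univ_eq_zero] at h3
  exact h0 h3

lemma moment_pos (hm : ∀ᵐ x ∂σ, x ∈ Icc 0 R) (h : σ ≪ volume) (h0 : σ ≠ 0) (k : ℕ) :
    0 < ∫ x, x ^ k ∂σ := by
  have h1 : 0 ≤ᵐ[σ] fun x : ℝ => x ^ k := by
    filter_upwards [hm] with x hx using pow_nonneg hx.1 k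
  have hi : Integrable (fun x : ℝ => x ^ k) σ := integrable_of_cont isCompact_Icc hm (by fun_prop)
  refine (integral_nonneg_of_ae h1).lt_of_ne fun hz => ?_
  have h2 := (integral_eq_zero_iff_of_nonneg_ae h1 hi).mp hz.symm
  have h3 : ∀ᵐ x ∂σ, False := by
    filter_upwards [h2, ae_ne_of_ac h 0] with x a b
    exact pow_ne_zero k b a
  rw [Filter.eventually_false_iff_eq_bot, ae_eq_bot] at h3
  exact h0 h3

end Pool.Agent.P.MP_e3a7ef_co.Mo
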