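import Mathlib

set_option autoImplicit false

namespace Pool.Agent.P.MP_e3a7ef_co.Mom

theorem key_low (u : ℝ) (h0 : 0 ≤ u) (h1 : u ≤ 49 / 100) :
    1 - u / (7 / 10) ≤ (1 - u) ^ 3 * (1 + 3 * (u * (1 - u)) + 75 / 8 * (u * (1 - u)) ^ 2) := by
  have h2 : 0 ≤ 49 / 100 - u := by linarith
  have e : (1 - u) ^ 3 * (1 + 3 * (u * (1 - u)) + 75 / 8 * (u * (1 - u)) ^ 2) - (1 - u / (7 / 10))
      = u * (10 / 7 + 3 / 8 * u - 239 / 8 * u ^ 2 + 327 / 4 * u ^ 3 - 363 / 4 * u ^ 4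
        + 375 / 8 * u ^ 5 - 75 / 8 * u ^ 6) := by ring
  have p : 0 ≤ 10 / 7 + 3 / 8 * u - 239 / 8 * u ^ 2 + 327 / 4 * u ^ 3 - 363 / 4 * u ^ 4
        + 375 / 8 * u ^ 5 - 75 / 8 * u ^ 6 := by
    nlinarith [mul_nonneg h0 h2, mul_nonneg (mul_nonneg h0 h0) h2, mul_nonneg (mul_nonneg h0 h2) h2,
      mul_nonneg (pow_nonneg h0 2) (pow_nonneg h2 2), mul_nonneg (pow_nonneg h0 3) h2,
      mul_nonneg h0 (pow_nonneg h2 3), mul_nonneg (pow_nonneg h0 3) (pow_nonneg h2 2),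
      mul_nonneg (pow_nonneg h0 2) (pow_nonneg h2 3), mul_nonneg (pow_nonneg h0 4) h2,
      mul_nonneg (pow_nonneg h0 3) (pow_nonneg h2 3), mul_nonneg (pow_nonneg h0 4) (pow_nonneg h2 2),
      mul_nonneg (pow_nonneg h0 5) h2, pow_nonneg h0 6, pow_nonneg h2 6,
      mul_nonneg h0 (pow_nonneg h2 5), mul_nonneg (pow_nonneg h0 2) (pow_nonneg h2 4)]
  have := mul_nonneg h0 p
  linarith

theorem key_high (s t : ℝ) (hs1 : s < 1) (ht0 : 0 < t) (hts : t ≤ s)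
    (hu : 49 / 100 ≤ s * t) :
    (s - t) ^ 2 * (1 - s) * (1 - t) ≤
      2 * ((1 - s * t) ^ 3 * (1 + 3 * (s * t * (1 - s * t)) + 75 / 8 * (s * t * (1 - s * t)) ^ 2)) *
        ((s * (1 - 2 * t)) ^ 2 * (1 - s) + (t * (1 - 2 * s)) ^ 2 * (1 - t)) := by
  have hs0 : 0 < s := lt_of_lt_of_le ht0 hts
  have ht1 : t < 1 := lt_of_le_of_lt hts hs1
  have hs7 : 7 / 10 ≤ s := by
    by_contra h
    rw [not_le] at h
    nlinarith
  have hut : s * t ≤ t := by nlinarith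
  have hB : 28 / 100 ≤ t * (2 * s - 1) := by
    have h1 : 28 / 100 * s ≤ t * (2 * s - 1) * s := by nlinarith
    exact le_of_mul_le_mul_right h1 hs0
  have hB2 : (28 / 100 : ℝ) ^ 2 ≤ (t * (1 - 2 * s)) ^ 2 := by nlinarith
  have ha : 0 ≤ 1 - s := by linarith
  have hb : 0 ≤ 1 - t := by linarith
  have hc : (s - t) ^ 2 * (1 - s) ≤ 4 / 27 * (1 - t) ^ 3 := by
    have h1 : 0 ≤ ((1 - t) - 3 * (1 - s)) ^ 2 * (4 * (1 - t) - 3 * (1 - s)) :=
      mul_nonneg (sq_nonneg _) (by linarith)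
    nlinarith
  have hbu : (1 - t) ^ 3 ≤ (1 - s * t) ^ 3 := pow_le_pow_left₀ hb (by linarith) 3
  have hu1 : 0 ≤ 1 - s * t := by linarith
  have hw : 0 ≤ s * t * (1 - s * t) := mul_nonneg (by positivity) hu1
  have hq : (1 - s * t) ^ 3 ≤
      (1 - s * t) ^ 3 * (1 + 3 * (s * t * (1 - s * t)) + 75 / 8 * (s * t * (1 - s * t)) ^ 2) :=
    le_mul_of_one_le_right (pow_nonneg hu1 3) (by nlinarith [sq_nonneg (s * t * (1 - s * t))])
  have hR : (28 / 100 : ℝ) ^ 2 * (1 - t) ≤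
      (s * (1 - 2 * t)) ^ 2 * (1 - s) + (t * (1 - 2 * s)) ^ 2 * (1 - t) := by
    have h1 := mul_le_mul_of_nonneg_right hB2 hb
    have h2 : 0 ≤ (s * (1 - 2 * t)) ^ 2 * (1 - s) := mul_nonneg (sq_nonneg _) ha
    linarith
  have h3 : 0 ≤ (1 - s * t) ^ 3 := pow_nonneg hu1 3
  calc (s - t) ^ 2 * (1 - s) * (1 - t) ≤ 4 / 27 * (1 - s * t) ^ 3 * (1 - t) :=
        mul_le_mul_of_nonneg_right (by linarith) hb
    _ ≤ 2 * (1 - s * t) ^ 3 * ((28 / 100 : ℝ) ^ 2 * (1 - t)) := by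
        have := mul_nonneg h3 hb
        nlinarith
    _ ≤ _ := by
        apply mul_le_mul (by linarith) hR (mul_nonneg (by norm_num) hb)
        linarith

/-- The polynomial inequality of step 5. -/
theorem key_poly (s t : ℝ) (hs0 : 0 < s) (hs1 : s < 1) (ht0 : 0 < t) (ht1 : t < 1) :
    (s - t) ^ 2 * (1 - s) * (1 - t) ≤
      2 * ((1 - s * t) ^ 3 * (1 + 3 * (s * t * (1 - s * t)) + 75 / 8 * (s * t * (1 - s * t)) ^ 2)) *
        ((s * (1 - 2 * t)) ^ 2 * (1 - s) + (t * (1 - 2 * s)) ^ 2 * (1 - t)) := by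
  rcases le_total (s * t) (49 / 100) with hu | hu
  · have hu0 : 0 ≤ s * t := by positivity
    have hq := key_low (s * t) hu0 hu
    have ha : 0 ≤ 1 - s := by linarith
    have hb : 0 ≤ 1 - t := by linarith
    have hS : 0 ≤ (s * (1 - 2 * t)) ^ 2 * (1 - s) + (t * (1 - 2 * s)) ^ 2 * (1 - t) :=
      add_nonneg (mul_nonneg (sq_nonneg _) ha) (mul_nonneg (sq_nonneg _) hb)
    have h1 : (s - t) ^ 2 * (1 - s) * (1 - t) ≤ ((1 - s) + (1 - t)) *
        ((s * (1 - 2 * t)) ^ 2 * (1 - s) + (t * (1 - 2 * s)) ^ 2 * (1 - t)) := by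
      have e : ((1 - s) + (1 - t)) *
          ((s * (1 - 2 * t)) ^ 2 * (1 - s) + (t * (1 - 2 * s)) ^ 2 * (1 - t))
          - (s - t) ^ 2 * (1 - s) * (1 - t)
          = (s * (1 - 2 * t) * (1 - s) + t * (1 - 2 * s) * (1 - t)) ^ 2 := by ring
      have := sq_nonneg (s * (1 - 2 * t) * (1 - s) + t * (1 - 2 * s) * (1 - t))
      linarith
    have h2 : 2 * (s * t / (7 / 10)) ≤ s + t := by
      have h4 : (2 * (s * t / (7 / 10))) ^ 2 ≤ (s + t) ^ 2 := by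
        have h5 : (2 * (s * t / (7 / 10))) ^ 2 = 4 * (s * t) * ((s * t) / (49 / 100)) := by ring
        have h6 : (s * t) / (49 / 100) ≤ 1 := by
          rw [div_le_one (by norm_num)]
          exact hu
        have h7 : 4 * (s * t) * ((s * t) / (49 / 100)) ≤ 4 * (s * t) :=
          mul_le_of_le_one_right (by positivity) h6
        nlinarith [sq_nonneg (s - t)]
      exact le_of_sq_le_sq (by simpa using h4) (by positivity) |> fun h => h
    exact h1.trans (mul_le_mul_of_nonneg_right (by linarith) hS)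
  · rcases le_total t s with h | h
    · exact key_high s t hs1 ht0 h hu
    · have h1 := key_high t s ht1 hs0 h (by rwa [mul_comm])
      rw [mul_comm t s] at h1
      have e1 : (t - s) ^ 2 * (1 - t) * (1 - s) = (s - t) ^ 2 * (1 - s) * (1 - t) := by ring
      rw [e1, add_comm ((t * (1 - 2 * s)) ^ 2 * (1 - t))] at h1
      exact h1

end Pool.Agent.P.MP_e3a7ef_co.Mom
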