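import Pool.Agent.P.MP_e3a7ef_co.MoA
import Pool.Agent.P.MP_e3a7ef_co.MoB
import Pool.Agent.P.MP_e3a7ef_co.MoK

/-! The density, its moments and the domination of the product measure. -/

open MeasureTheory Set

namespace Pool.Agent.P.MP_e3a7ef_co.Mo

/-- The series, with values in the extended reals. -/
noncomputable def g (t : ℝ) : ENNReal := ∑' j, ENNReal.ofReal (co j * (t * (1 - t)) ^ j)

lemma g_meas : Measurable g := Measurable.tsum fun j => by fun_prop

/-- Lebesgue measure on the unit interval. -/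
noncomputable abbrev un : Measure ℝ := volume.restrict (Ioo 0 1)

lemma un_mem : ∀ᵐ t ∂un, t ∈ Ioo (0 : ℝ) 1 := ae_restrict_mem measurableSet_Ioo

lemma un_ac : un ≪ volume := Measure.absolutelyContinuous_of_le Measure.restrict_le_self

lemma lint_mu (n : ℕ) :
    ∫⁻ t, ENNReal.ofReal (t ^ n * (t * (1 - t))) * g t ∂un = ENNReal.ofReal (mu n) := by
  have e : ∀ᵐ t ∂un, ENNReal.ofReal (t ^ n * (t * (1 - t))) * g t =
      ∑' j, ENNReal.ofReal (co j * (t ^ (n + j + 1) * (1 - t) ^ (j + 1))) := by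
    filter_upwards [un_mem] with t ht
    have h0 := ht.1
    have h1 := sub_pos.mpr ht.2
    rw [g, ← ENNReal.tsum_mul_left]
    refine tsum_congr fun j => ?_
    rw [← ENNReal.ofReal_mul (by positivity), mul_pow]
    congr 1
    ring
  rw [lintegral_congr_ae e, lintegral_tsum (fun j => by fun_prop), mu,
    ENNReal.ofReal_tsum_of_nonneg (fun j => (tau_pos n j).le) (summable_tau n)]
  refine tsum_congr fun j => ?_
  rw [← ofReal_integral_eq_lintegral_ofReal, integral_const_mul, ← integral_Ioc_eq_integral_Ioo,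
    ← intervalIntegral.integral_of_le zero_le_one, integral_be, tau]
  · exact integrable_of_cont isCompact_Icc (un_mem.mono fun t ht => Ioo_subset_Icc_self ht)
      (by fun_prop)
  · filter_upwards [un_mem] with t ht
    have h0 := ht.1
    have h1 := sub_pos.mpr ht.2
    have h2 := co_pos j
    positivity

/-- The density times `t`. -/
noncomputable def r (t : ℝ) : ENNReal := ENNReal.ofReal (t * (t * (1 - t))) * g t

lemma r_meas : Measurable r := by
  have := g_meas
  unfold r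
  fun_prop

/-- The measure with moments `mu (k + 1)`. -/
noncomputable def rho : Measure ℝ := un.withDensity r

lemma rho_lint (k : ℕ) : ∫⁻ x, ENNReal.ofReal (x ^ k) ∂rho = ENNReal.ofReal (mu (k + 1)) := by
  rw [rho, lintegral_withDensity_eq_lintegral_mul _ r_meas (by fun_prop), ← lint_mu]
  refine lintegral_congr_ae ?_
  filter_upwards [un_mem] with t ht
  have h0 := ht.1
  have h1 := sub_pos.mpr ht.2
  rw [Pi.mul_apply, r, mul_right_comm, ← ENNReal.ofReal_mul (by positivity)]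
  congr 2
  ring

instance rho_finite : IsFiniteMeasure rho := ⟨by
  have := rho_lint 0
  simp only [pow_zero, ENNReal.ofReal_one, lintegral_const, one_mul] at this
  rw [this]
  exact ENNReal.ofReal_lt_top⟩

lemma rho_ac : rho ≪ un := withDensity_absolutelyContinuous _ _

lemma rho_mem : ∀ᵐ x ∂rho, x ∈ Icc (0 : ℝ) 1 :=
  rho_ac.ae_le (un_mem.mono fun _ ht => Ioo_subset_Icc_self ht)

lemma rho_int (k : ℕ) : ∫ x, x ^ k ∂rho = mu (k + 1) := by
  rw [integral_eq_lintegral_of_nonneg_ae (rho_mem.mono fun x hx => pow_nonneg hx.1 k)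
    (by fun_prop), rho_lint]
  exact ENNReal.toReal_ofReal (tsum_nonneg fun j => (tau_pos _ j).le)

/-- The positive part. -/
noncomputable def s1 : Measure ℝ := rho.withDensity fun u => ENNReal.ofReal ((1 - u) ^ 2)

instance s1_finite : IsFiniteMeasure s1 :=
  isFiniteMeasure_withDensity_ofReal (integrable_of_cont isCompact_Icc rho_mem (by fun_prop)).2

lemma s1_ac : s1 ≪ rho := withDensity_absolutelyContinuous _ _

lemma s1_int (k : ℕ) : ∫ x, x ^ k ∂s1 = mu (k + 1) - 2 * mu (k + 2) + mu (k + 3) := by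
  have hI : ∀ a : ℕ, Integrable (fun x : ℝ => x ^ a) rho := fun a =>
    integrable_of_cont isCompact_Icc rho_mem (by fun_prop)
  have hs : Integrable (fun x : ℝ => x ^ k - 2 * x ^ (k + 1)) rho := (hI _).sub ((hI _).const_mul _)
  have e : ∀ x : ℝ, (ENNReal.ofReal ((1 - x) ^ 2)).toReal • x ^ k =
      (x ^ k - 2 * x ^ (k + 1)) + x ^ (k + 2) := fun x => by
    rw [ENNReal.toReal_ofReal (by positivity), smul_eq_mul]; ring
  rw [s1, integral_withDensity_eq_integral_toReal_smul (by fun_prop) (by simp)]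
  simp only [e]
  rw [integral_add hs (hI _), integral_sub (hI _) ((hI _).const_mul _), integral_const_mul,
    rho_int, rho_int, rho_int]

lemma g_real {t : ℝ} (ht : t ∈ Ioo (0 : ℝ) 1) (h : t ≠ 1 / 2) :
    ∃ x : ℝ, 0 ≤ x ∧ g t = ENNReal.ofReal x ∧ x * (1 - 2 * t) ^ 2 ≤ 1 / 2 := by
  have h0 := ht.1
  have h1 := sub_pos.mpr ht.2
  have hp : 0 < (1 - 2 * t) ^ 2 := by
    have : 1 - 2 * t ≠ 0 := fun hz => h (by linarith)
    positivity
  have hw : 4 * (t * (1 - t)) < 1 := by nlinarith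
  have hs := (hasSum_geometric_of_lt_one (by positivity) hw).div_const 2
  have hle : g t ≤ ENNReal.ofReal ((1 - 4 * (t * (1 - t)))⁻¹ / 2) := by
    rw [← hs.tsum_eq, ENNReal.ofReal_tsum_of_nonneg (fun j => by positivity) hs.summable]
    refine ENNReal.tsum_le_tsum fun j => ENNReal.ofReal_le_ofReal ?_
    rw [mul_pow 4]
    calc _ ≤ 4 ^ j / 2 * (t * (1 - t)) ^ j := mul_le_mul_of_nonneg_right (co_le j) (by positivity)
      _ = _ := by ring
  have e : 1 - 4 * (t * (1 - t)) = (1 - 2 * t) ^ 2 := by ring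
  rw [e] at hle
  refine ⟨(g t).toReal, ENNReal.toReal_nonneg,
    (ENNReal.ofReal_toReal (ne_top_of_le_ne_top ENNReal.ofReal_ne_top hle)).symm, ?_⟩
  have h2 := ENNReal.toReal_le_of_le_ofReal (by positivity) hle
  calc _ ≤ ((1 - 2 * t) ^ 2)⁻¹ / 2 * (1 - 2 * t) ^ 2 := mul_le_mul_of_nonneg_right h2 hp.le
    _ = _ := by rw [div_mul_eq_mul_div, inv_mul_cancel₀ hp.ne']

lemma g_low {u : ℝ} (hu : u ∈ Ioo (0 : ℝ) 1) :
    ENNReal.ofReal ((1 + 3 * (u * (1 - u)) + 75 / 8 * (u * (1 - u)) ^ 2) / 2) ≤ g u := by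
  have h0 := hu.1
  have h1 := sub_pos.mpr hu.2
  have := ENNReal.sum_le_tsum (f := fun j => ENNReal.ofReal (co j * (u * (1 - u)) ^ j))
    (Finset.range 3)
  rw [← ENNReal.ofReal_sum_of_nonneg (fun j _ => by have := co_pos j; positivity)] at this
  refine le_trans (ENNReal.ofReal_le_ofReal (le_of_eq ?_)) this
  simp only [Finset.sum_range_succ, Finset.sum_range_zero, co_zero, co_one, co_two]
  ring

lemma key {s t : ℝ} (hs : s ∈ Ioo (0 : ℝ) 1) (ht : t ∈ Ioo (0 : ℝ) 1) (hs' : s ≠ 1 / 2)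
    (ht' : t ≠ 1 / 2) :
    r s * r t * ENNReal.ofReal ((s - t) ^ 2 / 2) ≤
      r (s * t) * ENNReal.ofReal ((1 - s * t) ^ 2) * (r s + r t) := by
  obtain ⟨x, hx0, hx, hx1⟩ := g_real hs hs'
  obtain ⟨y, hy0, hy, hy1⟩ := g_real ht ht'
  have s0 := hs.1
  have s1 := sub_pos.mpr hs.2
  have t0 := ht.1
  have t1 := sub_pos.mpr ht.2
  have hu : s * t ∈ Ioo (0 : ℝ) 1 := ⟨by positivity, by nlinarith⟩
  have u1 := sub_pos.mpr hu.2
  have K := Mom.key_poly s t hs.1 hs.2 ht.1 ht.2
  have ea : r s = ENNReal.ofReal (s * (s * (1 - s)) * x) := by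
    rw [r, hx, ← ENNReal.ofReal_mul (by positivity)]
  have eb : r t = ENNReal.ofReal (t * (t * (1 - t)) * y) := by
    rw [r, hy, ← ENNReal.ofReal_mul (by positivity)]
  have ec : ENNReal.ofReal (s * t * (s * t * (1 - s * t)) *
      ((1 + 3 * (s * t * (1 - s * t)) + 75 / 8 * (s * t * (1 - s * t)) ^ 2) / 2)) ≤ r (s * t) := by
    rw [r, ENNReal.ofReal_mul (by positivity)]
    exact mul_le_mul_right (g_low hu) _
  refine le_trans ?_ (mul_le_mul_left (mul_le_mul_left ec _) _)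
  rw [ea, eb, ← ENNReal.ofReal_add (by positivity) (by positivity),
    ← ENNReal.ofReal_mul (by positivity), ← ENNReal.ofReal_mul (by positivity),
    ← ENNReal.ofReal_mul (by positivity), ← ENNReal.ofReal_mul (by positivity)]
  refine ENNReal.ofReal_le_ofReal ?_
  have h1 := mul_le_mul_of_nonneg_left K (show 0 ≤ (s * t) ^ 2 * x * y / 2 by positivity)
  have h2 := mul_le_mul_of_nonneg_left hy1 (show 0 ≤ s * (s * (1 - s)) * x by positivity)
  have h3 := mul_le_mul_of_nonneg_left hx1 (show 0 ≤ t * (t * (1 - t)) * y by positivity)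
  have h4 := mul_le_mul_of_nonneg_left (add_le_add h2 h3)
    (show 0 ≤ (1 - s * t) ^ 3 * (1 + 3 * (s * t * (1 - s * t)) +
      75 / 8 * (s * t * (1 - s * t)) ^ 2) * (s * t) ^ 2 by positivity)
  calc _ = _ := by ring
    _ ≤ _ := h1
    _ = _ := by ring
    _ ≤ _ := h4
    _ = _ := by ring

lemma dilate {φ : ℝ → ENNReal} (hφ : Measurable φ) {s : ℝ} (hs : s ∈ Ioo (0 : ℝ) 1) :
    (∫⁻ t, φ (s * t) ∂un) * ENNReal.ofReal s ≤ ∫⁻ u, φ u ∂un := by
  have h1 : ∫⁻ t, φ (s * t) ∂un ≤ ENNReal.ofReal |s⁻¹| * ∫⁻ u, φ u ∂un :=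
    calc ∫⁻ t, φ (s * t) ∂un = ∫⁻ t, (Ioo (0 : ℝ) 1).indicator φ (s * t) ∂un := by
          refine lintegral_congr_ae ?_
          filter_upwards [un_mem] with t ht
          rw [indicator_of_mem (show s * t ∈ Ioo (0 : ℝ) 1 from
            ⟨mul_pos hs.1 ht.1, by nlinarith [hs.1, hs.2, ht.1, ht.2]⟩)]
      _ ≤ ∫⁻ t, (Ioo (0 : ℝ) 1).indicator φ (s * t) :=
          lintegral_mono' Measure.restrict_le_self le_rfl
      _ = ∫⁻ u, (Ioo (0 : ℝ) 1).indicator φ u ∂(Measure.map (s * ·) volume) :=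
          (lintegral_map (hφ.indicator measurableSet_Ioo) (measurable_const_mul s)).symm
      _ = _ := by
          rw [Real.map_volume_mul_left hs.1.ne', lintegral_smul_measure,
            lintegral_indicator measurableSet_Ioo, smul_eq_mul]
  refine (mul_le_mul_left h1 _).trans (le_of_eq ?_)
  rw [mul_right_comm, ← ENNReal.ofReal_mul (abs_nonneg _), abs_of_pos (inv_pos.mpr hs.1),
    inv_mul_cancel₀ hs.1.ne', ENNReal.ofReal_one, one_mul]

lemma half {φ : ℝ → ENNReal} (hφ : Measurable φ) :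
    ∫⁻ s, ∫⁻ t, φ (s * t) * r s ∂un ∂un ≤ (∫⁻ u, φ u ∂un) * ENNReal.ofReal (1 / 2) := by
  have hg := g_meas
  calc _ ≤ ∫⁻ s, (∫⁻ u, φ u ∂un) * (ENNReal.ofReal (s ^ 0 * (s * (1 - s))) * g s) ∂un := by
        refine lintegral_mono_ae ?_
        filter_upwards [un_mem] with s hs
        rw [lintegral_mul_const _ (by fun_prop), r, ENNReal.ofReal_mul hs.1.le, pow_zero, one_mul,
          mul_assoc, ← mul_assoc]
        exact mul_le_mul_left (dilate hφ hs) _
    _ = (∫⁻ u, φ u ∂un) * ENNReal.ofReal (mu 0) := by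
        rw [lintegral_const_mul _ (by fun_prop), lint_mu]
    _ ≤ _ := mul_le_mul_right (ENNReal.ofReal_le_ofReal (mu_le 0)) _

lemma dom : lm rho ≤ s1 := by
  refine Measure.le_iff.mpr fun A hA => ?_
  have hr := r_meas
  obtain ⟨f, hf, e⟩ : ∃ f : ℝ → ENNReal, Measurable f ∧ ∀ m : Measure ℝ, m A = ∫⁻ x, f x ∂m :=
    ⟨A.indicator 1, measurable_one.indicator hA, fun m => (lintegral_indicator_one hA).symm⟩
  have hφ : Measurable fun u : ℝ => r u * ENNReal.ofReal ((1 - u) ^ 2) * f u := by fun_prop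
  have h1 : s1 A = ∫⁻ u, r u * ENNReal.ofReal ((1 - u) ^ 2) * f u ∂un := by
    rw [e, s1, lintegral_withDensity_eq_lintegral_mul _ (by fun_prop) hf, rho,
      lintegral_withDensity_eq_lintegral_mul _ hr (by fun_prop)]
    simp only [Pi.mul_apply, mul_assoc]
  have h2 : lm rho A = ∫⁻ p : ℝ × ℝ,
      r p.1 * r p.2 * ENNReal.ofReal ((p.1 - p.2) ^ 2 / 2) * f (p.1 * p.2) ∂(un.prod un) := by
    rw [e, lm, lintegral_map hf (by fun_prop),
      lintegral_withDensity_eq_lintegral_mul _ (by fun_prop) (by fun_prop), rho,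
      prod_withDensity hr hr, lintegral_withDensity_eq_lintegral_mul _ (by fun_prop) (by fun_prop)]
    simp only [Pi.mul_apply, mul_assoc]
  have hm : ∀ᵐ t ∂un, t ∈ Ioo (0 : ℝ) 1 ∩ {t | t ≠ 1 / 2} := un_mem.and (ae_ne_of_ac un_ac _)
  have h3 := half hφ
  rw [h1, h2]
  calc _ ≤ ∫⁻ p : ℝ × ℝ,
        (r (p.1 * p.2) * ENNReal.ofReal ((1 - p.1 * p.2) ^ 2) * f (p.1 * p.2) * r p.1 +
        r (p.2 * p.1) * ENNReal.ofReal ((1 - p.2 * p.1) ^ 2) * f (p.2 * p.1) * r p.2)
          ∂(un.prod un) := by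
        refine lintegral_mono_ae ?_
        filter_upwards [ae_prod_mem hm] with p hp
        refine (mul_le_mul_left (key hp.1.1 hp.2.1 hp.1.2 hp.2.2) _).trans (le_of_eq ?_)
        rw [mul_comm p.2 p.1]
        ring
    _ ≤ _ := by
        rw [lintegral_add_left (by fun_prop), lintegral_prod _ (by fun_prop),
          lintegral_prod_symm _ (by fun_prop)]
        refine (add_le_add h3 h3).trans (le_of_eq ?_)
        rw [← mul_add, ← ENNReal.ofReal_add (by norm_num) (by norm_num)]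
        norm_num

end Pool.Agent.P.MP_e3a7ef_co.Mo
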