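import Pool.Agent.P.MP_e3a7ef_co.MoC
import Pool.Agent.P.MP_e3a7ef_co.Defs

/-! The representing measures. -/

open MeasureTheory Set

namespace Pool.Agent.P.MP_e3a7ef_co.Mo

lemma base : ∃ σ : Measure ℝ, IsFiniteMeasure σ ∧ σ ≠ 0 ∧ σ ≪ volume ∧
    (∀ᵐ x ∂σ, x ∈ Icc (0 : ℝ) 256) ∧
    ∀ k : ℕ, flf (k + 2) ^ 2 - flf (k + 1) * flf (k + 3) = ∫ x, x ^ k ∂σ := by
  obtain ⟨la, hla, hV⟩ := rep flf rfl (fun m => rfl)
  have hfin := lm_finite rho_mem
  have hle : s1 - lm rho ≤ s1 := Measure.sub_le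
  have hac : s1 - lm rho ≪ rho := (Measure.absolutelyContinuous_of_le hle).trans s1_ac
  have hmem : ∀ᵐ x ∂(s1 - lm rho), x ∈ Icc (0 : ℝ) 1 := hac.ae_le rho_mem
  have hint : ∀ k : ℕ, ∫ x, x ^ k ∂(s1 - lm rho) =
      (mu (k + 1) - 2 * mu (k + 2) + mu (k + 3)) - (mu (k + 1) * mu (k + 3) - mu (k + 2) ^ 2) := by
    intro k
    have h1 := s1_int k
    rw [← Measure.sub_add_cancel_of_le dom,
      integral_add_measure (integrable_of_cont isCompact_Icc hmem (by fun_prop))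
        (integrable_of_cont isCompact_Icc (lm_mem rho_mem) (by fun_prop)),
      lm_integral rho_mem, rho_int, rho_int, rho_int] at h1
    linarith
  have hW : ∀ k : ℕ, flf (k + 2) ^ 2 - flf (k + 1) * flf (k + 3) =
      ∫ x, x ^ k ∂(ENNReal.ofReal (la ^ 2 * 256 ^ 2) •
        Measure.map (fun u : ℝ => 256 * u) (s1 - lm rho)) := by
    intro k
    have e : (256 : ℝ) ^ k = 16 ^ k * 16 ^ k := by rw [← mul_pow]; norm_num
    rw [integral_smul_measure, integral_map (by fun_prop) (by fun_prop),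
      ENNReal.toReal_ofReal (by positivity), smul_eq_mul]
    simp only [mul_pow]
    rw [integral_const_mul, hint, hV k, hV (k + 1), hV (k + 2), e]
    ring
  refine ⟨_, Measure.smul_finite _ ENNReal.ofReal_ne_top, fun hz => ?_, ?_, ?_, hW⟩
  · have h0 := hW 0
    rw [hz, integral_zero_measure] at h0
    have h2 : flf 2 = 144 := by
      rw [show flf 2 = _ from flf.eq_3 0, flf, flf]; norm_num
    have h3 : flf 3 = 2432 := by
      rw [show flf 3 = _ from flf.eq_3 1, h2, flf]; norm_num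
    rw [zero_add, zero_add, zero_add, h2, h3, flf] at h0
    norm_num at h0
  · refine Measure.smul_absolutelyContinuous.trans ?_
    refine (((hac.trans rho_ac).trans un_ac).map (by fun_prop)).trans ?_
    rw [Real.map_volume_mul_left (by norm_num)]
    exact Measure.smul_absolutelyContinuous
  · refine Measure.smul_absolutelyContinuous.ae_le ?_
    refine (ae_map_iff (p := fun x => x ∈ Icc (0 : ℝ) 256) (by fun_prop) measurableSet_Icc).mpr ?_
    filter_upwards [hmem] with x hx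
    exact ⟨by linarith [hx.1], by linarith [hx.2]⟩

theorem main (k : ℕ) : ∃ σ : Measure ℝ, IsFiniteMeasure σ ∧ σ ≠ 0 ∧ σ ≪ volume ∧
    (∀ᵐ x ∂σ, x ∈ Icc (0 : ℝ) (256 ^ 2 ^ k)) ∧
    ∀ i : ℕ, opL^[k] (fun n => flf (n + 2) ^ 2 - flf (n + 1) * flf (n + 3)) i = ∫ x, x ^ i ∂σ := by
  induction k with
  | zero => simpa using base
  | succ k ih =>
    obtain ⟨σ, h1, h2, h3, h4, h5⟩ := ih
    refine ⟨lm σ, lm_finite h4, lm_ne h3 h2, lm_ac h3, ?_, fun i => ?_⟩
    · rw [pow_succ 2 k, pow_mul]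
      exact lm_mem h4
    · rw [Function.iterate_succ_apply', opL, h5, h5, h5, lm_integral h4]

end Pool.Agent.P.MP_e3a7ef_co.Mo
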