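import Pool.Agent.P.MP_e3a7ef_co.Defs
import Pool.Agent.P.MP_e3a7ef_co.Approx

namespace Pool.Agent.P.MP_e3a7ef_co

/-- The normalised ratio of consecutive terms. -/
noncomputable def rr : ℕ → ℝ
  | 0 => 1 / 2
  | y + 1 => (3 * ((y : ℝ) + 1) ^ 2 + 5 * ((y : ℝ) + 1) + 1) / (2 * ((y : ℝ) + 1 + 1) ^ 2) -
      ((y : ℝ) + 1 - 1) / (2 * ((y : ℝ) + 1)) / rr y

/-- The ratios `x i * x (i + 2) / x (i + 1) ^ 2` along the iteration. -/
noncomputable def QQ : ℕ → ℕ → ℝ
  | 0, i => rr (i + 2) / rr (i + 1)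
  | k + 1, i => QQ k (i + 1) ^ 2 * (QQ k i - 1) * (QQ k (i + 2) - 1) / (QQ k (i + 1) - 1) ^ 2

theorem rr_one : rr 1 = 9 / 8 := by norm_num [rr]

theorem rr_bounds (y : ℕ) : 1 ≤ rr (y + 1) ∧ rr (y + 1) ≤ 9 / 8 := by
  induction y with
  | zero => rw [zero_add, rr_one]; norm_num
  | succ y ih =>
    obtain ⟨h1, h2⟩ := ih
    rw [rr]
    push_cast
    set t : ℝ := (y : ℝ) + 1 + 1 with ht
    have t2 : 2 ≤ t := by
      have : (0 : ℝ) ≤ y := Nat.cast_nonneg y
      linarith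
    have hb : 0 ≤ (t - 1) / (2 * t) := by
      apply div_nonneg <;> linarith
    constructor
    · have a1 : (t - 1) / (2 * t) / rr (y + 1) ≤ (t - 1) / (2 * t) := div_le_self hb h1
      have a2 : 1 + (t - 1) / (2 * t) ≤ (3 * t ^ 2 + 5 * t + 1) / (2 * (t + 1) ^ 2) := by
        rw [add_div' _ _ _ (by linarith), div_le_div_iff₀ (by linarith) (by positivity)]
        nlinarith
      linarith
    · have a1 : (t - 1) / (2 * t) / (9 / 8) ≤ (t - 1) / (2 * t) / rr (y + 1) := by gcongr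
      have a2 : (3 * t ^ 2 + 5 * t + 1) / (2 * (t + 1) ^ 2) ≤ 9 / 8 + (t - 1) / (2 * t) / (9 / 8) := by
        have e : 9 / 8 + (t - 1) / (2 * t) / (9 / 8) = (113 * t - 32) / (72 * t) := by
          field_simp
          ring
        rw [e, div_le_div_iff₀ (by positivity) (by linarith)]
        nlinarith [sq_nonneg (t - 2), mul_nonneg (sub_nonneg.2 t2) (sq_nonneg t)]
      linarith

theorem rr_pos (y : ℕ) : 0 < rr y := by
  rcases y with _ | y
  · norm_num [rr]
  · linarith [(rr_bounds y).1]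

theorem flf_ratio (y : ℕ) : 0 < flf y ∧ flf (y + 1) = 16 * rr y * flf y := by
  induction y with
  | zero => norm_num [flf, rr]
  | succ y ih =>
    obtain ⟨h1, h2⟩ := ih
    have h3 := rr_pos y
    refine ⟨by rw [h2]; positivity, ?_⟩
    rw [flf, rr, h2]
    have : (0 : ℝ) ≤ y := Nat.cast_nonneg y
    field_simp
    ring

theorem ratio_step {y q x : ℕ → ℝ} {s : ℝ} (hs : s ≠ 0) (hy : ∀ i, 0 < y i)
    (hq : ∀ i, q i = y i * y (i + 2) / y (i + 1) ^ 2) (hx : ∀ i, x i = s * (y (i + 1) ^ 2 * (q i - 1)))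
    (hne : ∀ i, q i - 1 ≠ 0) (i : ℕ) :
    q (i + 1) ^ 2 * (q i - 1) * (q (i + 2) - 1) / (q (i + 1) - 1) ^ 2 =
      x i * x (i + 2) / x (i + 1) ^ 2 := by
  have h1 := hq (i + 1)
  have n1 := hne (i + 1)
  have n2 := (hy (i + 2)).ne'
  rw [hx, hx, hx]
  nth_rewrite 1 [h1]
  simp only [add_assoc, Nat.reduceAdd]
  field_simp

theorem reduction (h0 : ∀ i, QQ 0 i < 1) (h1 : ∀ k i, 1 < QQ (k + 1) i) (k i : ℕ) :
    0 < opL^[k] (fun n => flf (n + 2) ^ 2 - flf (n + 1) * flf (n + 3)) i := by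
  set W : ℕ → ℝ := fun n => flf (n + 2) ^ 2 - flf (n + 1) * flf (n + 3) with hW
  have hq0 : ∀ i, QQ 0 i = flf (i + 1) * flf (i + 2 + 1) / flf (i + 1 + 1) ^ 2 := by
    intro i
    have a1 := flf_ratio (i + 1)
    have a2 := flf_ratio (i + 2)
    have a3 := (rr_pos (i + 1)).ne'
    have a4 := a1.1.ne'
    rw [QQ, a2.2, show i + 2 = i + 1 + 1 from rfl, a1.2]
    field_simp
  have hx0 : ∀ i, W i = -1 * (flf (i + 1 + 1) ^ 2 * (QQ 0 i - 1)) := by
    intro i
    have := (flf_ratio (i + 1 + 1)).1.ne'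
    rw [hq0]
    simp only [hW]
    field_simp
    ring
  have key : ∀ k, (∀ i, 0 < opL^[k] W i) ∧
      ∀ i, QQ (k + 1) i = opL^[k] W i * opL^[k] W (i + 2) / opL^[k] W (i + 1) ^ 2 := by
    intro k
    induction k with
    | zero =>
      refine ⟨fun i => ?_, fun i => ?_⟩
      · have := (flf_ratio (i + 1 + 1)).1
        have := h0 i
        rw [Function.iterate_zero_apply, hx0, neg_one_mul, ← mul_neg, neg_sub]
        exact mul_pos (by positivity) (by linarith)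
      · rw [QQ]
        exact ratio_step (y := fun i => flf (i + 1)) (by norm_num) (fun i => (flf_ratio _).1) hq0
          hx0 (fun i => (sub_neg.2 (h0 i)).ne) i
    | succ k ih =>
      have hx : ∀ i, opL^[k + 1] W i = 1 * (opL^[k] W (i + 1) ^ 2 * (QQ (k + 1) i - 1)) := by
        intro i
        have := (ih.1 (i + 1)).ne'
        rw [Function.iterate_succ_apply', ih.2, opL]
        field_simp
      refine ⟨fun i => ?_, fun i => ?_⟩
      · rw [hx, one_mul]
        exact mul_pos (pow_pos (ih.1 _) 2) (sub_pos.2 (h1 k i))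
      · rw [QQ]
        exact ratio_step one_ne_zero ih.1 ih.2 hx (fun i => (sub_pos.2 (h1 k i)).ne') i
  exact (key k).1 i

theorem QQ_ge {k i : ℕ} (h0 : 3 ≤ QQ k i) (h1 : 1 < QQ k (i + 1)) (h2 : 3 ≤ QQ k (i + 2)) :
    3 ≤ QQ (k + 1) i := by
  rw [QQ, le_div_iff₀ (pow_pos (by linarith) 2)]
  have a1 : 2 * 2 ≤ (QQ k i - 1) * (QQ k (i + 2) - 1) :=
    mul_le_mul (by linarith) (by linarith) (by norm_num) (by linarith)
  have a2 : (QQ k (i + 1) - 1) ^ 2 ≤ QQ k (i + 1) ^ 2 := by nlinarith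
  rw [mul_assoc]
  nlinarith [sq_nonneg (QQ k (i + 1))]

theorem rr_app (m : ℕ) : ∀ y : ℕ, 100 + m < y → ‖(rr y : ℂ) - app m y‖ ≤ (1 / 2) ^ m / 4 := by
  induction m with
  | zero =>
    intro y hy
    obtain ⟨y, rfl⟩ : ∃ y', y = y' + 1 := ⟨y - 1, by omega⟩
    have hy' : (100 : ℝ) + (0 : ℕ) < ‖((y + 1 : ℕ) : ℂ)‖ := by
      rw [Complex.norm_natCast]
      exact_mod_cast hy
    have h1 := (app_near 0 hy').trans (small_cube (by simpa using hy'))
    obtain ⟨h2, h3⟩ := rr_bounds y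
    have h4 : ‖(rr (y + 1) : ℂ) - 1‖ ≤ 1 / 8 := by
      rw [← Complex.ofReal_one, ← Complex.ofReal_sub, Complex.norm_real, Real.norm_eq_abs, abs_le]
      constructor <;> linarith
    have e : (rr (y + 1) : ℂ) - app 0 (y + 1 : ℕ) = (rr (y + 1) - 1) - (app 0 (y + 1 : ℕ) - 1) := by
      ring
    rw [e]
    refine (norm_sub_le _ _).trans ?_
    linarith
  | succ m ih =>
    intro y hy
    obtain ⟨y, rfl⟩ : ∃ y', y = y' + 1 := ⟨y - 1, by omega⟩
    have h1 := ih y (by omega)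
    have hy0 : (100 : ℝ) + m < y := by exact_mod_cast (by omega : 100 + m < y)
    have hm : (0 : ℝ) ≤ m := Nat.cast_nonneg m
    have hy' : (100 : ℝ) + m < ‖(y : ℂ)‖ := by rwa [Complex.norm_natCast]
    have h2 := norm_ge_of_near (app_near m hy')
    rw [Complex.norm_natCast] at h2
    have h3 : (y : ℝ) / (y + 1) ≤ ‖app m y‖ := by
      refine le_trans ?_ h2
      have a1 : 2 / (y : ℝ) ^ 3 ≤ 1 / (y + 1) := by
        have : (100 : ℝ) ≤ y := by linarith
        rw [div_le_div_iff₀ (pow_pos (by linarith) 3) (by positivity)]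
        have : (100 : ℝ) * 100 ≤ y * y := by gcongr
        nlinarith
      have a2 : (y : ℝ) / (y + 1) = 1 - 1 / (y + 1) := by
        field_simp
        ring
      linarith
    have h4 : 1 ≤ rr y := by
      obtain ⟨y', rfl⟩ : ∃ y', y = y' + 1 := ⟨y - 1, by omega⟩
      exact (rr_bounds y').1
    have yp : (0 : ℝ) < y := by linarith
    have n1 : app m y ≠ 0 := ne_zero_of_norm (by positivity) h3
    have n2 : (rr y : ℂ) ≠ 0 := Complex.ofReal_ne_zero.2 (by linarith)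
    have n3 : (y : ℂ) + 1 ≠ 0 := by exact_mod_cast (by omega : y + 1 ≠ 0)
    have e : (rr (y + 1) : ℂ) - app (m + 1) (y + 1 : ℕ) =
        y / (2 * (y + 1)) * (rr y - app m y) / (rr y * app m y) := by
      rw [rr, app, ric]
      push_cast
      rw [add_sub_cancel_right]
      generalize (3 * ((y : ℂ) + 1) ^ 2 + 5 * (y + 1) + 1) / (2 * (y + 1 + 1) ^ 2) = A
      field_simp
      ring
    have h5 : ‖(y : ℂ) / (2 * (y + 1))‖ = y / (y + 1) / 2 := by
      have : (y : ℂ) / (2 * (y + 1)) = ((y / (y + 1) / 2 : ℝ) : ℂ) := by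
        push_cast
        field_simp
      rw [this, Complex.norm_real, Real.norm_of_nonneg (by positivity)]
    rw [e, norm_div, norm_mul, norm_mul, h5, Complex.norm_real, Real.norm_of_nonneg (by linarith)]
    calc _ ≤ (y : ℝ) / (y + 1) / 2 * ((1 / 2) ^ m / 4) / (1 * (y / (y + 1))) := by gcongr
      _ = _ := by
        rw [pow_succ]
        field_simp

theorem QQ_zero_app (m i : ℕ) (hi : 100 + m < i + 1) :
    ‖(QQ 0 i : ℂ) - P0 m (i + 3 / 2)‖ ≤ (1 / 2) ^ m * ‖P0 m (i + 3 / 2)‖ := by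
  have h1 := rr_app m (i + 1) hi
  have h2 := rr_app m (i + 2) (by omega)
  have e1 : (i : ℂ) + 3 / 2 + 1 / 2 = (i + 2 : ℕ) := by
    push_cast
    ring
  have e2 : (i : ℂ) + 3 / 2 - 1 / 2 = (i + 1 : ℕ) := by
    push_cast
    ring
  have g1 := app_ge m (y := (i + 1 : ℕ)) (by rw [Complex.norm_natCast]; exact_mod_cast hi)
  have g2 := app_ge m (y := (i + 2 : ℕ))
    (by rw [Complex.norm_natCast]; exact_mod_cast (by omega : 100 + m < i + 2))
  have r1 := (rr_bounds i).1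
  have n1 := ne_zero_of_norm (by norm_num) g1
  have n2 := ne_zero_of_norm (by norm_num) g2
  have n3 : (rr (i + 1) : ℂ) ≠ 0 := Complex.ofReal_ne_zero.2 (by linarith)
  rw [P0, e1, e2, QQ, Complex.ofReal_div]
  generalize app m (i + 1 : ℕ) = a1 at *
  generalize app m (i + 2 : ℕ) = a2 at *
  have e : (rr (i + 2) : ℂ) / rr (i + 1) - a2 / a1 =
      ((rr (i + 2) - a2) * (a1 / a2) - (rr (i + 1) - a1)) / rr (i + 1) * (a2 / a1) := by
    field_simp
    ring
  rw [e, norm_mul]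
  gcongr
  have hp : (1 / 2 : ℝ) ^ m ≤ 1 := pow_le_one₀ (by norm_num) (by norm_num)
  have hp0 : (0 : ℝ) ≤ (1 / 2) ^ m := by positivity
  have b1 : ‖a1‖ ≤ 11 / 8 := by
    have := norm_sub_le (rr (i + 1) : ℂ) (rr (i + 1) - a1)
    rw [sub_sub_cancel, Complex.norm_real, Real.norm_of_nonneg (by linarith)] at this
    linarith [(rr_bounds i).2]
  have b2 : ‖a1 / a2‖ ≤ 2 := by
    rw [norm_div, div_le_iff₀ (by linarith)]
    linarith
  rw [norm_div, Complex.norm_real, Real.norm_of_nonneg (by linarith), div_le_iff₀ (by linarith)]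
  refine (norm_sub_le _ _).trans ?_
  rw [norm_mul]
  have b3 : ‖(rr (i + 2) : ℂ) - a2‖ * ‖a1 / a2‖ ≤ (1 / 2) ^ m / 4 * 2 := by gcongr
  nlinarith

end Pool.Agent.P.MP_e3a7ef_co
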