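import Pool.Agent.P.MP_e3a7ef_co.Cauchy

namespace Pool.Agent.P.MP_e3a7ef_co

open Complex Metric Set

/-- Exterior of a disc. -/
def U (R : ℝ) : Set ℂ := {z | R < ‖z‖}

theorem U_mono {R R' : ℝ} (h : R ≤ R') : U R' ⊆ U R := fun _ hz => lt_of_le_of_lt h hz

theorem mem_U_add {R R' : ℝ} {z a : ℂ} (hz : z ∈ U R') (h : R + ‖a‖ ≤ R') : z + a ∈ U R := by
  have := norm_sub_norm_le z (-a)
  simp only [norm_neg, sub_neg_eq_add] at this
  have hz' : R' < ‖z‖ := hz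
  change R < ‖z + a‖
  linarith

/-- The next level built from a logarithm `L` of the normalised `exp G - 1`. -/
noncomputable def nextG (κ : ℕ) (G L : ℂ → ℂ) (z : ℂ) : ℂ :=
  2 * G z - κ * log (1 + -(1 / z ^ 2)) + (L (z + 1) + L (z - 1) - 2 * L z)

theorem assemble {G L : ℂ → ℂ} {κ : ℕ} {c : ℂ} {R R' μ D : ℝ} (hR : 0 < R) (hc : c ≠ 0)
    (hG : DifferentiableOn ℂ G (U R)) (hL : DifferentiableOn ℂ L (U R))
    (hid : ∀ z ∈ U R, exp (G z) - 1 = c * exp (L z) / z ^ κ)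
    (hμ : 0 ≤ μ) (hLb : ∀ z ∈ U R, ‖L z‖ ≤ μ / ‖z‖ ^ 2) (hRR : R ≤ R') (h101 : 101 ≤ (R' - R) ^ 2)
    (hD : 101 / 100 * R' ^ 4 ≤ D * ((R' - R) ^ 2 * R ^ 2)) :
    DifferentiableOn ℂ (nextG κ G L) (U R') ∧
    (∀ z ∈ U R', exp (nextG κ G L z) =
      exp (G z) ^ 2 * (exp (G (z - 1)) - 1) * (exp (G (z + 1)) - 1) / (exp (G z) - 1) ^ 2) ∧
    ∀ z ∈ U R', ‖nextG κ G L z - 2 * G z - κ / z ^ 2‖ ≤ (κ + 2 * D * μ) / ‖z‖ ^ 4 := by
  have h10 : R + 10 ≤ R' := by nlinarith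
  have hp : ∀ z ∈ U R', z + 1 ∈ U R := fun z hz => mem_U_add hz (by simp; linarith)
  have hm : ∀ z ∈ U R', z - 1 ∈ U R := fun z hz => by
    rw [sub_eq_add_neg]
    exact mem_U_add hz (by simp; linarith)
  have hz0 : ∀ z ∈ U R, z ≠ 0 := fun z hz h => by
    have : R < ‖z‖ := hz
    rw [h, norm_zero] at this
    linarith
  have hw : ∀ z ∈ U R', ‖-(1 / z ^ 2)‖ ≤ 1 / 100 := fun z hz => by
    have : R' < ‖z‖ := hz
    rw [norm_neg, norm_div, norm_one, norm_pow]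
    exact one_div_le_one_div_of_le (by norm_num) (by nlinarith)
  have hsub : U R' ⊆ U R := U_mono hRR
  refine ⟨?_, fun z hz => ?_, fun z hz => ?_⟩
  · unfold nextG
    have d1 : DifferentiableOn ℂ (fun z : ℂ => log (1 + -(1 / z ^ 2))) (U R') := by
      refine DifferentiableOn.clog ?_ fun z hz =>
        one_add_mem_slitPlane (lt_of_le_of_lt (hw z hz) (by norm_num))
      refine (differentiableOn_const _).add (DifferentiableOn.neg ?_)
      exact (differentiableOn_const _).div (differentiableOn_id.pow 2)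
        fun z hz => pow_ne_zero 2 (hz0 z (hsub hz))
    have d2 : DifferentiableOn ℂ (fun z : ℂ => L (z + 1)) (U R') :=
      hL.comp (differentiableOn_id.add_const 1) hp
    have d3 : DifferentiableOn ℂ (fun z : ℂ => L (z - 1)) (U R') :=
      hL.comp (differentiableOn_id.sub_const 1) hm
    exact (((hG.mono hsub).const_mul 2).sub (d1.const_mul _)).add
      ((d2.add d3).sub ((hL.mono hsub).const_mul 2))
  · have n0 := hz0 z (hsub hz)
    have n1 := hz0 _ (hp z hz)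
    have n2 := hz0 _ (hm z hz)
    have n3 : 1 + -(1 / z ^ 2) ≠ 0 :=
      slitPlane_ne_zero (one_add_mem_slitPlane (lt_of_le_of_lt (hw z hz) (by norm_num)))
    have e3 : 1 + -(1 / z ^ 2) = (z + 1) * (z - 1) / z ^ 2 := by
      field_simp
      ring
    rw [hid _ (hp z hz), hid _ (hm z hz), hid _ (hsub hz)]
    unfold nextG
    rw [exp_add, exp_sub, exp_sub, exp_add, exp_nat_mul, exp_log n3, two_mul, two_mul, exp_add,
      exp_add, e3, div_pow, mul_pow, ← pow_mul, mul_comm 2 κ, pow_mul]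
    have := exp_ne_zero (L z)
    field_simp
  · have hzR : R' < ‖z‖ := hz
    have hR' : 0 < R' := by linarith
    have hzp : 0 < ‖z‖ := by linarith
    set ρ := (R' - R) / R' * ‖z‖ with hρ
    have hρ1 : R' - R ≤ ρ := by
      rw [hρ, div_mul_eq_mul_div, le_div_iff₀ hR']
      nlinarith
    have hball : ∀ w ∈ closedBall z ρ, R / R' * ‖z‖ ≤ ‖w‖ := by
      intro w hw
      rw [mem_closedBall_iff_norm'] at hw
      have := norm_sub_norm_le z w
      have e : R / R' * ‖z‖ = ‖z‖ - ρ := by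
        rw [hρ]
        field_simp
        ring
      linarith
    have hlt : R < R / R' * ‖z‖ := by
      rw [div_mul_eq_mul_div, lt_div_iff₀ hR']
      nlinarith
    have hcb : closedBall z ρ ⊆ U R := fun w hw => lt_of_lt_of_le hlt (hball w hw)
    have hC := second_diff_le (M := μ / (R / R' * ‖z‖) ^ 2) (show 1 < ρ by linarith) (hL.mono hcb)
      (fun w hw => (hLb w (hcb (sphere_subset_closedBall hw))).trans (by
        gcongr
        exact hball w (sphere_subset_closedBall hw)))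
    have hρ2 : 101 ≤ ρ ^ 2 := h101.trans (by gcongr)
    have hC2 : 2 * (μ / (R / R' * ‖z‖) ^ 2) / (ρ ^ 2 - 1) ≤ 2 * D * μ / ‖z‖ ^ 4 := by
      have h1 : ρ ^ 2 / (101 / 100) ≤ ρ ^ 2 - 1 := by linarith
      have hRR' : 0 < R' - R := by linarith
      calc 2 * (μ / (R / R' * ‖z‖) ^ 2) / (ρ ^ 2 - 1)
          ≤ 2 * (μ / (R / R' * ‖z‖) ^ 2) / (ρ ^ 2 / (101 / 100)) := by gcongr
        _ = 2 * (101 / 100 * R' ^ 4 / ((R' - R) ^ 2 * R ^ 2)) * μ / ‖z‖ ^ 4 := by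
            rw [hρ]
            field_simp
        _ ≤ 2 * D * μ / ‖z‖ ^ 4 := by
            gcongr
            rw [div_le_iff₀ (by positivity)]
            exact hD
    have hlog : ‖log (1 + -(1 / z ^ 2)) - -(1 / z ^ 2)‖ ≤ 1 / ‖z‖ ^ 4 := by
      have h1 := hw z hz
      refine (norm_log_one_add_sub_self_le (lt_of_le_of_lt h1 (by norm_num))).trans ?_
      have h2 : (1 - ‖-(1 / z ^ 2)‖)⁻¹ ≤ 2 := by
        rw [inv_le_comm₀ (by linarith) (by norm_num)]
        linarith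
      have h3 : ‖-(1 / z ^ 2)‖ ^ 2 = 1 / ‖z‖ ^ 4 := by
        rw [norm_neg, norm_div, norm_one, norm_pow]
        field_simp
      rw [h3]
      have : 0 ≤ 1 / ‖z‖ ^ 4 := by positivity
      nlinarith
    have e : nextG κ G L z - 2 * G z - κ / z ^ 2 =
        -(κ * (log (1 + -(1 / z ^ 2)) - -(1 / z ^ 2))) + (L (z + 1) + L (z - 1) - 2 * L z) := by
      unfold nextG
      ring
    rw [e, add_div]
    refine (norm_add_le _ _).trans (add_le_add ?_ (hC.trans hC2))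
    rw [norm_neg, norm_mul, Complex.norm_natCast, div_eq_mul_one_div (κ : ℝ)]
    gcongr

/-- The logarithm of the normalised `exp G - 1` at levels at least one. -/
noncomputable def logS (α : ℝ) (G : ℂ → ℂ) (z : ℂ) : ℂ :=
  G z / 2 + log (1 + (z ^ 2 * (exp (G z / 2) - exp (-(G z / 2))) / α - 1))

theorem norm_G_le {g z : ℂ} {α b R : ℝ} (hα : 0 < α) (hR : 0 < R) (hz : R < ‖z‖)
    (hb : b ≤ R ^ 2 / 10) (h : ‖g - α / z ^ 2‖ ≤ α * b / ‖z‖ ^ 4) :
    ‖g - α / z ^ 2‖ ≤ α / ‖z‖ ^ 2 / 10 := by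
  refine h.trans ?_
  have hzp : 0 < ‖z‖ := by linarith
  have : b ≤ ‖z‖ ^ 2 / 10 := hb.trans (by gcongr)
  calc α * b / ‖z‖ ^ 4 ≤ α * (‖z‖ ^ 2 / 10) / ‖z‖ ^ 4 := by gcongr
    _ = _ := by field_simp

theorem sinh_step {G : ℂ → ℂ} {α b R : ℝ} (hα : 0 < α) (hR : 0 < R) 
    (hb : b ≤ R ^ 2 / 10) (hαR : α ≤ 17 / 10 * R ^ 2) (hG : DifferentiableOn ℂ G (U R))
    (hGb : ∀ z ∈ U R, ‖G z - α / z ^ 2‖ ≤ α * b / ‖z‖ ^ 4) :
    DifferentiableOn ℂ (logS α G) (U R) ∧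
    (∀ z ∈ U R, exp (G z) - 1 = α * exp (logS α G z) / z ^ 2) ∧
    (∀ z ∈ U R, ‖logS α G z‖ ≤ (71 / 100 * α + 5 / 4 * b) / ‖z‖ ^ 2) ∧
    ∀ z ∈ U R, ‖exp (G z)‖ ≤ 4 * ‖z‖ ^ 2 / α * ‖exp (G z) - 1‖ := by
  have hαc : (α : ℂ) ≠ 0 := ofReal_ne_zero.2 hα.ne'
  have key : ∀ z ∈ U R, z ≠ 0 ∧ ‖G z‖ ≤ 11 / 10 * α / ‖z‖ ^ 2 ∧ ‖G z‖ ≤ 187 / 100 ∧
      ‖z ^ 2 * (exp (G z / 2) - exp (-(G z / 2))) / α - 1‖ ≤ (b + 124 / 1000 * α) / ‖z‖ ^ 2 ∧
      (b + 124 / 1000 * α) / ‖z‖ ^ 2 ≤ 311 / 1000 := by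
    intro z hz
    have hz' : R < ‖z‖ := hz
    have hzp : 0 < ‖z‖ := by linarith
    have hz0 : z ≠ 0 := norm_pos_iff.1 hzp
    have hz2 : R ^ 2 ≤ ‖z‖ ^ 2 := by gcongr
    have h1 := norm_G_le hα hR hz' hb (hGb z hz)
    have h2 : ‖(α : ℂ) / z ^ 2‖ = α / ‖z‖ ^ 2 := by
      rw [norm_div, norm_pow, norm_real, Real.norm_of_nonneg hα.le]
    have h3 : ‖G z‖ ≤ 11 / 10 * α / ‖z‖ ^ 2 := by
      have := norm_add_le (G z - α / z ^ 2) (α / z ^ 2)
      rw [sub_add_cancel, h2] at this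
      rw [mul_div_assoc]
      linarith
    have h4 : α / ‖z‖ ^ 2 ≤ 17 / 10 := by
      rw [div_le_iff₀ (by positivity)]
      linarith
    have h5 : ‖G z‖ ≤ 187 / 100 := by
      rw [mul_div_assoc] at h3
      linarith
    refine ⟨hz0, h3, h5, ?_, ?_⟩
    · have h6 : ‖G z / 2‖ = ‖G z‖ / 2 := by simp
      have h7 := sinh_bound (w := G z / 2) (by rw [h6]; linarith)
      have e : z ^ 2 * (exp (G z / 2) - exp (-(G z / 2))) / α - 1 =
          z ^ 2 / α * ((exp (G z / 2) - exp (-(G z / 2)) - 2 * (G z / 2)) + (G z - α / z ^ 2)) := by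
        field_simp
        ring
      have h8 : ‖z ^ 2 / α‖ = ‖z‖ ^ 2 / α := by
        rw [norm_div, norm_pow, norm_real, Real.norm_of_nonneg hα.le]
      have h9 : 7 / 16 * ‖G z / 2‖ ^ 3 ≤ 124 / 1000 * (α / ‖z‖ ^ 2) ^ 2 := by
        rw [h6]
        have a1 : ‖G z‖ ^ 2 ≤ (11 / 10 * (α / ‖z‖ ^ 2)) ^ 2 := by
          rw [← mul_div_assoc]
          gcongr
        have a2 : ‖G z‖ ^ 3 ≤ 187 / 100 * ‖G z‖ ^ 2 := by
          rw [pow_succ']
          gcongr
        nlinarith [sq_nonneg (α / ‖z‖ ^ 2)]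
      rw [e, norm_mul, h8]
      calc _ ≤ ‖z‖ ^ 2 / α * (124 / 1000 * (α / ‖z‖ ^ 2) ^ 2 + α * b / ‖z‖ ^ 4) := by
            gcongr
            exact (norm_add_le _ _).trans (add_le_add (h7.trans h9) (hGb z hz))
        _ = _ := by
            field_simp
            ring
    · rw [div_le_iff₀ (by positivity)]
      linarith
  have hid : ∀ z ∈ U R, exp (G z) - 1 = α * exp (logS α G z) / z ^ 2 := by
    intro z hz
    obtain ⟨h0, -, -, h3, h4⟩ := key z hz
    have n := slitPlane_ne_zero (one_add_mem_slitPlane (lt_of_le_of_lt (h3.trans h4) (by norm_num)))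
    unfold logS
    rw [exp_add, exp_log n]
    have e1 : exp (G z) = exp (G z / 2) * exp (G z / 2) := by rw [← exp_add, add_halves]
    have e2 : exp (G z / 2) * exp (-(G z / 2)) = 1 := by rw [← exp_add, add_neg_cancel, exp_zero]
    rw [add_sub_cancel]
    field_simp
    linear_combination e1 + e2
  refine ⟨?_, hid, fun z hz => ?_, fun z hz => ?_⟩
  · unfold logS
    refine (hG.div_const 2).add (DifferentiableOn.clog ?_ fun z hz => ?_)
    · refine (differentiableOn_const _).add (DifferentiableOn.sub_const ?_ _)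
      refine DifferentiableOn.div_const ((differentiableOn_id.pow 2).mul ?_) _
      exact (hG.div_const 2).cexp.sub (hG.div_const 2).neg.cexp
    · obtain ⟨-, -, -, h3, h4⟩ := key z hz
      exact one_add_mem_slitPlane (lt_of_le_of_lt (h3.trans h4) (by norm_num))
  · obtain ⟨h0, h1, -, h3, h4⟩ := key z hz
    have h5 := norm_log_one_add_le_54 ((h3.trans h4).trans (by norm_num))
    have h6 : ‖G z / 2‖ = ‖G z‖ / 2 := by simp
    unfold logS
    refine (norm_add_le _ _).trans ?_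
    have h7 : 0 ≤ α / ‖z‖ ^ 2 := by positivity
    have e : (71 / 100 * α + 5 / 4 * b) / ‖z‖ ^ 2 = 11 / 10 * α / ‖z‖ ^ 2 / 2 +
        5 / 4 * ((b + 124 / 1000 * α) / ‖z‖ ^ 2) + 5 / 1000 * (α / ‖z‖ ^ 2) := by ring
    rw [e, h6]
    linarith
  · obtain ⟨h0, -, h2, h3, h4⟩ := key z hz
    have n := slitPlane_ne_zero (one_add_mem_slitPlane (lt_of_le_of_lt (h3.trans h4) (by norm_num)))
    have hzp : 0 < ‖z‖ := norm_pos_iff.2 h0
    rw [hid z hz]
    unfold logS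
    rw [exp_add, exp_log n]
    set ξ := z ^ 2 * (exp (G z / 2) - exp (-(G z / 2))) / α - 1 with hξ
    have e1 : exp (G z) = exp (G z / 2) * exp (G z / 2) := by rw [← exp_add, add_halves]
    have h5 : ‖exp (G z / 2)‖ ≤ 2719 / 1000 := by
      refine (Complex.norm_exp_le_exp_norm _).trans ?_
      have : ‖G z / 2‖ ≤ 1 := by
        simp only [norm_div, Complex.norm_ofNat]
        linarith
      exact (Real.exp_le_exp.2 this).trans (Real.exp_one_lt_d9.le.trans (by norm_num))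
    have h6 : 689 / 1000 ≤ ‖1 + ξ‖ := by
      have := norm_sub_norm_le (1 : ℂ) (-ξ)
      simp only [norm_one, norm_neg, sub_neg_eq_add] at this
      linarith
    rw [e1, norm_div, norm_mul, norm_mul, norm_mul, norm_pow, norm_real, Real.norm_of_nonneg hα.le]
    have e2 : 4 * ‖z‖ ^ 2 / α * (α * (‖exp (G z / 2)‖ * ‖1 + ξ‖) / ‖z‖ ^ 2) =
        ‖exp (G z / 2)‖ * (4 * ‖1 + ξ‖) := by
      field_simp
    rw [e2]
    gcongr
    linarith

end Pool.Agent.P.MP_e3a7ef_co
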