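import Pool.Agent.K.MP_e3a7ef_co.C4

namespace Pool.Agent.P.MP_e3a7ef_co.VariantInfLogConvex

open Pool.Agent.P.MP_e3a7ef_co

theorem result (k i : ℕ) :
    0 < opL^[k] (fun n => flf (n + 2) ^ 2 - flf (n + 1) * flf (n + 3)) i :=
  main k i

end Pool.Agent.P.MP_e3a7ef_co.VariantInfLogConvex
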